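import Pool.Agent.Matroid6d.KW

/-!
Containers for families of sets of equal size whose members come with few possible
neighbourhoods.
-/

set_option autoImplicit false

namespace Pool.Agent.Matroid6d

open Finset

variable {n : ℕ}

/-- Containers for the members of `𝒳` inside `A`: every member of `𝒳` agrees, outside a container
without vertices of degree `δ` or more, with the second component of one of at most `c` pairs. -/
def HasC (𝒳 : Set (Finset (Finset (Fin n)))) (δ : ℕ) (A : Finset (Finset (Fin n))) (c t : ℝ) :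
    Prop :=
  ∃ 𝒟 : Finset (Finset (Finset (Fin n)) × Finset (Finset (Fin n))), (𝒟.card : ℝ) ≤ c ∧
    ∀ S ∈ 𝒳, ∃ p ∈ 𝒟, p.1 ⊆ A ∧ (∀ v ∈ p.1, (Ngb p.1 v).card < δ) ∧
      (∀ v, v ∈ p.2 ↔ v ∈ S ∧ v ∈ A ∧ v ∉ p.1) ∧
      ((∀ v ∈ S, Ngb S v = ∅) → (p.2.card : ℝ) ≤ t)

variable {𝒳 : Set (Finset (Finset (Fin n)))} {δ : ℕ} {A : Finset (Finset (Fin n))}

lemma HasC.mono {c t c' t' : ℝ} (h : HasC 𝒳 δ A c t) (hc : c ≤ c') (ht : t ≤ t') :
    HasC 𝒳 δ A c' t' := by
  obtain ⟨𝒟, h1, h2⟩ := h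
  refine ⟨𝒟, h1.trans hc, fun S hS => ?_⟩
  obtain ⟨p, hp, a1, a2, a3, a4⟩ := h2 S hS
  exact ⟨p, hp, a1, a2, a3, fun h => (a4 h).trans ht⟩

lemma HasC.base (h : ∀ v ∈ A, (Ngb A v).card < δ) : HasC 𝒳 δ A 1 0 := by
  classical
  refine ⟨{(A, ∅)}, by simp, fun S _ => ⟨(A, ∅), mem_singleton_self _, Subset.refl _, h, ?_, ?_⟩⟩
  · intro v
    constructor
    · intro hv
      exact absurd hv (notMem_empty _)
    · rintro ⟨_, h1, h2⟩
      exact absurd h1 h2
  · intro _
    simp

lemma HasC.step {v : Finset (Fin n)} (hv : v ∈ A) (Ψ : Finset (Finset (Finset (Fin n))))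
    (hΨ : ∀ S ∈ 𝒳, v ∈ S → ∃ ψ ∈ Ψ, ∀ u ∈ A, Adj v u → (u ∈ S ↔ u ∈ ψ))
    {c₁ t₁ c₂ t₂ : ℝ} (h₁ : HasC 𝒳 δ (A.erase v) c₁ t₁) (h₂ : HasC 𝒳 δ (Rest A v) c₂ t₂) :
    HasC 𝒳 δ A (c₁ + Ψ.card * c₂) (max t₁ (t₂ + 1)) := by
  classical
  obtain ⟨𝒟₁, a1, a2⟩ := h₁
  obtain ⟨𝒟₂, b1, b2⟩ := h₂
  set f : Finset (Finset (Fin n)) × (Finset (Finset (Fin n)) × Finset (Finset (Fin n))) →
      Finset (Finset (Fin n)) × Finset (Finset (Fin n)) :=
    fun q => (q.2.1, insert v ((Ngb A v).filter (fun u => u ∈ q.1) ∪ q.2.2)) with hf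
  refine ⟨𝒟₁ ∪ (Ψ ×ˢ 𝒟₂).image f, ?_, ?_⟩
  · have h1 : (𝒟₁ ∪ (Ψ ×ˢ 𝒟₂).image f).card ≤ 𝒟₁.card + Ψ.card * 𝒟₂.card := by
      refine (card_union_le _ _).trans (Nat.add_le_add_left ?_ _)
      exact card_image_le.trans (le_of_eq (card_product _ _))
    have h2 : ((𝒟₁ ∪ (Ψ ×ˢ 𝒟₂).image f).card : ℝ) ≤ 𝒟₁.card + Ψ.card * 𝒟₂.card := by
      exact_mod_cast h1
    have h3 : (Ψ.card : ℝ) * 𝒟₂.card ≤ Ψ.card * c₂ :=
      mul_le_mul_of_nonneg_left b1 (by positivity)
    linarith
  · intro S hS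
    by_cases hvS : v ∈ S
    · obtain ⟨ψ, hψ, hψS⟩ := hΨ S hS hvS
      obtain ⟨p, hp, c1, c2, c3, c4⟩ := b2 S hS
      have hRA : ∀ u ∈ p.1, u ∈ A := fun u hu => (mem_Rest.1 (c1 hu)).1.2
      refine ⟨f (ψ, p), mem_union_right _ (mem_image_of_mem f (mem_product.2 ⟨hψ, hp⟩)), hRA, c2,
        ?_, ?_⟩
      · intro w
        simp only [hf, mem_insert, mem_union, mem_filter, mem_Ngb]
        constructor
        · rintro (rfl | ⟨⟨h1, h2⟩, h3⟩ | h)
          · exact ⟨hvS, hv, fun h => (mem_Rest.1 (c1 h)).1.1 rfl⟩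
          · exact ⟨(hψS w h1 h2).2 h3, h1, fun h => (mem_Rest.1 (c1 h)).2 h2⟩
          · have h1 := (c3 w).1 h
            exact ⟨h1.1, (mem_Rest.1 h1.2.1).1.2, h1.2.2⟩
        · rintro ⟨h1, h2, h3⟩
          by_cases hwv : w = v
          · exact Or.inl hwv
          · right
            by_cases had : Adj v w
            · exact Or.inl ⟨⟨h2, had⟩, (hψS w h2 had).1 h1⟩
            · exact Or.inr ((c3 w).2 ⟨h1, mem_Rest.2 ⟨⟨hwv, h2⟩, had⟩, h3⟩)
      · intro hsp
        have h1 := c4 hsp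
        have h2 : (Ngb A v).filter (fun u => u ∈ ψ) = ∅ := by
          rw [eq_empty_iff_forall_notMem]
          intro u hu
          rw [mem_filter, mem_Ngb] at hu
          have : u ∈ Ngb S v := mem_Ngb.2 ⟨(hψS u hu.1.1 hu.1.2).2 hu.2, hu.1.2⟩
          rw [hsp v hvS] at this
          exact notMem_empty _ this
        rw [hf]
        simp only
        rw [h2, empty_union]
        have h3 : ((insert v p.2).card : ℝ) ≤ p.2.card + 1 := by
          exact_mod_cast card_insert_le v p.2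
        exact (h3.trans (by linarith)).trans (le_max_right _ _)
    · obtain ⟨p, hp, c1, c2, c3, c4⟩ := a2 S hS
      refine ⟨p, mem_union_left _ hp, c1.trans (erase_subset _ _), c2, ?_,
        fun h => (c4 h).trans (le_max_left _ _)⟩
      intro w
      rw [c3 w, mem_erase]
      constructor
      · rintro ⟨h1, h2, h3⟩
        exact ⟨h1, h2.2, h3⟩
      · rintro ⟨h1, h2, h3⟩
        exact ⟨h1, ⟨fun h => hvS (h ▸ h1), h2⟩, h3⟩

/-- Small families. -/
lemma small_stage (V : Finset (Finset (Fin n)))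
    (Ψ : Finset (Fin n) → Finset (Finset (Finset (Fin n))))
    (hΨ : ∀ S ∈ 𝒳, ∀ v ∈ V, v ∈ S → ∃ ψ ∈ Ψ v, ∀ u ∈ V, Adj v u → (u ∈ S ↔ u ∈ ψ))
    (ξ u : ℝ) (hξ : ∀ v ∈ V, ((Ψ v).card : ℝ) ≤ ξ) (hδ : 1 ≤ δ) (hu0 : 0 ≤ u)
    (hu : Real.exp (-u) + ξ * Real.exp (-(u * δ)) ≤ 1) :
    ∀ (k : ℕ) (A : Finset (Finset (Fin n))), A ⊆ V → A.card ≤ k →
      HasC 𝒳 δ A (Real.exp (u * A.card)) ((A.card : ℝ) / δ) := by
  have hδ1 : (1 : ℝ) ≤ δ := by exact_mod_cast hδ
  have hδ0 : (0 : ℝ) < δ := by linarith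
  intro k
  induction k with
  | zero =>
    intro A _ hA
    have hA0 : A = ∅ := by rw [← card_eq_zero]; omega
    refine (HasC.base ?_).mono ?_ ?_
    · intro v hv
      rw [hA0] at hv
      exact absurd hv (notMem_empty _)
    · exact Real.one_le_exp (by positivity)
    · positivity
  | succ k ih =>
    intro A hAV hAk
    by_cases hd : ∀ v ∈ A, (Ngb A v).card < δ
    · refine (HasC.base hd).mono ?_ (by positivity)
      exact Real.one_le_exp (by positivity)
    push Not at hd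
    obtain ⟨v, hv, hvd⟩ := hd
    have hdec := card_decomp A hv
    have hcE := card_erase_of_mem hv
    have hposA : 0 < A.card := card_pos.2 ⟨v, hv⟩
    have ih1 := ih (A.erase v) ((erase_subset _ _).trans hAV) (by omega)
    have ih2 := ih (Rest A v) (fun u hu => hAV (mem_Rest.1 hu).1.2) (by omega)
    have c1 : ((A.erase v).card : ℝ) = A.card - 1 := by
      rw [hcE, Nat.cast_sub hposA, Nat.cast_one]
    have c2 : ((Rest A v).card : ℝ) ≤ A.card - 1 - δ := by
      have e1 : (A.card : ℝ) = 1 + (Ngb A v).card + (Rest A v).card := by exact_mod_cast hdec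
      have e2 : (δ : ℝ) ≤ (Ngb A v).card := by exact_mod_cast hvd
      linarith
    have hst := HasC.step hv (Ψ v)
      (fun S hS hvS => by
        obtain ⟨ψ, h1, h2⟩ := hΨ S hS v (hAV hv) hvS
        exact ⟨ψ, h1, fun u hu => h2 u (hAV hu)⟩) ih1 ih2
    refine hst.mono ?_ ?_
    · have f1 : Real.exp (u * (A.erase v).card) ≤ Real.exp (u * A.card) * Real.exp (-u) := by
        rw [← Real.exp_add]
        apply Real.exp_le_exp.2
        rw [c1]
        linarith
      have f2 : Real.exp (u * (Rest A v).card) ≤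
          Real.exp (u * A.card) * Real.exp (-(u * δ)) := by
        rw [← Real.exp_add]
        apply Real.exp_le_exp.2
        have := mul_le_mul_of_nonneg_left c2 hu0
        linarith
      have f3 := hξ v (hAV hv)
      have hξ0 : 0 ≤ ξ := le_trans (by positivity) f3
      calc Real.exp (u * (A.erase v).card) + ((Ψ v).card : ℝ) * Real.exp (u * (Rest A v).card)
          ≤ Real.exp (u * A.card) * Real.exp (-u) +
            ξ * (Real.exp (u * A.card) * Real.exp (-(u * δ))) :=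
            add_le_add f1 (mul_le_mul f3 f2 (Real.exp_pos _).le hξ0)
        _ = Real.exp (u * A.card) * (Real.exp (-u) + ξ * Real.exp (-(u * δ))) := by ring
        _ ≤ Real.exp (u * A.card) * 1 := mul_le_mul_of_nonneg_left hu (Real.exp_pos _).le
        _ = _ := mul_one _
    · apply max_le
      · apply div_le_div_of_nonneg_right _ hδ0.le
        linarith
      · rw [div_add_one hδ0.ne']
        apply div_le_div_of_nonneg_right _ hδ0.le
        linarith

/-- All families. -/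
theorem big_stage (V : Finset (Finset (Fin n)))
    (Ψ : Finset (Fin n) → Finset (Finset (Finset (Fin n))))
    (hΨ : ∀ S ∈ 𝒳, ∀ v ∈ V, v ∈ S → ∃ ψ ∈ Ψ v, ∀ u ∈ V, Adj v u → (u ∈ S ↔ u ∈ ψ))
    (ξ u κ y β : ℝ) (hξ : ∀ v ∈ V, ((Ψ v).card : ℝ) ≤ ξ) (hξ0 : 0 ≤ ξ) (hδ : 1 ≤ δ)
    (hu0 : 0 ≤ u) (hu : Real.exp (-u) + ξ * Real.exp (-(u * δ)) ≤ 1)
    (hκ : 2 ≤ κ) (hy : 1 ≤ y) (hβ : 1 ≤ β) (hn : 2 ≤ n)
    (hV : (V.card : ℝ) ≤ κ * (n : ℝ) ^ 2 / 2)
    (hξβ : ξ * (n : ℝ) ^ 2 ≤ Real.exp β)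
    (hdeg : ∀ A ⊆ V, 2 * y < A.card → ∃ v ∈ A, (A.card : ℝ) ≤ κ * ((Ngb A v).card + 1)) :
    ∀ (k : ℕ) (A : Finset (Finset (Fin n))), A ⊆ V → A.card ≤ k →
      HasC 𝒳 δ A (Real.exp (2 * u * y + β * κ * Real.log (max 1 (A.card / y))))
        (2 * y / δ + κ * Real.log (max 1 (A.card / y))) := by
  have hn0 : (2 : ℝ) ≤ n := by exact_mod_cast hn
  have hδ1 : (1 : ℝ) ≤ δ := by exact_mod_cast hδ
  have hδ0 : (0 : ℝ) < δ := by linarith
  have hlog : ∀ x : ℝ, 0 ≤ Real.log (max 1 x) := fun x => Real.log_nonneg (le_max_left _ _)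
  have hκ0 : 0 < κ := by linarith
  have hβκ : 0 ≤ β * κ := by positivity
  have small : ∀ A : Finset (Finset (Fin n)), A ⊆ V → (A.card : ℝ) ≤ 2 * y →
      HasC 𝒳 δ A (Real.exp (2 * u * y + β * κ * Real.log (max 1 (A.card / y))))
        (2 * y / δ + κ * Real.log (max 1 (A.card / y))) := by
    intro A hAV hA
    refine (small_stage V Ψ hΨ ξ u hξ hδ hu0 hu A.card A hAV le_rfl).mono ?_ ?_
    · apply Real.exp_le_exp.2
      have h2 := mul_nonneg hβκ (hlog (A.card / y))
      have h3 := mul_le_mul_of_nonneg_left hA hu0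
      linarith
    · have h2 := mul_nonneg hκ0.le (hlog (A.card / y))
      have h3 := div_le_div_of_nonneg_right hA hδ0.le
      linarith
  intro k
  induction k with
  | zero =>
    intro A hAV hA
    apply small A hAV
    have : A.card = 0 := by omega
    rw [this]
    push_cast
    linarith
  | succ k ih =>
    intro A hAV hAk
    by_cases hs : (A.card : ℝ) ≤ 2 * y
    · exact small A hAV hs
    push Not at hs
    obtain ⟨v, hv, hvd⟩ := hdeg A hAV hs
    have hdec := card_decomp A hv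
    have hcE := card_erase_of_mem hv
    have hposA : 0 < A.card := card_pos.2 ⟨v, hv⟩
    have ih1 := ih (A.erase v) ((erase_subset _ _).trans hAV) (by omega)
    have ih2 := ih (Rest A v) (fun u hu => hAV (mem_Rest.1 hu).1.2) (by omega)
    have hst := HasC.step hv (Ψ v)
      (fun S hS hvS => by
        obtain ⟨ψ, h1, h2⟩ := hΨ S hS v (hAV hv) hvS
        exact ⟨ψ, h1, fun u hu => h2 u (hAV hu)⟩) ih1 ih2
    set s : ℝ := (A.card : ℝ) with hsdef
    have hs0 : 0 < s := by linarith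
    have hy0 : 0 < y := by linarith
    have hsy : 2 ≤ s / y := by
      rw [le_div_iff₀ hy0]
      linarith
    have hmax : max 1 (s / y) = s / y := max_eq_right (by linarith)
    set ℓ := Real.log (s / y) with hℓ
    -- the first term
    have c1 : ((A.erase v).card : ℝ) = s - 1 := by
      rw [hcE, Nat.cast_sub hposA, Nat.cast_one]
    have hs1 : 1 < s := by linarith
    have l1 : Real.log (max 1 ((A.erase v).card / y)) ≤ ℓ - 1 / s := by
      rw [c1]
      have e1 : (1 : ℝ) ≤ (s - 1) / y := by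
        rw [le_div_iff₀ hy0]
        linarith
      rw [max_eq_right e1]
      have e2 : (s - 1) / y = s / y * (1 - 1 / s) := by
        field_simp
      have e3 : 0 < 1 - 1 / s := by
        have : 1 / s < 1 := by rw [div_lt_one hs0]; exact hs1
        linarith
      rw [e2, Real.log_mul (by positivity) e3.ne']
      have := Real.log_le_sub_one_of_pos e3
      linarith
    -- the second term
    have c2 : ((Rest A v).card : ℝ) ≤ s * (1 - 1 / κ) := by
      have e1 : s = 1 + (Ngb A v).card + (Rest A v).card := by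
        rw [hsdef]
        exact_mod_cast hdec
      have e2 : s / κ ≤ (Ngb A v).card + 1 := by
        rw [div_le_iff₀ hκ0]
        linarith
      have e3 : s * (1 - 1 / κ) = s - s / κ := by ring
      rw [e3]
      linarith
    have l2 : Real.log (max 1 ((Rest A v).card / y)) ≤ ℓ - 1 / κ := by
      have e1 : 1 / κ ≤ 1 / 2 := one_div_le_one_div_of_le (by norm_num) hκ
      have e2 : (0 : ℝ) < 1 - 1 / κ := by linarith
      have e3 : max 1 ((Rest A v).card / y) ≤ s / y * (1 - 1 / κ) := by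
        apply max_le
        · nlinarith
        · calc ((Rest A v).card : ℝ) / y ≤ s * (1 - 1 / κ) / y :=
                div_le_div_of_nonneg_right c2 hy0.le
            _ = s / y * (1 - 1 / κ) := by ring
      have e4 : Real.log (max 1 ((Rest A v).card / y)) ≤ Real.log (s / y * (1 - 1 / κ)) :=
        Real.log_le_log (lt_of_lt_of_le one_pos (le_max_left _ _)) e3
      rw [Real.log_mul (by positivity) e2.ne'] at e4
      have := Real.log_le_sub_one_of_pos e2
      linarith
    -- the two exponential factors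
    have hsV : s ≤ κ * (n : ℝ) ^ 2 / 2 := by
      refine le_trans ?_ hV
      rw [hsdef]
      exact_mod_cast card_le_card hAV
    set w : ℝ := 2 / (n : ℝ) ^ 2 with hw
    have hn2 : (4 : ℝ) ≤ (n : ℝ) ^ 2 := by nlinarith
    have hw0 : 0 < w := by positivity
    have hw1 : w ≤ 1 := by
      rw [hw, div_le_one (by positivity)]
      linarith
    have f1 : Real.exp (-(β * κ / s)) ≤ 1 - w / 2 := by
      have e1 : w ≤ β * κ / s := by
        rw [hw, div_le_div_iff₀ (by positivity) hs0]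
        nlinarith
      have e2 : Real.exp (-(β * κ / s)) ≤ Real.exp (-w) := Real.exp_le_exp.2 (by linarith)
      have e3 : Real.exp (-w) ≤ 1 / (1 + w) := by
        rw [Real.exp_neg, ← one_div]
        apply one_div_le_one_div_of_le (by linarith)
        have := Real.add_one_le_exp w
        linarith
      have e4 : 1 / (1 + w) ≤ 1 - w / 2 := by
        rw [div_le_iff₀ (by linarith)]
        nlinarith
      linarith
    have f2 : ξ * Real.exp (-β) ≤ w / 2 := by
      rw [Real.exp_neg, ← div_eq_mul_inv, div_le_iff₀ (Real.exp_pos β), hw]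
      have e1 : 2 / (n : ℝ) ^ 2 / 2 * Real.exp β = Real.exp β / (n : ℝ) ^ 2 := by
        field_simp
      rw [e1, le_div_iff₀ (by positivity)]
      exact hξβ
    -- conclusion
    have g1 : Real.exp (2 * u * y + β * κ * Real.log (max 1 ((A.erase v).card / y))) ≤
        Real.exp (2 * u * y + β * κ * ℓ) * Real.exp (-(β * κ / s)) := by
      rw [← Real.exp_add]
      refine Real.exp_le_exp.2 ?_
      have := mul_le_mul_of_nonneg_left l1 hβκ
      have e : β * κ * (ℓ - 1 / s) = β * κ * ℓ - β * κ / s := by ring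
      linarith
    have g2 : Real.exp (2 * u * y + β * κ * Real.log (max 1 ((Rest A v).card / y))) ≤
        Real.exp (2 * u * y + β * κ * ℓ) * Real.exp (-β) := by
      rw [← Real.exp_add]
      refine Real.exp_le_exp.2 ?_
      have := mul_le_mul_of_nonneg_left l2 hβκ
      have e : β * κ * (ℓ - 1 / κ) = β * κ * ℓ - β := by
        field_simp
      linarith
    rw [hmax]
    refine hst.mono ?_ ?_
    · set E := Real.exp (2 * u * y + β * κ * ℓ) with hE
      have hE0 : 0 < E := Real.exp_pos _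
      calc Real.exp (2 * u * y + β * κ * Real.log (max 1 ((A.erase v).card / y))) +
            ((Ψ v).card : ℝ) *
              Real.exp (2 * u * y + β * κ * Real.log (max 1 ((Rest A v).card / y)))
          ≤ E * Real.exp (-(β * κ / s)) + ξ * (E * Real.exp (-β)) :=
            add_le_add g1 (mul_le_mul (hξ v (hAV hv)) g2 (Real.exp_pos _).le hξ0)
        _ = E * (Real.exp (-(β * κ / s)) + ξ * Real.exp (-β)) := by ring
        _ ≤ E * 1 := by
            apply mul_le_mul_of_nonneg_left _ hE0.le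
            linarith
        _ = E := mul_one _
    · apply max_le
      · have h1 : κ * Real.log (max 1 ((A.erase v).card / y)) ≤ κ * ℓ := by
          apply mul_le_mul_of_nonneg_left _ hκ0.le
          have : 0 < 1 / s := by positivity
          linarith
        linarith
      · have h1 := mul_le_mul_of_nonneg_left l2 hκ0.le
        have e : κ * (ℓ - 1 / κ) = κ * ℓ - 1 := by
          field_simp
        linarith

/-- Families of `k`-sets. -/
theorem cont_level (k : ℕ) (V W : Finset (Finset (Fin n))) (hVk : ∀ v ∈ V, v.card = k)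
    (hWk : ∀ T ∈ W, T.card + 1 = k) (hW : ∀ v ∈ V, ∀ x ∈ v, v.erase x ∈ W) (hk : 1 ≤ k)
    (hkn : k ≤ n) (hn : 2 ≤ n)
    (Ψ : Finset (Fin n) → Finset (Finset (Finset (Fin n))))
    (hΨ : ∀ S ∈ 𝒳, ∀ v ∈ V, v ∈ S → ∃ ψ ∈ Ψ v, ∀ u ∈ V, Adj v u → (u ∈ S ↔ u ∈ ψ))
    (ξ u β U : ℝ) (hξ : ∀ v ∈ V, ((Ψ v).card : ℝ) ≤ ξ) (hξ0 : 0 ≤ ξ) (hδ : 1 ≤ δ)
    (hu0 : 0 ≤ u) (hu : Real.exp (-u) + ξ * Real.exp (-(u * δ)) ≤ 1)
    (hU : (W.card : ℝ) ≤ U) (hU' : (V.card : ℝ) ≤ U) (hU2 : (k : ℝ) ^ 2 ≤ U)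
    (hβ : 1 ≤ β) (hξβ : ξ * (n : ℝ) ^ 2 ≤ Real.exp β) :
    HasC 𝒳 δ V (Real.exp (2 * u * (U / k) + β * (2 * U / k ^ 2) * Real.log n))
      (2 * (U / k) / δ + (2 * U / k ^ 2) * Real.log n) := by
  have hk0 : (1 : ℝ) ≤ k := by exact_mod_cast hk
  have hk1 : (0 : ℝ) < k := by linarith
  have hU0 : 0 < U := by nlinarith
  have hkn' : (k : ℝ) ≤ n := by exact_mod_cast hkn
  have hn' : (2 : ℝ) ≤ n := by exact_mod_cast hn
  set κ := 2 * U / (k : ℝ) ^ 2 with hκ
  have hκ2 : 2 ≤ κ := by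
    rw [hκ, le_div_iff₀ (by positivity)]
    linarith
  have hy : 1 ≤ U / k := by
    rw [le_div_iff₀ hk1]
    nlinarith
  have hVn : (V.card : ℝ) ≤ κ * (n : ℝ) ^ 2 / 2 := by
    have e1 : κ * (n : ℝ) ^ 2 / 2 = U * ((n : ℝ) ^ 2 / (k : ℝ) ^ 2) := by
      rw [hκ]
      field_simp
    rw [e1]
    have e2 : 1 ≤ (n : ℝ) ^ 2 / (k : ℝ) ^ 2 := by
      rw [le_div_iff₀ (by positivity), one_mul]
      exact pow_le_pow_left₀ hk1.le hkn' 2
    nlinarith
  have hmain := big_stage (𝒳 := 𝒳) (δ := δ) V Ψ hΨ ξ u κ (U / k) β hξ hξ0 hδ hu0 hu hκ2 hy hβ hn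
    hVn hξβ (by
      intro A hAV hA
      have hne : A.Nonempty := by
        rw [← card_pos]
        by_contra h
        have h2 : A.card = 0 := by omega
        rw [h2] at hA
        push_cast at hA
        linarith
      obtain ⟨v, hv, hvd⟩ := exists_deg k W A (fun v hv => hVk v (hAV hv)) hWk
        (fun v hv => hW v (hAV hv)) hne
      refine ⟨v, hv, ?_⟩
      have e1 : (k : ℝ) ^ 2 * A.card ≤ W.card * (k + (Ngb A v).card) := by exact_mod_cast hvd
      have e2 : (W.card : ℝ) * (k + (Ngb A v).card) ≤ U * (k + (Ngb A v).card) :=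
        mul_le_mul_of_nonneg_right hU (by positivity)
      have e3 : 2 * (U * k) < (k : ℝ) ^ 2 * A.card := by
        have h3 : 2 * (U / k) * (k : ℝ) ^ 2 < A.card * (k : ℝ) ^ 2 :=
          mul_lt_mul_of_pos_right hA (by positivity)
        have h4 : 2 * (U / k) * (k : ℝ) ^ 2 = 2 * (U * k) := by
          field_simp
        linarith
      rw [hκ, div_mul_eq_mul_div, le_div_iff₀ (by positivity)]
      nlinarith) V.card V Subset.rfl le_rfl
  have e5 : Real.log (max 1 (V.card / (U / k))) ≤ Real.log n := by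
    apply Real.log_le_log (lt_of_lt_of_le one_pos (le_max_left _ _))
    apply max_le (by linarith)
    rw [div_le_iff₀ (by positivity)]
    calc (V.card : ℝ) ≤ U := hU'
      _ = k * (U / k) := by field_simp
      _ ≤ n * (U / k) := mul_le_mul_of_nonneg_right hkn' (by positivity)
  refine hmain.mono (Real.exp_le_exp.2 ?_) ?_
  · have e6 : 0 ≤ β * κ := by positivity
    have := mul_le_mul_of_nonneg_left e5 e6
    linarith
  · have e6 : 0 ≤ κ := by linarith
    have := mul_le_mul_of_nonneg_left e5 e6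
    linarith

end Pool.Agent.Matroid6d
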