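import Pool.Agent.Matroid6d.G.Local2
import Pool.Agent.Matroid6d.KW

/-!
A description of the non-bases of a matroid: short circuits and cocircuits, the non-bases outside a
container, and a stable family of non-bases inside the container.
-/

set_option autoImplicit false

namespace Pool.Agent.Matroid6d

open Finset

variable {n : ℕ} {P P' : Finset (Fin n) → Prop} {X X' Y Z : Finset (Fin n)} {x y : Fin n}
  {r q : ℕ} {Sc Sd A Kn : Finset (Finset (Fin n))}

/-- A member of the container that must be a non-basis, since otherwise one of its fundamental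
cocircuits would be short and unknown. -/
def Inf (Sd A Kn : Finset (Finset (Fin n))) (X : Finset (Fin n)) : Prop :=
  ∃ x ∈ X, (∀ y, y ∉ X → insert y (X.erase x) ∉ A → insert y (X.erase x) ∈ Kn) ∧
    ∀ D ∈ Sd, X ∩ D ≠ {x}

/-- Exchange along a short cocircuit. -/
def RelD (Sd : Finset (Finset (Fin n))) (X X' : Finset (Fin n)) : Prop :=
  ∃ x ∈ X, ∃ y, y ∉ X ∧ X' = insert y (X.erase x) ∧ ∃ D ∈ Sd, X ∩ D = {x} ∧ y ∈ D

/-- Exchange along a short circuit or cocircuit. -/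
def RelG (Sc Sd : Finset (Finset (Fin n))) (X X' : Finset (Fin n)) : Prop :=
  RelD Sd X X' ∨ RelD Sc Xᶜ X'ᶜ

/-- The data known about the matroid. -/
structure Dec (n r q : ℕ) (P : Finset (Fin n) → Prop) (Sc Sd A Kn : Finset (Finset (Fin n))) :
    Prop where
  hP : Exch P
  hr : ∀ X, P X → X.card = r
  hne : ∃ B, P B
  hSc : ∀ C, C ∈ Sc ↔ Cir P r C ∧ C.card ≤ q
  hSd : ∀ D, D ∈ Sd ↔ CoC P r D ∧ D.card ≤ q
  hAr : ∀ X ∈ A, X.card = r
  hAc : ∀ X ∈ A, ∀ C ∈ Sc, ¬ C ⊆ X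
  hAd : ∀ X ∈ A, ∀ D ∈ Sd, ¬ Disjoint X D
  hdeg : ∀ X ∈ A, (Ngb A X).card < q
  hKn : ∀ X : Finset (Fin n), X.card = r → X ∉ A → (¬ P X ↔ X ∈ Kn)
  hKr : ∀ X ∈ Kn, X.card = r
  hqr : q < r
  hqn : q + r < n

lemma adj_compl : Adj Xᶜ Yᶜ ↔ Adj X Y := by
  have hX := card_le_n X
  have hY := card_le_n Y
  have e1 : Xᶜ \ Yᶜ = Y \ X := by
    ext w
    simp only [mem_sdiff, mem_compl, not_not]
    tauto
  unfold Adj
  rw [card_compl', card_compl', e1]
  constructor
  · rintro ⟨h1, h2⟩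
    have h3 : X.card = Y.card := by omega
    exact ⟨h3, by rw [card_sdiff_comm' h3]; exact h2⟩
  · rintro ⟨h1, h2⟩
    exact ⟨by omega, by rw [← card_sdiff_comm' h1]; exact h2⟩

lemma card_Ngb_Kc (A : Finset (Finset (Fin n))) (X : Finset (Fin n)) :
    (Ngb (Kc A) X).card = (Ngb A Xᶜ).card := by
  have h : Ngb (Kc A) X = Kc (Ngb A Xᶜ) := by
    ext Y
    rw [mem_Ngb, mem_Kc, mem_Kc, mem_Ngb, adj_compl]
  rw [h, card_Kc]

lemma Dec.dual (h : Dec n r q P Sc Sd A Kn) : Dec n (n - r) q (Pd P) Sd Sc (Kc A) (Kc Kn) := by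
  have hqn := h.hqn
  have hqr := h.hqr
  have hrn : r ≤ n := by omega
  refine ⟨exch_Pd h.hP h.hne, rank_Pd h.hr, ne_Pd h.hne, ?_, ?_, ?_, ?_, ?_, ?_, ?_, ?_, ?_, ?_⟩
  · intro C
    rw [h.hSd, cir_Pd hrn]
  · intro C
    rw [h.hSc, coC_Pd hrn]
  · intro X hX
    have := h.hAr _ (mem_Kc.1 hX)
    rw [card_compl'] at this
    have := card_le_n X
    omega
  · intro X hX D hD hsub
    refine h.hAd _ (mem_Kc.1 hX) D hD ?_
    rw [disjoint_left]
    intro w hw hwD
    exact (mem_compl.1 hw) (hsub hwD)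
  · intro X hX C hC hdis
    refine h.hAc _ (mem_Kc.1 hX) C hC ?_
    intro w hw
    rw [mem_compl]
    exact fun h' => disjoint_left.1 hdis h' hw
  · intro X hX
    rw [card_Ngb_Kc]
    exact h.hdeg _ (mem_Kc.1 hX)
  · intro X hX hXA
    rw [mem_Kc] at hXA ⊢
    have := card_le_n X
    exact h.hKn Xᶜ (by rw [card_compl', hX]; omega) hXA
  · intro X hX
    have := h.hKr _ (mem_Kc.1 hX)
    rw [card_compl'] at this
    have := card_le_n X
    omega
  · omega
  · omega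

/-- Soundness of the inference. -/
lemma inf_sound (h : Dec n r q P Sc Sd A Kn) (hX : X ∈ A) (hI : Inf Sd A Kn X) : ¬ P X := by
  classical
  intro hPX
  obtain ⟨x, hx, h1, h2⟩ := hI
  have hXr := h.hr X hPX
  have hqn := h.hqn
  have hcard : (fcc P X x).card ≤ q := by
    have h3 : (univ.filter (fun y => y ∉ X ∧ P (insert y (X.erase x)))).card ≤
        (Ngb A X).card := by
      apply card_le_card_of_injOn (fun y => insert y (X.erase x))
      · intro y hy
        rw [mem_coe, mem_filter] at hy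
        obtain ⟨_, hyX, hPy⟩ := hy
        rw [mem_coe, mem_Ngb]
        have hc := card_swap hx hyX
        have hyA : insert y (X.erase x) ∈ A := by
          by_contra hn
          exact ((h.hKn _ (by rw [hc, hXr]) hn).2 (h1 y hyX hn)) hPy
        refine ⟨hyA, hc.symm, ?_⟩
        rw [card_eq_one]
        refine ⟨x, ?_⟩
        ext w
        rw [mem_sdiff, mem_insert, mem_erase, mem_singleton]
        constructor
        · rintro ⟨g1, g2⟩
          by_contra hwx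
          exact g2 (Or.inr ⟨hwx, g1⟩)
        · rintro rfl
          refine ⟨hx, ?_⟩
          rintro (g | g)
          · exact hyX (g ▸ hx)
          · exact g.1 rfl
      · intro y hy y' hy' heq
        rw [mem_coe, mem_filter] at hy hy'
        have : y ∈ insert y' (X.erase x) := by
          have heq' : insert y (X.erase x) = insert y' (X.erase x) := heq
          rw [← heq']
          exact mem_insert_self _ _
        rw [mem_insert] at this
        rcases this with g | g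
        · exact g
        · exact absurd (mem_of_mem_erase g) hy.2.1
    have h4 := h.hdeg X hX
    have h5 : (fcc P X x).card ≤ (univ.filter (fun y => y ∉ X ∧
        P (insert y (X.erase x)))).card + 1 := by
      unfold fcc
      refine (card_insert_le _ _).trans (le_of_eq ?_)
      congr!
    omega
  obtain ⟨z, hz, hzD⟩ := exists_notMem_union (X := X) (D := fcc P X x) (by omega)
  have h3 := coC_fcc h.hP h.hr hPX hx hz hzD
  exact h2 _ ((h.hSd _).2 ⟨h3, hcard⟩) (fcc_inter hx)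

lemma inf_sound' (h : Dec n r q P Sc Sd A Kn) (hX : X ∈ A)
    (hI : Inf Sc (Kc A) (Kc Kn) Xᶜ) : ¬ P X := by
  have := inf_sound h.dual (X := Xᶜ) (mem_Kc.2 (by rwa [compl_compl])) hI
  unfold Pd at this
  rwa [compl_compl] at this

lemma relD_status (hP : Exch P) (hSd : ∀ D ∈ Sd, CoC P r D) (h : RelD Sd X X') :
    P X ↔ P X' := by
  obtain ⟨x, hx, y, hy, rfl, D, hD, hXD, hyD⟩ := h
  have hxy : x ≠ y := fun h => hy (h ▸ hx)
  have hxD : x ∈ D := by
    have : x ∈ X ∩ D := by rw [hXD]; exact mem_singleton_self _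
    exact (mem_inter.1 this).2
  constructor
  · intro hPX
    exact fund_coC hP (hSd D hD) hPX hXD hyD (Ne.symm hxy)
  · intro hPX
    have h1 := fund_coC hP (hSd D hD) hPX (y := y) (x := x) (by
      ext w
      rw [mem_inter, mem_insert, mem_erase, mem_singleton]
      constructor
      · rintro ⟨g | g, g'⟩
        · exact g
        · have : w ∈ X ∩ D := mem_inter.2 ⟨g.2, g'⟩
          rw [hXD, mem_singleton] at this
          exact absurd this g.1
      · rintro rfl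
        exact ⟨Or.inl rfl, hyD⟩) hxD hxy
    rwa [swap_back hx hy] at h1

lemma relD_card (h : RelD Sd X X') : X.card = X'.card := by
  obtain ⟨x, hx, y, hy, rfl, _⟩ := h
  rw [card_swap hx hy]

lemma relG_card (h : RelG Sc Sd X X') : X.card = X'.card := by
  rcases h with h | h
  · exact relD_card h
  · have := relD_card h
    rw [card_compl', card_compl'] at this
    have := card_le_n X
    have := card_le_n X'
    omega

lemma relG_status (h : Dec n r q P Sc Sd A Kn) (hR : RelG Sc Sd X X') : P X ↔ P X' := by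
  rcases hR with hR | hR
  · exact relD_status h.hP (fun D hD => ((h.hSd D).1 hD).1) hR
  · have := relD_status h.dual.hP (fun D hD => ((h.dual.hSd D).1 hD).1) hR
    unfold Pd at this
    rwa [compl_compl, compl_compl] at this

lemma eqv_status (h : Dec n r q P Sc Sd A Kn) (hR : Relation.EqvGen (RelG Sc Sd) X X') :
    P X ↔ P X' := by
  induction hR with
  | rel _ _ h' => exact relG_status h h'
  | refl _ => exact Iff.rfl
  | symm _ _ _ ih => exact ih.symm
  | trans _ _ _ _ _ ih1 ih2 => exact ih1.trans ih2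

lemma eqv_card (hR : Relation.EqvGen (RelG Sc Sd) X X') : X.card = X'.card := by
  induction hR with
  | rel _ _ h' => exact relG_card h'
  | refl _ => rfl
  | symm _ _ _ ih => exact ih.symm
  | trans _ _ _ _ _ ih1 ih2 => exact ih1.trans ih2

/-- The status of `X` cannot be inferred. -/
def Unk (Sc Sd A Kn : Finset (Finset (Fin n))) (X : Finset (Fin n)) : Prop :=
  ∀ Y, Relation.EqvGen (RelG Sc Sd) X Y →
    Y ∈ A ∧ ¬ Inf Sd A Kn Y ∧ ¬ Inf Sc (Kc A) (Kc Kn) Yᶜ

/-- A numbering of the finite sets. -/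
noncomputable def num (X : Finset (Fin n)) : ℕ := (Fintype.equivFin (Finset (Fin n)) X : ℕ)

lemma num_inj (h : num X = num Y) : X = Y := by
  unfold num at h
  exact (Fintype.equivFin (Finset (Fin n))).injective (Fin.ext h)

/-- `X` comes first in its class. -/
def Fst (Sc Sd : Finset (Finset (Fin n))) (X : Finset (Fin n)) : Prop :=
  ∀ Z, Relation.EqvGen (RelG Sc Sd) X Z → num X ≤ num Z

open Classical in
/-- The stable family. -/
noncomputable def Vst (P : Finset (Fin n) → Prop) (Sc Sd A Kn : Finset (Finset (Fin n))) :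
    Finset (Finset (Fin n)) :=
  A.filter (fun X => ¬ P X ∧ Unk Sc Sd A Kn X ∧ Fst Sc Sd X)

lemma mem_Vst : X ∈ Vst P Sc Sd A Kn ↔ X ∈ A ∧ ¬ P X ∧ Unk Sc Sd A Kn X ∧ Fst Sc Sd X := by
  classical
  simp only [Vst, mem_filter]

lemma fst_unique (h1 : Fst Sc Sd X) (h2 : Fst Sc Sd Y)
    (h : Relation.EqvGen (RelG Sc Sd) X Y) : X = Y :=
  num_inj (le_antisymm (h1 Y h) (h2 X (Relation.EqvGen.symm _ _ h)))

lemma adj_relD (h : Dec n r q P Sc Sd A Kn) (hX : X ∈ A) (hI : ¬ Inf Sd A Kn X) (hx : x ∈ X)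
    (hy : y ∉ X) (hX' : insert y (X.erase x) ∈ A) (hC : x ∉ Cs P X) :
    RelD Sd X (insert y (X.erase x)) := by
  unfold Inf at hI
  push Not at hI
  obtain ⟨D, hD, hXD⟩ := hI x hx (by
    intro z hz hzA
    rw [← h.hKn _ (by rw [card_swap hx hz, h.hAr X hX]) hzA]
    exact fun hP => hC (mem_Cs.2 ⟨hx, z, hz, hP⟩))
  refine ⟨x, hx, y, hy, rfl, D, hD, hXD, ?_⟩
  by_contra hyD
  refine h.hAd _ hX' D hD ?_
  rw [disjoint_left]
  intro w hw hwD
  rw [mem_insert, mem_erase] at hw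
  rcases hw with g | g
  · exact hyD (g ▸ hwD)
  · have : w ∈ X ∩ D := mem_inter.2 ⟨g.2, hwD⟩
    rw [hXD, mem_singleton] at this
    exact g.1 this

lemma adj_rel (h : Dec n r q P Sc Sd A Kn) (hX : X ∈ A) (hnP : ¬ P X) (hI : ¬ Inf Sd A Kn X)
    (hI' : ¬ Inf Sc (Kc A) (Kc Kn) Xᶜ) (hx : x ∈ X) (hy : y ∉ X)
    (hX' : insert y (X.erase x) ∈ A) (hnP' : ¬ P (insert y (X.erase x))) :
    RelG Sc Sd X (insert y (X.erase x)) := by
  rcases (nb_swap_iff h.hP hnP hx hy).1 hnP' with hC | hC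
  · exact Or.inl (adj_relD h hX hI hx hy hX' hC)
  · right
    have h1 := adj_relD h.dual (X := Xᶜ) (x := y) (y := x) (mem_Kc.2 (by rwa [compl_compl])) hI'
      (mem_compl.2 hy) (by rw [mem_compl, not_not]; exact hx)
      (by rw [← compl_swap hx hy, mem_Kc, compl_compl]; exact hX')
      (by rw [Cs_Pd]; exact hC)
    rwa [← compl_swap hx hy] at h1

/-- The family is stable. -/
theorem stable_Vst (h : Dec n r q P Sc Sd A Kn) : Stable (Vst P Sc Sd A Kn) := by
  intro X hX Y hY hne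
  by_contra hlt
  push Not at hlt
  obtain ⟨a1, a2, a3, a4⟩ := mem_Vst.1 hX
  obtain ⟨b1, b2, b3, b4⟩ := mem_Vst.1 hY
  obtain ⟨x, hx, y, hy, rfl⟩ := exists_swap (by rw [h.hAr X a1, h.hAr Y b1]) hne hlt
  obtain ⟨_, c2, c3⟩ := a3 X (Relation.EqvGen.refl _)
  exact hne (fst_unique a4 b4
    (Relation.EqvGen.rel _ _ (adj_rel h a1 a2 c2 c3 hx hy b1 b2)))

lemma exists_fst (Sc Sd : Finset (Finset (Fin n))) (X : Finset (Fin n)) :
    ∃ Z, Relation.EqvGen (RelG Sc Sd) X Z ∧ Fst Sc Sd Z := by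
  classical
  obtain ⟨Z, hZ, hmin⟩ := exists_min_image
    (univ.filter (fun Z => Relation.EqvGen (RelG Sc Sd) X Z)) (fun Z => num Z)
    ⟨X, mem_filter.2 ⟨mem_univ _, Relation.EqvGen.refl _⟩⟩
  rw [mem_filter] at hZ
  refine ⟨Z, hZ.2, fun T hT => hmin T (mem_filter.2 ⟨mem_univ _, ?_⟩)⟩
  exact Relation.EqvGen.trans _ _ _ hZ.2 hT

lemma unk_trans (h : Unk Sc Sd A Kn X) (hR : Relation.EqvGen (RelG Sc Sd) X Y) :
    Unk Sc Sd A Kn Y :=
  fun Z hZ => h Z (Relation.EqvGen.trans _ _ _ hR hZ)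

lemma decode_half (h : Dec n r q P Sc Sd A Kn) (h' : Dec n r q P' Sc Sd A Kn)
    (hV : Vst P Sc Sd A Kn ⊆ Vst P' Sc Sd A Kn) (hnP : ¬ P X) : ¬ P' X := by
  by_cases hXr : X.card = r
  · by_cases hXA : X ∈ A
    · by_cases hU : Unk Sc Sd A Kn X
      · obtain ⟨Z, hZ, hF⟩ := exists_fst Sc Sd X
        have h1 : Z ∈ Vst P Sc Sd A Kn := mem_Vst.2 ⟨(hU Z hZ).1,
          fun hPZ => hnP ((eqv_status h hZ).2 hPZ), unk_trans hU hZ, hF⟩
        have h2 := (mem_Vst.1 (hV h1)).2.1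
        exact fun hPX => h2 ((eqv_status h' hZ).1 hPX)
      · unfold Unk at hU
        push Not at hU
        obtain ⟨Y, hY, hY'⟩ := hU
        by_cases hYA : Y ∈ A
        · by_cases hI : Inf Sd A Kn Y
          · exact fun hPX => inf_sound h' hYA hI ((eqv_status h' hY).1 hPX)
          · exact fun hPX => inf_sound' h' hYA (hY' hYA hI) ((eqv_status h' hY).1 hPX)
        · have hYr : Y.card = r := by rw [← eqv_card hY, hXr]
          have h1 : ¬ P Y := fun hPY => hnP ((eqv_status h hY).2 hPY)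
          have h2 := (h'.hKn Y hYr hYA).2 ((h.hKn Y hYr hYA).1 h1)
          exact fun hPX => h2 ((eqv_status h' hY).1 hPX)
    · exact (h'.hKn X hXr hXA).2 ((h.hKn X hXr hXA).1 hnP)
  · exact fun hPX => hXr (h'.hr X hPX)

/-- The description determines the matroid. -/
theorem decode_eq (h : Dec n r q P Sc Sd A Kn) (h' : Dec n r q P' Sc Sd A Kn)
    (hV : Vst P Sc Sd A Kn = Vst P' Sc Sd A Kn) (X : Finset (Fin n)) : P X ↔ P' X := by
  constructor
  · intro hPX
    by_contra hn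
    exact decode_half h' h hV.ge hn hPX
  · intro hPX
    by_contra hn
    exact decode_half h h' hV.le hn hPX

/-! ### The part of the stable family next to a hyperplane -/

variable {D₀ : Finset (Fin n)}

/-- Exchanging along the cocircuit `D₀`. -/
lemma rel_of_inter (hD₀ : D₀ ∈ Sd) {C : Finset (Fin n)} (hC : Disjoint C D₀) (hx : x ∈ D₀)
    (hy : y ∈ D₀) : Relation.EqvGen (RelG Sc Sd) (insert x C) (insert y C) := by
  by_cases hxy : x = y
  · rw [hxy]
    exact Relation.EqvGen.refl _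
  have hxC : x ∉ C := fun h => disjoint_left.1 hC h hx
  have hyC : y ∉ C := fun h => disjoint_left.1 hC h hy
  apply Relation.EqvGen.rel
  left
  refine ⟨x, mem_insert_self _ _, y, ?_, ?_, D₀, hD₀, ?_, hy⟩
  · rw [mem_insert]
    rintro (h | h)
    · exact hxy h.symm
    · exact hyC h
  · rw [erase_insert hxC]
  · ext w
    rw [mem_inter, mem_insert, mem_singleton]
    constructor
    · rintro ⟨g | g, g'⟩
      · exact g
      · exact absurd g' (fun h => disjoint_left.1 hC g h)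
    · rintro rfl
      exact ⟨Or.inl rfl, hx⟩

lemma eq_insert_of_inter (h : X ∩ D₀ = {x}) : X = insert x (X \ D₀) := by
  ext w
  rw [mem_insert, mem_sdiff]
  constructor
  · intro hw
    by_cases hwD : w ∈ D₀
    · left
      have : w ∈ X ∩ D₀ := mem_inter.2 ⟨hw, hwD⟩
      rwa [h, mem_singleton] at this
    · exact Or.inr ⟨hw, hwD⟩
  · rintro (rfl | g)
    · have : w ∈ X ∩ D₀ := by rw [h]; exact mem_singleton_self _
      exact (mem_inter.1 this).1
    · exact g.1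

open Classical in
/-- The members of the stable family that meet `D₀` in one element. -/
noncomputable def V0 (P : Finset (Fin n) → Prop) (Sc Sd A Kn : Finset (Finset (Fin n)))
    (D₀ : Finset (Fin n)) : Finset (Finset (Fin n)) :=
  (Vst P Sc Sd A Kn).filter (fun X => (X ∩ D₀).card = 1)

open Classical in
/-- The other members of the stable family. -/
noncomputable def V1 (P : Finset (Fin n) → Prop) (Sc Sd A Kn : Finset (Finset (Fin n)))
    (D₀ : Finset (Fin n)) : Finset (Finset (Fin n)) :=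
  (Vst P Sc Sd A Kn).filter (fun X => ¬ (X ∩ D₀).card = 1)

open Classical in
/-- The traces of the members of `V0`. -/
noncomputable def W0 (P : Finset (Fin n) → Prop) (Sc Sd A Kn : Finset (Finset (Fin n)))
    (D₀ : Finset (Fin n)) : Finset (Finset (Fin n)) :=
  (V0 P Sc Sd A Kn D₀).image (fun X => X \ D₀)

lemma mem_V0 : X ∈ V0 P Sc Sd A Kn D₀ ↔ X ∈ Vst P Sc Sd A Kn ∧ (X ∩ D₀).card = 1 := by
  classical
  simp only [V0, mem_filter]

lemma mem_V1 : X ∈ V1 P Sc Sd A Kn D₀ ↔ X ∈ Vst P Sc Sd A Kn ∧ ¬ (X ∩ D₀).card = 1 := by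
  classical
  simp only [V1, mem_filter]

lemma mem_W0 : X ∈ W0 P Sc Sd A Kn D₀ ↔ ∃ Y ∈ V0 P Sc Sd A Kn D₀, Y \ D₀ = X := by
  classical
  simp only [W0, mem_image]

/-- The traces are stable. -/
theorem stable_W0 (h : Dec n r q P Sc Sd A Kn) (hD₀ : D₀ ∈ Sd) :
    Stable (W0 P Sc Sd A Kn D₀) := by
  intro C₁ hC₁ C₂ hC₂ hne
  by_contra hlt
  push Not at hlt
  obtain ⟨X₁, hX₁, rfl⟩ := mem_W0.1 hC₁
  obtain ⟨X₂, hX₂, rfl⟩ := mem_W0.1 hC₂
  obtain ⟨hV₁, c₁⟩ := mem_V0.1 hX₁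
  obtain ⟨hV₂, c₂⟩ := mem_V0.1 hX₂
  obtain ⟨x₁, i₁⟩ := card_eq_one.1 c₁
  obtain ⟨x₂, i₂⟩ := card_eq_one.1 c₂
  obtain ⟨a1, a2, a3, a4⟩ := mem_Vst.1 hV₁
  obtain ⟨b1, b2, b3, b4⟩ := mem_Vst.1 hV₂
  have e₁ := eq_insert_of_inter i₁
  have e₂ := eq_insert_of_inter i₂
  have m₁ : x₁ ∈ X₁ ∧ x₁ ∈ D₀ := mem_inter.1 (by rw [i₁]; exact mem_singleton_self _)
  have m₂ : x₂ ∈ X₂ ∧ x₂ ∈ D₀ := mem_inter.1 (by rw [i₂]; exact mem_singleton_self _)
  have d₁ : Disjoint (X₁ \ D₀) D₀ := sdiff_disjoint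
  have d₂ : Disjoint (X₂ \ D₀) D₀ := sdiff_disjoint
  have n₁ : x₁ ∉ X₁ \ D₀ := fun h => (mem_sdiff.1 h).2 m₁.2
  have n₁' : x₁ ∉ X₂ \ D₀ := fun h => (mem_sdiff.1 h).2 m₁.2
  have n₂ : x₂ ∉ X₂ \ D₀ := fun h => (mem_sdiff.1 h).2 m₂.2
  have hcc : (X₁ \ D₀).card = (X₂ \ D₀).card := by
    have h1 := h.hAr X₁ a1
    have h2 := h.hAr X₂ b1
    rw [e₁, card_insert_of_notMem n₁] at h1
    rw [e₂, card_insert_of_notMem n₂] at h2
    omega
  obtain ⟨c, hc, c', hc', hswap⟩ := exists_swap hcc hne hlt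
  -- the third set
  have hR : Relation.EqvGen (RelG Sc Sd) X₂ (insert x₁ (X₂ \ D₀)) := by
    have := rel_of_inter (Sc := Sc) hD₀ d₂ m₂.2 m₁.2
    rwa [← e₂] at this
  obtain ⟨u1, _, _⟩ := b3 _ hR
  have hnP3 : ¬ P (insert x₁ (X₂ \ D₀)) := fun hp => b2 ((eqv_status h hR).2 hp)
  have hcx : c ≠ x₁ := fun h' => n₁ (h' ▸ hc)
  have hc'D : c' ∉ D₀ := by
    have : c' ∈ X₂ \ D₀ := by rw [hswap]; exact mem_insert_self _ _
    exact (mem_sdiff.1 this).2
  have hc'x : c' ≠ x₁ := fun h' => hc'D (h' ▸ m₁.2)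
  have hc'X : c' ∉ X₁ := fun h' => hc' (mem_sdiff.2 ⟨h', hc'D⟩)
  have e3 : insert x₁ (X₂ \ D₀) = insert c' (X₁.erase c) := by
    rw [hswap]
    conv_rhs => rw [e₁]
    ext w
    simp only [mem_insert, mem_erase]
    constructor
    · rintro (g | g | g)
      · exact Or.inr ⟨fun h' => hcx (h'.symm.trans g), Or.inl g⟩
      · exact Or.inl g
      · exact Or.inr ⟨g.1, Or.inr g.2⟩
    · rintro (g | ⟨g1, g2 | g2⟩)
      · exact Or.inr (Or.inl g)
      · exact Or.inl g2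
      · exact Or.inr (Or.inr ⟨g1, g2⟩)
  rw [e3] at u1 hnP3 hR
  obtain ⟨_, v2, v3⟩ := a3 X₁ (Relation.EqvGen.refl _)
  have hR2 : RelG Sc Sd X₁ (insert c' (X₁.erase c)) :=
    adj_rel h a1 a2 v2 v3 (mem_sdiff.1 hc).1 hc'X u1 hnP3
  have h12 : X₁ = X₂ := fst_unique a4 b4
    (Relation.EqvGen.trans _ _ _ (Relation.EqvGen.rel _ _ hR2) (Relation.EqvGen.symm _ _ hR))
  exact hne (by rw [h12])

/-- The traces determine the members. -/
lemma V0_sub (hD₀ : D₀ ∈ Sd)
    (hW : W0 P Sc Sd A Kn D₀ ⊆ W0 P' Sc Sd A Kn D₀) :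
    V0 P Sc Sd A Kn D₀ ⊆ V0 P' Sc Sd A Kn D₀ := by
  intro X hX
  obtain ⟨hV, c⟩ := mem_V0.1 hX
  obtain ⟨x, i⟩ := card_eq_one.1 c
  obtain ⟨a1, a2, a3, a4⟩ := mem_Vst.1 hV
  obtain ⟨X', hX', hd⟩ := mem_W0.1 (hW (mem_W0.2 ⟨X, hX, rfl⟩))
  obtain ⟨hV', c'⟩ := mem_V0.1 hX'
  obtain ⟨x', i'⟩ := card_eq_one.1 c'
  obtain ⟨b1, b2, b3, b4⟩ := mem_Vst.1 hV'
  have e := eq_insert_of_inter i
  have e' := eq_insert_of_inter i'
  have m : x ∈ X ∧ x ∈ D₀ := mem_inter.1 (by rw [i]; exact mem_singleton_self _)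
  have m' : x' ∈ X' ∧ x' ∈ D₀ := mem_inter.1 (by rw [i']; exact mem_singleton_self _)
  have hR : Relation.EqvGen (RelG Sc Sd) X X' := by
    have := rel_of_inter (Sc := Sc) hD₀ (C := X \ D₀) sdiff_disjoint m.2 m'.2
    rw [← hd, ← e', hd, ← e] at this
    exact this
  rw [fst_unique a4 b4 hR]
  exact hX'

/-- The traces and the other members determine the stable family. -/
lemma Vst_eq (hD₀ : D₀ ∈ Sd)
    (hW : W0 P Sc Sd A Kn D₀ = W0 P' Sc Sd A Kn D₀)
    (hV : V1 P Sc Sd A Kn D₀ = V1 P' Sc Sd A Kn D₀) :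
    Vst P Sc Sd A Kn = Vst P' Sc Sd A Kn := by
  have h0 : V0 P Sc Sd A Kn D₀ = V0 P' Sc Sd A Kn D₀ :=
    Subset.antisymm (V0_sub hD₀ hW.le) (V0_sub hD₀ hW.ge)
  ext X
  by_cases hc : (X ∩ D₀).card = 1
  · have h1 : X ∈ V0 P Sc Sd A Kn D₀ ↔ X ∈ V0 P' Sc Sd A Kn D₀ := by rw [h0]
    rw [mem_V0, mem_V0] at h1
    tauto
  · have h1 : X ∈ V1 P Sc Sd A Kn D₀ ↔ X ∈ V1 P' Sc Sd A Kn D₀ := by rw [hV]
    rw [mem_V1, mem_V1] at h1
    tauto

end Pool.Agent.Matroid6d
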