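import Pool.Agent.Matroid6d.G.Decode
import Pool.Agent.Matroid6d.G.Cont

/-!
Existence of the description.
-/

set_option autoImplicit false

namespace Pool.Agent.Matroid6d

open Finset

variable {n : ℕ} {P : Finset (Fin n) → Prop} {X Y Z u : Finset (Fin n)} {x y : Fin n}
  {r q thr a₀ : ℕ} {Sc Sd Fc Fd : Finset (Finset (Fin n))}

open Classical in
/-- The short circuits. -/
noncomputable def SmC (P : Finset (Fin n) → Prop) (r q : ℕ) : Finset (Finset (Fin n)) :=
  univ.filter (fun C => Cir P r C ∧ C.card ≤ q)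

open Classical in
/-- The short cocircuits. -/
noncomputable def SmD (P : Finset (Fin n) → Prop) (r q : ℕ) : Finset (Finset (Fin n)) :=
  univ.filter (fun D => CoC P r D ∧ D.card ≤ q)

open Classical in
/-- The circuits that lie in many non-bases. -/
noncomputable def FrC (P : Finset (Fin n) → Prop) (r thr : ℕ) : Finset (Finset (Fin n)) :=
  univ.filter (fun C => C.Nonempty ∧ thr ≤ 4 * (cell P r (Sum.inl C)).card)

open Classical in
/-- The cocircuits that miss many non-bases. -/
noncomputable def FrD (P : Finset (Fin n) → Prop) (r thr : ℕ) : Finset (Finset (Fin n)) :=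
  univ.filter (fun D => D.Nonempty ∧ thr ≤ 4 * (cell P r (Sum.inr D)).card)

lemma mem_SmC {C : Finset (Fin n)} : C ∈ SmC P r q ↔ Cir P r C ∧ C.card ≤ q := by
  classical
  simp only [SmC, mem_filter, mem_univ, true_and]

lemma mem_SmD {D : Finset (Fin n)} : D ∈ SmD P r q ↔ CoC P r D ∧ D.card ≤ q := by
  classical
  simp only [SmD, mem_filter, mem_univ, true_and]

lemma mem_FrC {C : Finset (Fin n)} :
    C ∈ FrC P r thr ↔ C.Nonempty ∧ thr ≤ 4 * (cell P r (Sum.inl C)).card := by
  classical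
  simp only [FrC, mem_filter, mem_univ, true_and]

lemma mem_FrD {D : Finset (Fin n)} :
    D ∈ FrD P r thr ↔ D.Nonempty ∧ thr ≤ 4 * (cell P r (Sum.inr D)).card := by
  classical
  simp only [FrD, mem_filter, mem_univ, true_and]

lemma cir_of_FrC (hthr : 0 < thr) {C : Finset (Fin n)} (h : C ∈ FrC P r thr) : Cir P r C := by
  obtain ⟨h1, h2⟩ := mem_FrC.1 h
  obtain ⟨Y, hY⟩ : (cell P r (Sum.inl C)).Nonempty := by
    rw [← card_pos]
    omega
  obtain ⟨⟨g1, g2⟩, g3⟩ := mem_cell_inl.1 hY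
  exact ⟨Y, g1, g2, by rw [g3]; exact h1, g3⟩

lemma coC_of_FrD (hthr : 0 < thr) {D : Finset (Fin n)} (h : D ∈ FrD P r thr) : CoC P r D := by
  obtain ⟨h1, h2⟩ := mem_FrD.1 h
  obtain ⟨Y, hY⟩ : (cell P r (Sum.inr D)).Nonempty := by
    rw [← card_pos]
    omega
  obtain ⟨⟨g1, g2⟩, g3⟩ := mem_cell_inr.1 hY
  exact ⟨Y, g1, g2, Ds_nonempty_iff.1 (by rw [g3]; exact h1), g3⟩

lemma card_FrC : thr * (FrC P r thr).card ≤ 4 * n.choose r := by
  classical
  have h1 : ((FrC P r thr).biUnion (fun C => cell P r (Sum.inl C))).card ≤ n.choose r := by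
    have : (FrC P r thr).biUnion (fun C => cell P r (Sum.inl C)) ⊆ powersetCard r univ := by
      intro X hX
      rw [mem_biUnion] at hX
      obtain ⟨C, _, hC⟩ := hX
      exact mem_powersetCard.2 ⟨subset_univ _, (mem_cell_inl.1 hC).1.1⟩
    refine (card_le_card this).trans (le_of_eq ?_)
    rw [card_powersetCard, card_univ, Fintype.card_fin]
  rw [card_biUnion] at h1
  · calc thr * (FrC P r thr).card = ∑ _C ∈ FrC P r thr, thr := by
          rw [sum_const, smul_eq_mul, mul_comm]
      _ ≤ ∑ C ∈ FrC P r thr, 4 * (cell P r (Sum.inl C)).card :=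
          sum_le_sum (fun C hC => (mem_FrC.1 hC).2)
      _ = 4 * ∑ C ∈ FrC P r thr, (cell P r (Sum.inl C)).card := by rw [mul_sum]
      _ ≤ _ := Nat.mul_le_mul_left _ h1
  · intro C _ C' _ hne
    change Disjoint _ _
    rw [disjoint_left]
    intro X hX hX'
    exact hne ((mem_cell_inl.1 hX).2.symm.trans (mem_cell_inl.1 hX').2)

lemma card_FrD : thr * (FrD P r thr).card ≤ 4 * n.choose r := by
  classical
  have h1 : ((FrD P r thr).biUnion (fun C => cell P r (Sum.inr C))).card ≤ n.choose r := by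
    have : (FrD P r thr).biUnion (fun C => cell P r (Sum.inr C)) ⊆ powersetCard r univ := by
      intro X hX
      rw [mem_biUnion] at hX
      obtain ⟨C, _, hC⟩ := hX
      exact mem_powersetCard.2 ⟨subset_univ _, (mem_cell_inr.1 hC).1.1⟩
    refine (card_le_card this).trans (le_of_eq ?_)
    rw [card_powersetCard, card_univ, Fintype.card_fin]
  rw [card_biUnion] at h1
  · calc thr * (FrD P r thr).card = ∑ _C ∈ FrD P r thr, thr := by
          rw [sum_const, smul_eq_mul, mul_comm]
      _ ≤ ∑ C ∈ FrD P r thr, 4 * (cell P r (Sum.inr C)).card :=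
          sum_le_sum (fun C hC => (mem_FrD.1 hC).2)
      _ = 4 * ∑ C ∈ FrD P r thr, (cell P r (Sum.inr C)).card := by rw [mul_sum]
      _ ≤ _ := Nat.mul_le_mul_left _ h1
  · intro C _ C' _ hne
    change Disjoint _ _
    rw [disjoint_left]
    intro X hX hX'
    exact hne ((mem_cell_inr.1 hX).2.symm.trans (mem_cell_inr.1 hX').2)

open Classical in
/-- The sets of size `r` that are not excluded by the given circuits and cocircuits. -/
noncomputable def base (r : ℕ) (Sc Sd Fc Fd : Finset (Finset (Fin n))) :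
    Finset (Finset (Fin n)) :=
  (powersetCard r univ).filter (fun X => (∀ C ∈ Sc, ¬ C ⊆ X) ∧ (∀ D ∈ Sd, ¬ Disjoint X D) ∧
    (∀ C ∈ Fc, ¬ C ⊆ X) ∧ ∀ D ∈ Fd, ¬ Disjoint X D)

lemma mem_base : X ∈ base r Sc Sd Fc Fd ↔ X.card = r ∧ (∀ C ∈ Sc, ¬ C ⊆ X) ∧
    (∀ D ∈ Sd, ¬ Disjoint X D) ∧ (∀ C ∈ Fc, ¬ C ⊆ X) ∧ ∀ D ∈ Fd, ¬ Disjoint X D := by
  classical
  simp only [base, mem_filter, mem_powersetCard, subset_univ, true_and]

open Classical in
/-- A possible neighbourhood. -/
noncomputable def pat (X I J : Finset (Fin n)) : Finset (Finset (Fin n)) :=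
  univ.filter (fun u => ∃ x ∈ X, ∃ y, y ∉ X ∧ u = insert y (X.erase x) ∧ (x ∈ I ∨ y ∈ J))

open Classical in
/-- The possible neighbourhoods. -/
noncomputable def pats (a₀ : ℕ) (Sc Sd : Finset (Finset (Fin n))) (X : Finset (Fin n)) :
    Finset (Finset (Finset (Fin n))) :=
  insert univ (((univ.filter (fun I : Finset (Fin n) => I.card ≤ a₀)) ×ˢ
    (univ.filter (fun I : Finset (Fin n) => I.card ≤ a₀))).image
      (fun p => pat X (Is Sd X ∪ p.1) (Is Sc Xᶜ ∪ p.2)))

lemma card_small_sets' (k : ℕ) :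
    (univ.filter (fun I : Finset (Fin n) => I.card ≤ k)).card ≤ (n + 1) ^ k := by
  classical
  have h := card_small_subsets (univ : Finset (Fin n)) k
  rw [card_univ, Fintype.card_fin] at h
  refine le_trans (card_le_card ?_) h
  intro I hI
  rw [mem_filter] at hI
  exact mem_filter.2 ⟨mem_powerset.2 (subset_univ _), hI.2⟩

lemma card_pats (a₀ : ℕ) (Sc Sd : Finset (Finset (Fin n))) (X : Finset (Fin n)) :
    (pats a₀ Sc Sd X).card ≤ 1 + (n + 1) ^ (2 * a₀) := by
  classical
  unfold pats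
  refine (card_insert_le _ _).trans ?_
  have h1 := card_small_sets' (n := n) a₀
  have h2 : (((univ.filter (fun I : Finset (Fin n) => I.card ≤ a₀)) ×ˢ
    (univ.filter (fun I : Finset (Fin n) => I.card ≤ a₀))).image
      (fun p => pat X (Is Sd X ∪ p.1) (Is Sc Xᶜ ∪ p.2))).card ≤ (n + 1) ^ (2 * a₀) := by
    refine card_image_le.trans ?_
    rw [card_product, two_mul, pow_add]
    exact Nat.mul_le_mul h1 h1
  omega

lemma swap_inj {X : Finset (Fin n)} {x y x' y' : Fin n} (hx : x ∈ X) (hy : y ∉ X)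
    (h : insert y (X.erase x) = insert y' (X.erase x')) :
    x = x' ∧ y = y' := by
  constructor
  · by_contra hne
    have h1 : x ∈ insert y' (X.erase x') := mem_insert_of_mem (mem_erase.2 ⟨hne, hx⟩)
    rw [← h] at h1
    exact notMem_swap hx hy h1
  · have h1 : y ∈ insert y' (X.erase x') := by rw [← h]; exact mem_insert_self _ _
    rw [mem_insert] at h1
    rcases h1 with g | g
    · exact g
    · exact absurd (mem_of_mem_erase g) hy

/-- The neighbourhood of a non-basis is one of the possible ones. -/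
theorem pat_exists (hP : Exch P) (hne : ∃ B, P B)
    (hrn : r ≤ n) (hX : X ∈ base r (SmC P r q) (SmD P r q) (FrC P r thr) (FrD P r thr))
    (hnP : X ∈ Nb P r) (hthr : thr ≤ (a₀ + 1) * a₀ * (q * q)) :
    ∃ ψ ∈ pats a₀ (SmC P r q) (SmD P r q) X, ∀ u, Adj X u → (u ∈ Nb P r ↔ u ∈ ψ) := by
  classical
  obtain ⟨hXr, b1, b2, b3, b4⟩ := mem_base.1 hX
  have hnX := (mem_Nb.1 hnP).2
  have hsw : ∀ u, Adj X u → ∃ x ∈ X, ∃ y, y ∉ X ∧ u = insert y (X.erase x) := by
    rintro u ⟨h1, h2⟩
    have h3 : X ≠ u := by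
      intro h
      rw [← h, sdiff_self, bot_eq_empty, card_empty] at h2
      exact absurd h2 (by norm_num)
    exact exists_swap h1 h3 (by omega)
  by_cases hC : (Cs P X).Nonempty
  · set Sd := SmD P r q with hSd
    set Sc := SmC P r q with hSc
    set I := (X \ Cs P X) \ Is Sd X with hI
    set J := (Xᶜ \ Ds P X) \ Is Sc Xᶜ with hJ
    have hIc : I.card ≤ a₀ := by
      by_contra hlt
      push Not at hlt
      have h1 := many_cell hP hXr hnX hC q Sd (fun D g1 g2 => mem_SmD.2 ⟨g1, g2⟩) b2 I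
        (fun x hx => by
          rw [hI, mem_sdiff, mem_sdiff] at hx
          exact hx)
      have h2 : (a₀ + 1) * a₀ * (q * q) ≤ I.card * (I.card - 1) * (q * q) :=
        Nat.mul_le_mul_right _ (Nat.mul_le_mul (by omega) (by omega))
      exact b3 _ (mem_FrC.2 ⟨hC, by omega⟩) Cs_subset
    have hJc : J.card ≤ a₀ := by
      by_contra hlt
      push Not at hlt
      have h1 := many_cell (P := Pd P) (X := Xᶜ) (r := n - r) (exch_Pd hP hne)
        (by rw [card_compl', hXr]) (by unfold Pd; rwa [compl_compl])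
        (by rw [Cs_Pd]; exact Ds_nonempty_iff.2 hC) q Sc
        (fun D g1 g2 => mem_SmC.2 ⟨(coC_Pd hrn).1 g1, g2⟩)
        (fun C hCc hdis => b1 C hCc (by
          intro w hw
          by_contra hwX
          exact disjoint_left.1 hdis (mem_compl.2 hwX) hw)) J
        (fun y hy => by
          rw [hJ, mem_sdiff, mem_sdiff] at hy
          rw [Cs_Pd]
          exact hy)
      rw [Cs_Pd] at h1
      have h3 := card_cell_swap (P := P) hrn (Sum.inr (Ds P X))
      rw [Sum.swap_inr] at h3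
      rw [h3] at h1
      have h2 : (a₀ + 1) * a₀ * (q * q) ≤ J.card * (J.card - 1) * (q * q) :=
        Nat.mul_le_mul_right _ (Nat.mul_le_mul (by omega) (by omega))
      exact b4 _ (mem_FrD.2 ⟨Ds_nonempty_iff.2 hC, by omega⟩) disjoint_Ds
    have mI : ∀ x ∈ X, x ∈ Is Sd X ∪ I ↔ x ∉ Cs P X := by
      intro x hx
      rw [mem_union, hI, mem_sdiff, mem_sdiff]
      constructor
      · rintro (g | g)
        · obtain ⟨_, D, hD, hXD⟩ := mem_Is.1 g
          exact orth hP (mem_SmD.1 hD).1 hnX hXD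
        · exact g.1.2
      · intro g
        by_cases h : x ∈ Is Sd X
        · exact Or.inl h
        · exact Or.inr ⟨⟨hx, g⟩, h⟩
    have mJ : ∀ y, y ∉ X → (y ∈ Is Sc Xᶜ ∪ J ↔ y ∉ Ds P X) := by
      intro y hy
      rw [mem_union, hJ, mem_sdiff, mem_sdiff]
      constructor
      · rintro (g | g)
        · obtain ⟨_, C, hC', hXC⟩ := mem_Is.1 g
          have g1 : y ∈ Xᶜ ∩ C := by rw [hXC]; exact mem_singleton_self _
          refine orth' hP hne hrn (mem_SmC.1 hC').1 hnX hy ?_ (mem_inter.1 g1).2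
          intro w hw
          rw [mem_insert]
          by_contra hcon
          push Not at hcon
          have : w ∈ Xᶜ ∩ C := mem_inter.2 ⟨mem_compl.2 hcon.2, hw⟩
          rw [hXC, mem_singleton] at this
          exact hcon.1 this
        · exact g.1.2
      · intro g
        by_cases h : y ∈ Is Sc Xᶜ
        · exact Or.inl h
        · exact Or.inr ⟨⟨mem_compl.2 hy, g⟩, h⟩
    refine ⟨pat X (Is Sd X ∪ I) (Is Sc Xᶜ ∪ J), ?_, ?_⟩
    · unfold pats
      apply mem_insert_of_mem
      rw [mem_image]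
      exact ⟨(I, J), mem_product.2 ⟨mem_filter.2 ⟨mem_univ _, hIc⟩,
        mem_filter.2 ⟨mem_univ _, hJc⟩⟩, rfl⟩
    · intro u hu
      obtain ⟨x, hx, y, hy, rfl⟩ := hsw u hu
      have h1 : insert y (X.erase x) ∈ pat X (Is Sd X ∪ I) (Is Sc Xᶜ ∪ J) ↔
          (x ∈ Is Sd X ∪ I ∨ y ∈ Is Sc Xᶜ ∪ J) := by
        unfold pat
        rw [mem_filter]
        constructor
        · rintro ⟨_, x', hx', y', hy', heq, h⟩
          obtain ⟨rfl, rfl⟩ := swap_inj hx hy heq
          exact h
        · intro h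
          exact ⟨mem_univ _, x, hx, y, hy, rfl, h⟩
      rw [h1, mI x hx, mJ y hy, mem_Nb, ← nb_swap_iff hP hnX hx hy, card_swap hx hy, hXr]
      tauto
  · refine ⟨univ, mem_insert_self _ _, ?_⟩
    intro u hu
    obtain ⟨x, hx, y, hy, rfl⟩ := hsw u hu
    rw [mem_Nb]
    constructor
    · intro _
      exact mem_univ _
    · intro _
      refine ⟨by rw [card_swap hx hy, hXr], fun hPu => hC ⟨x, mem_Cs.2 ⟨hx, y, hy, hPu⟩⟩⟩

/-- The non-bases outside the container. -/
noncomputable def kn (r : ℕ) (Sc Sd Fc Fd : Finset (Finset (Fin n)))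
    (p : Finset (Finset (Fin n)) × Finset (Finset (Fin n))) : Finset (Finset (Fin n)) :=
  (powersetCard r univ \ base r Sc Sd Fc Fd) ∪ p.2

/-- The description is available. -/
theorem dec_of (hP : Exch P) (hr : ∀ X, P X → X.card = r) (hne : ∃ B, P B)
    (hthr : 0 < thr) (hqr : q < r) (hqn : q + r < n)
    (p : Finset (Finset (Fin n)) × Finset (Finset (Fin n)))
    (h1 : p.1 ⊆ base r (SmC P r q) (SmD P r q) (FrC P r thr) (FrD P r thr))
    (h2 : ∀ v ∈ p.1, (Ngb p.1 v).card < q)
    (h3 : ∀ v, v ∈ p.2 ↔ v ∈ Nb P r ∧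
      v ∈ base r (SmC P r q) (SmD P r q) (FrC P r thr) (FrD P r thr) ∧ v ∉ p.1) :
    Dec n r q P (SmC P r q) (SmD P r q) p.1
      (kn r (SmC P r q) (SmD P r q) (FrC P r thr) (FrD P r thr) p) := by
  classical
  refine ⟨hP, hr, hne, fun C => mem_SmC, fun D => mem_SmD, fun X hX => (mem_base.1 (h1 hX)).1,
    fun X hX => (mem_base.1 (h1 hX)).2.1, fun X hX => (mem_base.1 (h1 hX)).2.2.1, h2, ?_, ?_,
    hqr, hqn⟩
  · intro X hXr hXp
    unfold kn
    rw [mem_union, mem_sdiff, mem_powersetCard, h3 X]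
    by_cases hXb : X ∈ base r (SmC P r q) (SmD P r q) (FrC P r thr) (FrD P r thr)
    · constructor
      · intro hnP
        exact Or.inr ⟨mem_Nb.2 ⟨hXr, hnP⟩, hXb, hXp⟩
      · rintro (g | g)
        · exact absurd hXb g.2
        · exact (mem_Nb.1 g.1).2
    · constructor
      · intro _
        exact Or.inl ⟨⟨subset_univ _, hXr⟩, hXb⟩
      · intro _
        rw [mem_base] at hXb
        by_contra hPX
        apply hXb
        refine ⟨hXr, ?_, ?_, ?_, ?_⟩
        · intro C hC hsub
          exact not_of_subset hP hr (mem_SmC.1 hC).1 hsub hPX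
        · intro D hD hdis
          exact not_of_disjoint hP (mem_SmD.1 hD).1 hdis hPX
        · intro C hC hsub
          exact not_of_subset hP hr (cir_of_FrC hthr hC) hsub hPX
        · intro D hD hdis
          exact not_of_disjoint hP (coC_of_FrD hthr hD) hdis hPX
  · intro X hX
    unfold kn at hX
    rw [mem_union, mem_sdiff, mem_powersetCard, h3 X] at hX
    rcases hX with g | g
    · exact g.1.2
    · exact (mem_Nb.1 g.1).1

end Pool.Agent.Matroid6d
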