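import Pool.Agent.Matroid6d.G.Orth
import Pool.Agent.Matroid6d.Bridge3

/-!
Small cocircuits of matroids, and the final union bound with a better constant.
-/

set_option autoImplicit false

namespace Pool.Agent.Matroid6d

open Finset

variable {n : ℕ} {M : Matroid (Fin n)}

lemma not_disjoint_of_isCocircuit (hE : M.E = Set.univ) {D X : Finset (Fin n)}
    (hD : M.IsCocircuit (D : Set (Fin n))) (hX : Bs M X) : ¬ Disjoint X D := by
  intro h
  have h1 : Bs M✶ Xᶜ := by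
    rw [bs_dual hE]
    unfold Pd
    rwa [compl_compl]
  have h2 : (D : Set (Fin n)) ⊆ ((Xᶜ : Finset (Fin n)) : Set (Fin n)) := by
    rw [coe_subset]
    intro w hw
    rw [mem_compl]
    intro hwX
    exact disjoint_left.1 h hwX hw
  unfold Bs at h1
  exact hD.isCircuit.dep.not_indep (h1.indep.subset h2)

/-- Small cocircuits are cocircuits in our sense. -/
lemma coC_of_isCocircuit (hE : M.E = Set.univ) {D : Finset (Fin n)}
    (hD : M.IsCocircuit (D : Set (Fin n))) (hlt : D.card + rk M < n) :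
    CoC (Bs M) (rk M) D := by
  obtain ⟨x, hx⟩ := hD.nonempty
  rw [mem_coe] at hx
  -- a basis meeting `D` in `x`
  obtain ⟨B, hB, hBD⟩ : ∃ B : Finset (Fin n), Bs M B ∧ B ∩ D = {x} := by
    have h1 : M✶.Indep ((D : Set (Fin n)) \ {x}) :=
      hD.isCircuit.sdiff_singleton_indep (by exact_mod_cast hx)
    obtain ⟨B', hB', hsub⟩ := h1.exists_isBase_superset
    obtain ⟨B'', rfl⟩ : ∃ B'' : Finset (Fin n), (B'' : Set (Fin n)) = B' :=
      ⟨(Set.toFinite B').toFinset, Set.Finite.coe_toFinset _⟩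
    have h2 : Bs M B''ᶜ := by
      have h3 : Bs M✶ B'' := hB'
      rw [bs_dual hE] at h3
      exact h3
    refine ⟨B''ᶜ, h2, ?_⟩
    ext w
    rw [mem_inter, mem_compl, mem_singleton]
    constructor
    · rintro ⟨h3, h4⟩
      by_contra h5
      apply h3
      have h6 : w ∈ (B'' : Set (Fin n)) := hsub ⟨by exact_mod_cast h4, h5⟩
      exact_mod_cast h6
    · rintro rfl
      refine ⟨fun hxB => ?_, hx⟩
      apply hD.isCircuit.dep.not_indep
      apply hB'.indep.subset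
      intro z hz
      by_cases hzx : z = w
      · rw [hzx]
        exact_mod_cast hxB
      · exact hsub ⟨hz, hzx⟩
  have hxB : x ∈ B := by
    have : x ∈ B ∩ D := by rw [hBD]; exact mem_singleton_self _
    exact (mem_inter.1 this).1
  have hsub : fcc (Bs M) B x ⊆ D := by
    intro y hy
    rw [mem_fcc] at hy
    rcases hy with rfl | ⟨h1, h2⟩
    · exact hx
    · by_contra hyD
      refine not_disjoint_of_isCocircuit hE hD h2 ?_
      rw [disjoint_left]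
      intro w hw hwD
      rw [mem_insert] at hw
      rcases hw with rfl | hw
      · exact hyD hwD
      · rw [mem_erase] at hw
        have : w ∈ B ∩ D := mem_inter.2 ⟨hw.2, hwD⟩
        rw [hBD, mem_singleton] at this
        exact hw.1 this
  have hBr := card_of_bs hB
  obtain ⟨z, hz, hzD⟩ := exists_notMem_union (X := B) (D := D) (by omega)
  have hco := coC_fcc (exch_bs M) (fun X hX => card_of_bs hX) hB hxB hz (fun h => hzD (hsub h))
  have heq : fcc (Bs M) B x = D := by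
    obtain ⟨Y, h1, h2, h3, h4⟩ := id hco
    have h5 := isCocircuit_Ds hE h1 h2 h3
    rw [h4] at h5
    have h6 := h5.isCircuit.eq_of_subset_isCircuit hD.isCircuit (by exact_mod_cast hsub)
    exact_mod_cast h6
  rwa [heq] at hco

/-- The dual class. -/
def dualC (𝒞 : Set (Matroid (Fin n))) : Set (Matroid (Fin n)) := {M | M✶ ∈ 𝒞}

lemma ncard_dualC (𝒞 : Set (Matroid (Fin n))) : (dualC 𝒞).ncard = 𝒞.ncard := by
  have h : dualC 𝒞 = Matroid.dual '' 𝒞 := by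
    ext M
    constructor
    · intro hM
      exact ⟨M✶, hM, M.dual_dual⟩
    · rintro ⟨N, hN, rfl⟩
      change N✶✶ ∈ 𝒞
      rwa [N.dual_dual]
  rw [h, Set.ncard_image_of_injective _ Matroid.dual_injective]

lemma dualC_E {𝒞 : Set (Matroid (Fin n))} (hE : ∀ M ∈ 𝒞, M.E = Set.univ) :
    ∀ M ∈ dualC 𝒞, M.E = Set.univ := by
  intro M hM
  rw [← Matroid.dual_ground]
  exact hE _ hM

lemma dualC_up {𝒞 : Set (Matroid (Fin n))} (hE : ∀ M ∈ 𝒞, M.E = Set.univ)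
    (hup : ∀ M ∈ 𝒞, ∀ M' : Matroid (Fin n), M'.E = Set.univ →
      (∀ B, M.IsBase B → M'.IsBase B) → M' ∈ 𝒞) :
    ∀ M ∈ dualC 𝒞, ∀ M' : Matroid (Fin n), M'.E = Set.univ →
      (∀ B, M.IsBase B → M'.IsBase B) → M' ∈ dualC 𝒞 := by
  intro M hM M' hE' hB
  refine hup _ hM _ (by rw [Matroid.dual_ground, hE']) ?_
  intro B hBM
  have hME : M.E = Set.univ := dualC_E hE M hM
  rw [Matroid.dual_isBase_iff'] at hBM ⊢
  rw [hE']
  rw [hME] at hBM
  exact ⟨hB _ hBM.1, Set.subset_univ _⟩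

lemma midR_dual (hE : M.E = Set.univ) (h : MidR M) : MidR M✶ := by
  rw [midR_iff] at h ⊢
  rw [rk_dual hE]
  have := rk_le M
  omega

/-- The union bound over the families. -/
theorem final_bound4 (𝒞 : Set (Matroid (Fin n))) (hE : ∀ M ∈ 𝒞, M.E = Set.univ)
    (hup : ∀ M ∈ 𝒞, ∀ M' : Matroid (Fin n), M'.E = Set.univ →
      (∀ B, M.IsBase B → M'.IsBase B) → M' ∈ 𝒞)
    (𝒦 : ℕ → Finset (Finset (Finset (Fin n)))) (h𝒦 : ∀ r, ∀ K ∈ 𝒦 r, ∀ X ∈ K, X.card = r)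
    (hsum : ∀ r, n ≤ 8 * r → 8 * r ≤ 7 * n → ∑ K ∈ 𝒦 r, ((Nst K : ℝ))⁻¹ ≤ 8 * (1 / 4) ^ n)
    (hn : 32 * (n + 1) ≤ 2 ^ n) (Bad : Set (Matroid (Fin n)))
    (hBad : ∀ M ∈ Bad, M ∈ 𝒞 ∧ MidR M ∧ ∃ K ∈ 𝒦 (rk M), Closed (Bs M) K) :
    2 ^ (n + 2) * Bad.ncard ≤ 𝒞.ncard := by
  classical
  have hfin := finite_mats 𝒞 hE
  set R := (range (n + 1)).filter (fun r => n ≤ 8 * r ∧ 8 * r ≤ 7 * n) with hR
  set I : Finset (Σ _ : ℕ, Finset (Finset (Fin n))) := R.sigma 𝒦 with hI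
  set A : (Σ _ : ℕ, Finset (Finset (Fin n))) → Set (Matroid (Fin n)) := fun p =>
    {M ∈ 𝒞 | (∀ X, Bs M X → X.card = p.1) ∧ Closed (Bs M) p.2} with hA
  have hsub : Bad ⊆ ⋃ p ∈ I, A p := by
    intro M hM
    obtain ⟨hMC, hmid, K, hK, hcl⟩ := hBad M hM
    obtain ⟨m1, m2⟩ := midR_iff.1 hmid
    rw [Set.mem_iUnion₂]
    refine ⟨⟨rk M, K⟩, ?_, hMC, fun X hX => card_of_bs hX, hcl⟩
    rw [hI, mem_sigma, hR, mem_filter, mem_range]
    exact ⟨⟨Nat.lt_succ_of_le (rk_le M), m1, m2⟩, hK⟩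
  have hfinU : (⋃ p ∈ I, A p).Finite := by
    apply hfin.subset
    intro M hM
    rw [Set.mem_iUnion₂] at hM
    obtain ⟨p, _, hp⟩ := hM
    exact hp.1
  have h1 : (Bad.ncard : ℝ) ≤ ∑ p ∈ I, ((A p).ncard : ℝ) := by
    have := (Set.ncard_le_ncard hsub hfinU).trans (set_ncard_biUnion_le I A)
    exact_mod_cast this
  have h2 : ∀ p ∈ I, ((A p).ncard : ℝ) ≤ (𝒞.ncard : ℝ) * ((Nst p.2 : ℝ))⁻¹ := by
    rintro ⟨r, K⟩ hp
    rw [hI, mem_sigma] at hp
    have h3 := count_replace 𝒞 hE hup r K (h𝒦 r K hp.2) (K.powerset.filter Stable)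
      (fun S hS => ⟨mem_powerset.1 (mem_filter.1 hS).1, (mem_filter.1 hS).2⟩)
    have h4 : (K.powerset.filter Stable).card = Nst K := by
      unfold Nst
      congr!
    rw [h4] at h3
    have h5 : 0 < Nst K := by
      rw [← h4]
      apply card_pos.2
      refine ⟨∅, mem_filter.2 ⟨empty_mem_powerset _, ?_⟩⟩
      intro X hX
      exact absurd hX (notMem_empty _)
    have h6 : (0 : ℝ) < Nst K := by exact_mod_cast h5
    rw [← div_eq_mul_inv, le_div_iff₀ h6]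
    exact_mod_cast h3
  have h3 : (Bad.ncard : ℝ) ≤ 𝒞.ncard * ((n + 1) * (8 * (1 / 4) ^ n)) := by
    calc (Bad.ncard : ℝ) ≤ ∑ p ∈ I, ((A p).ncard : ℝ) := h1
      _ ≤ ∑ p ∈ I, (𝒞.ncard : ℝ) * ((Nst p.2 : ℝ))⁻¹ := sum_le_sum h2
      _ = 𝒞.ncard * ∑ r ∈ R, ∑ K ∈ 𝒦 r, ((Nst K : ℝ))⁻¹ := by
          rw [← mul_sum, hI, sum_sigma]
      _ ≤ 𝒞.ncard * ∑ _r ∈ R, 8 * (1 / 4 : ℝ) ^ n := by
          apply mul_le_mul_of_nonneg_left _ (by positivity)
          apply sum_le_sum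
          intro r hr
          rw [hR, mem_filter] at hr
          exact hsum r hr.2.1 hr.2.2
      _ ≤ _ := by
          apply mul_le_mul_of_nonneg_left _ (by positivity)
          rw [sum_const, nsmul_eq_mul]
          apply mul_le_mul_of_nonneg_right _ (by positivity)
          have : R.card ≤ n + 1 := by
            rw [hR]
            exact (card_filter_le _ _).trans (by rw [card_range])
          exact_mod_cast this
  have h4 : (2 : ℝ) ^ (n + 2) * Bad.ncard ≤ 𝒞.ncard := by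
    have h5 : (2 : ℝ) ^ (n + 2) * ((n + 1) * (8 * (1 / 4) ^ n)) ≤ 1 := by
      have h6 : (32 : ℝ) * (n + 1) ≤ 2 ^ n := by exact_mod_cast hn
      have h7 : (1 / 4 : ℝ) ^ n = ((2 : ℝ) ^ n)⁻¹ * ((2 : ℝ) ^ n)⁻¹ := by
        rw [← mul_inv, ← mul_pow, ← inv_pow]
        norm_num
      have h8 : (0 : ℝ) < 2 ^ n := by positivity
      rw [h7, pow_add]
      calc (2 : ℝ) ^ n * 2 ^ 2 * ((n + 1) * (8 * (((2 : ℝ) ^ n)⁻¹ * ((2 : ℝ) ^ n)⁻¹)))
          = (32 * (n + 1)) * ((2 : ℝ) ^ n)⁻¹ := by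
            field_simp
            ring
        _ ≤ 2 ^ n * ((2 : ℝ) ^ n)⁻¹ := mul_le_mul_of_nonneg_right h6 (by positivity)
        _ = 1 := mul_inv_cancel₀ h8.ne'
    calc (2 : ℝ) ^ (n + 2) * Bad.ncard
        ≤ 2 ^ (n + 2) * (𝒞.ncard * ((n + 1) * (8 * (1 / 4) ^ n))) :=
          mul_le_mul_of_nonneg_left h3 (by positivity)
      _ = 𝒞.ncard * (2 ^ (n + 2) * ((n + 1) * (8 * (1 / 4) ^ n))) := by ring
      _ ≤ 𝒞.ncard * 1 := mul_le_mul_of_nonneg_left h5 (by positivity)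
      _ = 𝒞.ncard := mul_one _
  exact_mod_cast h4

/-- The union bound over the short cocircuits. -/
theorem short_union (g₀ : ℕ) (𝒞 : Set (Matroid (Fin n))) (hE : ∀ M ∈ 𝒞, M.E = Set.univ)
    (hn : 16 * g₀ + 16 ≤ n)
    (hfix : ∀ r, n ≤ 8 * r → 8 * r ≤ 7 * n → ∀ D₀ : Finset (Fin n), D₀.card ≤ g₀ →
      ({M ∈ 𝒞 | rk M = r ∧ CoC (Bs M) r D₀}.ncard : ℝ) ≤ Real.exp (-(4 * n)) * 𝒞.ncard) :
    2 ^ (n + 3) * {M ∈ 𝒞 | MidR M ∧ ∃ D : Set (Fin n), M.IsCocircuit D ∧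
      D.encard ≤ g₀}.ncard ≤ 𝒞.ncard := by
  classical
  have hfin := finite_mats 𝒞 hE
  set R := (range (n + 1)).filter (fun r => n ≤ 8 * r ∧ 8 * r ≤ 7 * n) with hR
  set S : Finset (Finset (Fin n)) := univ.filter (fun D => D.card ≤ g₀) with hS
  set A : ℕ × Finset (Fin n) → Set (Matroid (Fin n)) := fun p =>
    {M ∈ 𝒞 | rk M = p.1 ∧ CoC (Bs M) p.1 p.2} with hA
  set Bad := {M ∈ 𝒞 | MidR M ∧ ∃ D : Set (Fin n), M.IsCocircuit D ∧ D.encard ≤ g₀} with hBad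
  have hsub : Bad ⊆ ⋃ p ∈ R ×ˢ S, A p := by
    rintro M ⟨hMC, hmid, D, hD, hDg⟩
    obtain ⟨D', rfl⟩ : ∃ D' : Finset (Fin n), (D' : Set (Fin n)) = D :=
      ⟨(Set.toFinite D).toFinset, Set.Finite.coe_toFinset _⟩
    rw [Set.encard_coe_eq_coe_finsetCard] at hDg
    have hDg' : D'.card ≤ g₀ := by exact_mod_cast hDg
    obtain ⟨m1, m2⟩ := midR_iff.1 hmid
    rw [Set.mem_iUnion₂]
    refine ⟨⟨rk M, D'⟩, ?_, hMC, rfl, coC_of_isCocircuit (D := D') (hE M hMC) hD (by omega)⟩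
    rw [mem_product, hR, mem_filter, mem_range, hS, mem_filter]
    exact ⟨⟨Nat.lt_succ_of_le (rk_le M), m1, m2⟩, mem_univ _, hDg'⟩
  have hfinU : (⋃ p ∈ R ×ˢ S, A p).Finite := by
    apply hfin.subset
    intro M hM
    rw [Set.mem_iUnion₂] at hM
    obtain ⟨p, _, hp⟩ := hM
    exact hp.1
  have h1 : (Bad.ncard : ℝ) ≤ ∑ p ∈ R ×ˢ S, ((A p).ncard : ℝ) := by
    have := (Set.ncard_le_ncard hsub hfinU).trans (set_ncard_biUnion_le (R ×ˢ S) A)
    exact_mod_cast this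
  have h2 : ∀ p ∈ R ×ˢ S, ((A p).ncard : ℝ) ≤ Real.exp (-(4 * n)) * 𝒞.ncard := by
    rintro ⟨r, D⟩ hp
    rw [mem_product, hR, mem_filter, hS, mem_filter] at hp
    exact hfix r hp.1.2.1 hp.1.2.2 D hp.2.2
  have h3 : (R ×ˢ S).card ≤ 2 ^ n * 2 ^ n := by
    rw [card_product]
    apply Nat.mul_le_mul
    · calc R.card ≤ (range (n + 1)).card := card_filter_le _ _
        _ = n + 1 := card_range _
        _ ≤ 2 ^ n := Nat.lt_two_pow_self
    · calc S.card ≤ (univ : Finset (Finset (Fin n))).card := card_filter_le _ _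
        _ = 2 ^ n := by rw [card_univ, Fintype.card_finset, Fintype.card_fin]
  have h4 : (Bad.ncard : ℝ) ≤ (2 ^ n * 2 ^ n) * (Real.exp (-(4 * n)) * 𝒞.ncard) := by
    calc (Bad.ncard : ℝ) ≤ ∑ p ∈ R ×ˢ S, ((A p).ncard : ℝ) := h1
      _ ≤ ∑ _p ∈ R ×ˢ S, Real.exp (-(4 * n)) * 𝒞.ncard := sum_le_sum h2
      _ = (R ×ˢ S).card * (Real.exp (-(4 * n)) * 𝒞.ncard) := by rw [sum_const, nsmul_eq_mul]
      _ ≤ _ := by
          apply mul_le_mul_of_nonneg_right _ (by positivity)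
          exact_mod_cast h3
  have h5 : (2 : ℝ) ^ (n + 3) * (2 ^ n * 2 ^ n) * Real.exp (-(4 * n)) ≤ 1 := by
    have e1 : (2 : ℝ) ^ (n + 3) * (2 ^ n * 2 ^ n) = 2 ^ (3 * n + 3) := by
      rw [← pow_add, ← pow_add]
      congr 1
      ring
    have e2 : (2 : ℝ) ^ (3 * n + 3) ≤ Real.exp ((3 * n + 3 : ℕ) : ℝ) := by
      have h6 : (2 : ℝ) ≤ Real.exp 1 := by
        have := Real.add_one_le_exp (1 : ℝ)
        linarith
      calc (2 : ℝ) ^ (3 * n + 3) ≤ (Real.exp 1) ^ (3 * n + 3) :=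
            pow_le_pow_left₀ (by norm_num) h6 _
        _ = Real.exp ((3 * n + 3 : ℕ) : ℝ) := by
            rw [← Real.exp_nat_mul, mul_one]
    rw [e1]
    calc (2 : ℝ) ^ (3 * n + 3) * Real.exp (-(4 * n))
        ≤ Real.exp ((3 * n + 3 : ℕ) : ℝ) * Real.exp (-(4 * n)) :=
          mul_le_mul_of_nonneg_right e2 (by positivity)
      _ = Real.exp (((3 * n + 3 : ℕ) : ℝ) + -(4 * n)) := by rw [← Real.exp_add]
      _ ≤ 1 := by
          apply Real.exp_le_one_iff.2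
          have : (3 : ℝ) ≤ n := by
            have : 3 ≤ n := by omega
            exact_mod_cast this
          push_cast
          linarith
  have h6 : (2 : ℝ) ^ (n + 3) * Bad.ncard ≤ 𝒞.ncard := by
    calc (2 : ℝ) ^ (n + 3) * Bad.ncard
        ≤ 2 ^ (n + 3) * ((2 ^ n * 2 ^ n) * (Real.exp (-(4 * n)) * 𝒞.ncard)) :=
          mul_le_mul_of_nonneg_left h4 (by positivity)
      _ = (2 ^ (n + 3) * (2 ^ n * 2 ^ n) * Real.exp (-(4 * n))) * 𝒞.ncard := by ring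
      _ ≤ 1 * 𝒞.ncard := mul_le_mul_of_nonneg_right h5 (by positivity)
      _ = 𝒞.ncard := one_mul _
  exact_mod_cast h6

end Pool.Agent.Matroid6d
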