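import Pool.Agent.Matroid6d.G.Short
import Pool.Agent.Matroid6d.G.Mats

/-!
In every class of matroids that is closed under adding bases, few members of non-extreme rank have
a circuit or a cocircuit of bounded size.
-/

set_option autoImplicit false

namespace Pool.Agent.Matroid6d

open Finset

/-- Few members have a short cocircuit. -/
theorem short_coc (g₀ : ℕ) : ∃ n₀ : ℕ, ∀ n : ℕ, n₀ ≤ n → ∀ 𝒞 : Set (Matroid (Fin n)),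
    (∀ M ∈ 𝒞, M.E = Set.univ) →
    (∀ M ∈ 𝒞, ∀ M' : Matroid (Fin n), M'.E = Set.univ →
      (∀ B, M.IsBase B → M'.IsBase B) → M' ∈ 𝒞) →
    2 ^ (n + 3) * {M ∈ 𝒞 | MidR M ∧ ∃ D : Set (Fin n), M.IsCocircuit D ∧
      D.encard ≤ g₀}.ncard ≤ 𝒞.ncard := by
  obtain ⟨n₁, hn₁⟩ := fixed_final g₀
  refine ⟨n₁ + (16 * g₀ + 16), fun n hn 𝒞 hE hup => ?_⟩
  exact short_union g₀ 𝒞 hE (by omega) (fun r h1 h2 D₀ h3 => hn₁ n (by omega) 𝒞 hE hup r h1 h2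
    D₀ h3)

/-- Few members have a short circuit. -/
theorem short_cir (g₀ : ℕ) : ∃ n₀ : ℕ, ∀ n : ℕ, n₀ ≤ n → ∀ 𝒞 : Set (Matroid (Fin n)),
    (∀ M ∈ 𝒞, M.E = Set.univ) →
    (∀ M ∈ 𝒞, ∀ M' : Matroid (Fin n), M'.E = Set.univ →
      (∀ B, M.IsBase B → M'.IsBase B) → M' ∈ 𝒞) →
    2 ^ (n + 3) * {M ∈ 𝒞 | MidR M ∧ ∃ C : Set (Fin n), M.IsCircuit C ∧
      C.encard ≤ g₀}.ncard ≤ 𝒞.ncard := by
  obtain ⟨n₁, hn₁⟩ := short_coc g₀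
  refine ⟨n₁, fun n hn 𝒞 hE hup => ?_⟩
  have h1 := hn₁ n hn (dualC 𝒞) (dualC_E hE) (dualC_up hE hup)
  rw [ncard_dualC] at h1
  refine le_trans (Nat.mul_le_mul_left _ ?_) h1
  have hfin : {M ∈ dualC 𝒞 | MidR M ∧ ∃ D : Set (Fin n), M.IsCocircuit D ∧
      D.encard ≤ g₀}.Finite :=
    (finite_mats (dualC 𝒞) (dualC_E hE)).subset (fun M hM => hM.1)
  refine Set.ncard_le_ncard_of_injOn Matroid.dual ?_ Matroid.dual_injective.injOn hfin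
  rintro M ⟨hM, hmid, C, hC, hCg⟩
  refine ⟨?_, midR_dual (hE M hM) hmid, C, ?_, hCg⟩
  · change M✶✶ ∈ 𝒞
    rwa [M.dual_dual]
  · exact Matroid.dual_isCocircuit_iff.2 hC

end Pool.Agent.Matroid6d
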