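import Pool.Agent.Matroid6d.G.WCount

/-!
The matroids with a given short cocircuit.
-/

set_option autoImplicit false

namespace Pool.Agent.Matroid6d

open Finset

variable {n : ℕ}

/-- The families of non-bases of matroids with given short and frequent circuits and
cocircuits. -/
def XX (r q thr : ℕ) (Sc Sd Fc Fd : Finset (Finset (Fin n))) : Set (Finset (Finset (Fin n))) :=
  {S | ∃ P : Finset (Fin n) → Prop, Exch P ∧ (∀ X, P X → X.card = r) ∧ (∃ B, P B) ∧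
    S = Nb P r ∧ SmC P r q = Sc ∧ SmD P r q = Sd ∧ FrC P r thr = Fc ∧ FrD P r thr = Fd}

/-- Containers for these families. -/
theorem cont_base (r q thr a₀ : ℕ) (Sc Sd Fc Fd : Finset (Finset (Fin n))) (hn : 2 ≤ n)
    (hr1 : 1 ≤ r) (hrn : r ≤ n) (hq : 1 ≤ q) (hthr : thr ≤ (a₀ + 1) * a₀ * (q * q))
    (u β U : ℝ) (hu0 : 0 ≤ u)
    (hu : Real.exp (-u) + (1 + (n + 1) ^ (2 * a₀)) * Real.exp (-(u * q)) ≤ 1)
    (hU : (n.choose (r - 1) : ℝ) ≤ U) (hU' : (n.choose r : ℝ) ≤ U) (hU2 : (r : ℝ) ^ 2 ≤ U)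
    (hβ : 1 ≤ β) (hξβ : (1 + ((n : ℝ) + 1) ^ (2 * a₀)) * (n : ℝ) ^ 2 ≤ Real.exp β) :
    HasC (XX r q thr Sc Sd Fc Fd) q (base r Sc Sd Fc Fd)
      (Real.exp (2 * u * (U / r) + β * (2 * U / r ^ 2) * Real.log n))
      (2 * (U / r) / q + (2 * U / r ^ 2) * Real.log n) := by
  classical
  apply cont_level r (base r Sc Sd Fc Fd) (powersetCard (r - 1) univ)
    (fun v hv => (mem_base.1 hv).1)
    (fun T hT => by
      have := (mem_powersetCard.1 hT).2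
      omega)
    (fun v hv x hx => by
      rw [mem_powersetCard, card_erase_of_mem hx, (mem_base.1 hv).1]
      exact ⟨subset_univ _, rfl⟩) hr1 hrn hn (pats a₀ Sc Sd) ?_ (1 + (n + 1) ^ (2 * a₀)) u β U ?_
      (by positivity) hq hu0 hu ?_ ?_ hU2 hβ hξβ
  · rintro S ⟨P, hP, hr, hne, rfl, rfl, rfl, rfl, rfl⟩ v hv hvS
    obtain ⟨ψ, h1, h2⟩ := pat_exists hP hne hrn hv hvS hthr
    exact ⟨ψ, h1, fun u _ hu => h2 u hu⟩
  · intro v _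
    exact_mod_cast card_pats a₀ Sc Sd v
  · rw [card_powersetCard, card_univ, Fintype.card_fin]
    exact hU
  · refine le_trans ?_ hU'
    have h1 : base r Sc Sd Fc Fd ⊆ powersetCard r univ := by
      intro X hX
      exact mem_powersetCard.2 ⟨subset_univ _, (mem_base.1 hX).1⟩
    have h2 := card_le_card h1
    rw [card_powersetCard, card_univ, Fintype.card_fin] at h2
    exact_mod_cast h2

/-- The quadruples. -/
noncomputable def quads (n q f : ℕ) : Finset ((Finset (Finset (Fin n)) × Finset (Finset (Fin n))) ×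
    (Finset (Finset (Fin n)) × Finset (Finset (Fin n)))) :=
  ((univ.filter (fun I : Finset (Fin n) => I.card ≤ q)).powerset ×ˢ
    (univ.filter (fun I : Finset (Fin n) => I.card ≤ q)).powerset) ×ˢ
  ((univ : Finset (Finset (Fin n))).powerset.filter (fun t => t.card ≤ f) ×ˢ
    (univ : Finset (Finset (Fin n))).powerset.filter (fun t => t.card ≤ f))

lemma card_quads (n q f : ℕ) :
    (quads n q f).card ≤ (2 ^ ((n + 1) ^ q) * (2 ^ n + 1) ^ f) ^ 2 := by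
  classical
  unfold quads
  rw [card_product, card_product, card_product, card_powerset]
  have h1 : 2 ^ (univ.filter (fun I : Finset (Fin n) => I.card ≤ q)).card ≤
      2 ^ ((n + 1) ^ q) := Nat.pow_le_pow_right (by norm_num) (card_small_sets' q)
  have h2 := card_small_subsets (univ : Finset (Finset (Fin n))) f
  rw [card_univ, Fintype.card_finset, Fintype.card_fin] at h2
  calc _ ≤ (2 ^ ((n + 1) ^ q) * 2 ^ ((n + 1) ^ q)) * ((2 ^ n + 1) ^ f * (2 ^ n + 1) ^ f) :=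
        Nat.mul_le_mul (Nat.mul_le_mul h1 h1) (Nat.mul_le_mul (by convert h2) (by convert h2))
    _ = _ := by ring

/-- The bound for a fixed cocircuit. -/
theorem fixed_bound (𝒞 : Set (Matroid (Fin n))) (hE : ∀ M ∈ 𝒞, M.E = Set.univ)
    (hup : ∀ M ∈ 𝒞, ∀ M' : Matroid (Fin n), M'.E = Set.univ →
      (∀ B, M.IsBase B → M'.IsBase B) → M' ∈ 𝒞)
    (r q thr G₁ G₂ f : ℕ) (D₀ : Finset (Fin n)) (hD₀q : D₀.card ≤ q) (hn : 0 < n)
    (hqr : q < r) (hqn : q + r < n) (hthr0 : 0 < thr)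
    (hf : 4 * n.choose r < thr * (f + 1)) (c t w : ℝ) (hc0 : 0 ≤ c)
    (hcont : ∀ Sc Sd Fc Fd : Finset (Finset (Fin n)),
      HasC (XX r q thr Sc Sd Fc Fd) q (base r Sc Sd Fc Fd) c t)
    (hw : ((Wf r D₀ (n * G₁)).card : ℝ) ≤ w) (hG₂ : n * G₂ ≤ (K0 r D₀).card) :
    ({M ∈ 𝒞 | rk M = r ∧ CoC (Bs M) r D₀}.ncard : ℝ) ≤
      (2 ^ ((n + 1) ^ q) * (2 ^ n + 1) ^ f) ^ 2 * c * ((1 / 2) ^ G₁ + w * (1 / 2) ^ G₂) *
        𝒞.ncard := by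
  classical
  have hfin := finite_mats 𝒞 hE
  set 𝓜 := {M ∈ 𝒞 | rk M = r ∧ CoC (Bs M) r D₀} with h𝓜
  -- the containers
  have hcont' : ∀ τ : (Finset (Finset (Fin n)) × Finset (Finset (Fin n))) ×
      (Finset (Finset (Fin n)) × Finset (Finset (Fin n))), ∃ 𝒟 : Finset (Finset (Finset (Fin n)) ×
      Finset (Finset (Fin n))), (𝒟.card : ℝ) ≤ c ∧
    ∀ S ∈ XX r q thr τ.1.1 τ.1.2 τ.2.1 τ.2.2, ∃ p ∈ 𝒟, p.1 ⊆ base r τ.1.1 τ.1.2 τ.2.1 τ.2.2 ∧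
      (∀ v ∈ p.1, (Ngb p.1 v).card < q) ∧
      (∀ v, v ∈ p.2 ↔ v ∈ S ∧ v ∈ base r τ.1.1 τ.1.2 τ.2.1 τ.2.2 ∧ v ∉ p.1) ∧
      ((∀ v ∈ S, Ngb S v = ∅) → (p.2.card : ℝ) ≤ t) :=
    fun τ => hcont τ.1.1 τ.1.2 τ.2.1 τ.2.2
  choose 𝒟 h𝒟1 h𝒟2 using hcont'
  set I := ((quads n q f).filter (fun τ => D₀ ∈ τ.1.2)).sigma 𝒟 with hI
  -- the parts
  set Ma : (Σ _ : (Finset (Finset (Fin n)) × Finset (Finset (Fin n))) ×
      (Finset (Finset (Fin n)) × Finset (Finset (Fin n))),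
      Finset (Finset (Fin n)) × Finset (Finset (Fin n))) → Set (Matroid (Fin n)) := fun ζ =>
    {M ∈ 𝒞 | Dec n r q (Bs M) ζ.1.1.1 ζ.1.1.2 ζ.2.1
        (kn r ζ.1.1.1 ζ.1.1.2 ζ.1.2.1 ζ.1.2.2 ζ.2) ∧
      n * G₁ ≤ (K0 r D₀ \ domK r D₀ (W0 (Bs M) ζ.1.1.1 ζ.1.1.2 ζ.2.1
        (kn r ζ.1.1.1 ζ.1.1.2 ζ.1.2.1 ζ.1.2.2 ζ.2) D₀)).card} with hMa
  set Mb : (Σ _ : (Finset (Finset (Fin n)) × Finset (Finset (Fin n))) ×
      (Finset (Finset (Fin n)) × Finset (Finset (Fin n))),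
      Finset (Finset (Fin n)) × Finset (Finset (Fin n))) → Finset (Finset (Fin n)) →
      Set (Matroid (Fin n)) := fun ζ W =>
    {M ∈ 𝒞 | Dec n r q (Bs M) ζ.1.1.1 ζ.1.1.2 ζ.2.1
        (kn r ζ.1.1.1 ζ.1.1.2 ζ.1.2.1 ζ.1.2.2 ζ.2) ∧
      W0 (Bs M) ζ.1.1.1 ζ.1.1.2 ζ.2.1
        (kn r ζ.1.1.1 ζ.1.1.2 ζ.1.2.1 ζ.1.2.2 ζ.2) D₀ = W} with hMb
  have hsub : 𝓜 ⊆ (⋃ ζ ∈ I, Ma ζ) ∪ ⋃ ζ ∈ I, ⋃ W ∈ Wf r D₀ (n * G₁), Mb ζ W := by
    rintro M ⟨hMC, hMr, hMD⟩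
    have hP := exch_bs M
    have hr : ∀ X, Bs M X → X.card = r := fun X hX => by rw [card_of_bs hX, hMr]
    have hne := exists_bs M
    set τ : (Finset (Finset (Fin n)) × Finset (Finset (Fin n))) ×
      (Finset (Finset (Fin n)) × Finset (Finset (Fin n))) :=
      ((SmC (Bs M) r q, SmD (Bs M) r q), (FrC (Bs M) r thr, FrD (Bs M) r thr)) with hτ
    have hD₀S : D₀ ∈ SmD (Bs M) r q := mem_SmD.2 ⟨hMD, hD₀q⟩
    have hτq : τ ∈ (quads n q f).filter (fun τ => D₀ ∈ τ.1.2) := by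
      rw [mem_filter]
      refine ⟨?_, hD₀S⟩
      unfold quads
      rw [mem_product, mem_product, mem_product, mem_powerset, mem_powerset, mem_filter,
        mem_filter, mem_powerset, mem_powerset]
      refine ⟨⟨?_, ?_⟩, ⟨subset_univ _, ?_⟩, subset_univ _, ?_⟩
      · intro C hC
        exact mem_filter.2 ⟨mem_univ _, (mem_SmC.1 hC).2⟩
      · intro C hC
        exact mem_filter.2 ⟨mem_univ _, (mem_SmD.1 hC).2⟩
      · have h1 := card_FrC (P := Bs M) (r := r) (thr := thr)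
        have h2 := lt_of_le_of_lt h1 hf
        have h3 := Nat.lt_of_mul_lt_mul_left h2
        change (FrC (Bs M) r thr).card ≤ f
        omega
      · have h1 := card_FrD (P := Bs M) (r := r) (thr := thr)
        have h2 := lt_of_le_of_lt h1 hf
        have h3 := Nat.lt_of_mul_lt_mul_left h2
        change (FrD (Bs M) r thr).card ≤ f
        omega
    obtain ⟨p, hp, c1, c2, c3, _⟩ := h𝒟2 τ (Nb (Bs M) r)
      ⟨Bs M, hP, hr, hne, rfl, rfl, rfl, rfl, rfl⟩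
    have hdec := dec_of hP hr hne hthr0 hqr hqn p c1 c2 c3
    have hζ : (⟨τ, p⟩ : (Σ _ : (Finset (Finset (Fin n)) × Finset (Finset (Fin n))) ×
      (Finset (Finset (Fin n)) × Finset (Finset (Fin n))),
      Finset (Finset (Fin n)) × Finset (Finset (Fin n)))) ∈ I := by
      rw [hI, mem_sigma]
      exact ⟨hτq, hp⟩
    set W := W0 (Bs M) (SmC (Bs M) r q) (SmD (Bs M) r q) p.1
      (kn r (SmC (Bs M) r q) (SmD (Bs M) r q) (FrC (Bs M) r thr) (FrD (Bs M) r thr) p) D₀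
      with hW
    by_cases hG : n * G₁ ≤ (K0 r D₀ \ domK r D₀ W).card
    · left
      rw [Set.mem_iUnion₂]
      exact ⟨⟨τ, p⟩, hζ, hMC, hdec, hG⟩
    · right
      rw [Set.mem_iUnion₂]
      refine ⟨⟨τ, p⟩, hζ, ?_⟩
      rw [Set.mem_iUnion₂]
      refine ⟨W, ?_, hMC, hdec, rfl⟩
      rw [mem_Wf]
      refine ⟨stable_W0 hdec hD₀S, ?_, by omega⟩
      intro C hC
      obtain ⟨X, hX, rfl⟩ := mem_W0.1 hC
      obtain ⟨hXV, hX1⟩ := mem_V0.1 hX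
      have hXr := hdec.hAr X (mem_Vst.1 hXV).1
      rw [mem_powersetCard]
      refine ⟨?_, ?_⟩
      · intro w hw
        exact mem_compl.2 (mem_sdiff.1 hw).2
      · have := card_sdiff_add_card_inter X D₀
        omega
  have hfinU : ((⋃ ζ ∈ I, Ma ζ) ∪ ⋃ ζ ∈ I, ⋃ W ∈ Wf r D₀ (n * G₁), Mb ζ W).Finite := by
    apply hfin.subset
    rintro M (hM | hM)
    · rw [Set.mem_iUnion₂] at hM
      obtain ⟨ζ, _, hζ⟩ := hM
      exact hζ.1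
    · rw [Set.mem_iUnion₂] at hM
      obtain ⟨ζ, _, hζ⟩ := hM
      rw [Set.mem_iUnion₂] at hζ
      obtain ⟨W, _, hW⟩ := hζ
      exact hW.1
  have hD₀I : ∀ ζ ∈ I, D₀ ∈ ζ.1.1.2 := by
    intro ζ hζ
    rw [hI, mem_sigma, mem_filter] at hζ
    exact hζ.1.2
  have hA : ∀ ζ ∈ I, ((Ma ζ).ncard : ℝ) ≤ 𝒞.ncard * (1 / 2) ^ G₁ := by
    intro ζ hζ
    have h1 := caseA' 𝒞 hE hup (r := r) (q := q) (Sc := ζ.1.1.1) (Sd := ζ.1.1.2) (A := ζ.2.1)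
      (Kn := kn r ζ.1.1.1 ζ.1.1.2 ζ.1.2.1 ζ.1.2.2 ζ.2) hn (hD₀I ζ hζ) hqr hqn G₁
    have h2 : ((Ma ζ).ncard : ℝ) * 2 ^ G₁ ≤ 𝒞.ncard := by exact_mod_cast h1
    rw [one_div, inv_pow, ← div_eq_mul_inv, le_div_iff₀ (by positivity)]
    exact h2
  have hB : ∀ ζ ∈ I, ∀ W, ((Mb ζ W).ncard : ℝ) ≤ 𝒞.ncard * (1 / 2) ^ G₂ := by
    intro ζ hζ W
    have h1 := caseB' 𝒞 hE hup (r := r) (q := q) (Sc := ζ.1.1.1) (Sd := ζ.1.1.2) (A := ζ.2.1)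
      (Kn := kn r ζ.1.1.1 ζ.1.1.2 ζ.1.2.1 ζ.1.2.2 ζ.2) hn (hD₀I ζ hζ) hqr hqn G₂ W hG₂
    have h2 : ((Mb ζ W).ncard : ℝ) * 2 ^ G₂ ≤ 𝒞.ncard := by exact_mod_cast h1
    rw [one_div, inv_pow, ← div_eq_mul_inv, le_div_iff₀ (by positivity)]
    exact h2
  have hIc : (I.card : ℝ) ≤ (2 ^ ((n + 1) ^ q) * (2 ^ n + 1) ^ f) ^ 2 * c := by
    rw [hI, card_sigma]
    push_cast
    calc ∑ τ ∈ (quads n q f).filter (fun τ => D₀ ∈ τ.1.2), ((𝒟 τ).card : ℝ)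
        ≤ ∑ _τ ∈ (quads n q f).filter (fun τ => D₀ ∈ τ.1.2), c :=
          sum_le_sum (fun τ _ => h𝒟1 τ)
      _ = ((quads n q f).filter (fun τ => D₀ ∈ τ.1.2)).card * c := by
          rw [sum_const, nsmul_eq_mul]
      _ ≤ _ := by
          apply mul_le_mul_of_nonneg_right _ hc0
          have h1 := (card_filter_le (quads n q f) (fun τ => D₀ ∈ τ.1.2)).trans
            (card_quads n q f)
          exact_mod_cast h1
  have h1 : (𝓜.ncard : ℝ) ≤ ∑ ζ ∈ I, ((Ma ζ).ncard : ℝ) +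
      ∑ ζ ∈ I, ∑ W ∈ Wf r D₀ (n * G₁), ((Mb ζ W).ncard : ℝ) := by
    have e1 := (Set.ncard_le_ncard hsub hfinU).trans (Set.ncard_union_le _ _)
    have e2 := set_ncard_biUnion_le I Ma
    have e3 := set_ncard_biUnion_le I (fun ζ => ⋃ W ∈ Wf r D₀ (n * G₁), Mb ζ W)
    have e4 : ∑ ζ ∈ I, (⋃ W ∈ Wf r D₀ (n * G₁), Mb ζ W).ncard ≤
        ∑ ζ ∈ I, ∑ W ∈ Wf r D₀ (n * G₁), (Mb ζ W).ncard :=
      sum_le_sum (fun ζ _ => set_ncard_biUnion_le _ _)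
    have e5 := e1.trans (Nat.add_le_add e2 (e3.trans e4))
    exact_mod_cast e5
  have hw0 : 0 ≤ w := le_trans (by positivity) hw
  calc (𝓜.ncard : ℝ) ≤ ∑ ζ ∈ I, ((Ma ζ).ncard : ℝ) +
        ∑ ζ ∈ I, ∑ W ∈ Wf r D₀ (n * G₁), ((Mb ζ W).ncard : ℝ) := h1
    _ ≤ ∑ _ζ ∈ I, (𝒞.ncard : ℝ) * (1 / 2) ^ G₁ +
        ∑ _ζ ∈ I, ∑ _W ∈ Wf r D₀ (n * G₁), (𝒞.ncard : ℝ) * (1 / 2) ^ G₂ :=
        add_le_add (sum_le_sum hA) (sum_le_sum (fun ζ hζ => sum_le_sum (fun W _ => hB ζ hζ W)))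
    _ = I.card * ((1 / 2) ^ G₁ + (Wf r D₀ (n * G₁)).card * (1 / 2) ^ G₂) * 𝒞.ncard := by
        simp only [sum_const, nsmul_eq_mul]
        ring
    _ ≤ (2 ^ ((n + 1) ^ q) * (2 ^ n + 1) ^ f) ^ 2 * c *
        ((1 / 2) ^ G₁ + w * (1 / 2) ^ G₂) * 𝒞.ncard := by
        apply mul_le_mul_of_nonneg_right _ (by positivity)
        apply mul_le_mul hIc _ (by positivity) (by positivity)
        apply add_le_add le_rfl
        exact mul_le_mul_of_nonneg_right hw (by positivity)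

end Pool.Agent.Matroid6d
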