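import Pool.Agent.Matroid6d.Dual

/-!
Fundamental circuits and cocircuits, and orthogonality, for families with the exchange property.
-/

set_option autoImplicit false

namespace Pool.Agent.Matroid6d

open Finset

variable {n : ℕ}

/-- `D` is a cocircuit that is disjoint from some set of rank-many elements. -/
def CoC (P : Finset (Fin n) → Prop) (r : ℕ) (D : Finset (Fin n)) : Prop :=
  ∃ Y : Finset (Fin n), Y.card = r ∧ ¬ P Y ∧ (Cs P Y).Nonempty ∧ Ds P Y = D

/-- `C` is a circuit with at most rank-many elements. -/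
def Cir (P : Finset (Fin n) → Prop) (r : ℕ) (C : Finset (Fin n)) : Prop :=
  ∃ Y : Finset (Fin n), Y.card = r ∧ ¬ P Y ∧ (Cs P Y).Nonempty ∧ Cs P Y = C

variable {P : Finset (Fin n) → Prop} {X Y B C D : Finset (Fin n)} {x y z : Fin n} {r : ℕ}

lemma coC_Pd (hrn : r ≤ n) : CoC (Pd P) (n - r) C ↔ Cir P r C := by
  constructor
  · rintro ⟨Y, h1, h2, h3, h4⟩
    refine ⟨Yᶜ, ?_, h2, ?_, ?_⟩
    · rw [card_compl', h1]
      omega
    · rw [Cs_Pd'] at h3
      exact Ds_nonempty_iff.1 h3
    · rw [← Ds_Pd']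
      exact h4
  · rintro ⟨Y, h1, h2, h3, h4⟩
    refine ⟨Yᶜ, by rw [card_compl', h1], ?_, ?_, ?_⟩
    · unfold Pd
      rwa [compl_compl]
    · rw [Cs_Pd]
      exact Ds_nonempty_iff.2 h3
    · rw [Ds_Pd]
      exact h4

lemma cir_Pd (hrn : r ≤ n) : Cir (Pd P) (n - r) D ↔ CoC P r D := by
  have h := coC_Pd (P := Pd P) (C := D) (r := n - r) (by omega)
  rw [Pd_Pd, show n - (n - r) = r by omega] at h
  exact h.symm

lemma not_of_disjoint (hP : Exch P) (hD : CoC P r D) (h : Disjoint X D) : ¬ P X := by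
  obtain ⟨Y, _, h2, h3, rfl⟩ := hD
  exact not_of_disjoint_Ds hP h2 h3 h

lemma not_of_subset (hP : Exch P) (hr : ∀ X, P X → X.card = r) (hC : Cir P r C) (h : C ⊆ X) :
    ¬ P X := by
  obtain ⟨Y, h1, h2, h3, rfl⟩ := hC
  exact not_of_Cs_subset hP hr h1 h2 h3 h

/-- A cocircuit meeting a basis in one element is the fundamental cocircuit. -/
lemma fund_coC (hP : Exch P) (hD : CoC P r D) (hB : P B) (hBD : B ∩ D = {y}) (hx : x ∈ D)
    (hxy : x ≠ y) : P (insert x (B.erase y)) := by
  have hD' := hD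
  obtain ⟨Y, h1, h2, h3, rfl⟩ := hD
  obtain ⟨hxY, x', hx', hB'⟩ := mem_Ds.1 hx
  have hyB : y ∈ B ∩ Ds P Y := by rw [hBD]; exact mem_singleton_self _
  rw [mem_inter] at hyB
  have hyY : y ∉ Y := (mem_Ds.1 hyB.2).1
  obtain ⟨b, hb, hbB, hPb⟩ := hP _ _ hB hB' y hyB.1 (by
    rw [mem_insert]
    rintro (h | h)
    · exact hxy h.symm
    · exact hyY (mem_of_mem_erase h))
  by_cases hbx : b = x
  · rw [← hbx]
    exact hPb
  · exfalso
    refine not_of_disjoint hP hD' ?_ hPb
    rw [disjoint_left]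
    intro w hw hwD
    rw [mem_insert] at hw
    rcases hw with rfl | hw
    · rw [mem_insert] at hb
      rcases hb with hb | hb
      · exact hbx hb
      · exact (mem_Ds.1 hwD).1 (mem_of_mem_erase hb)
    · rw [mem_erase] at hw
      have : w ∈ B ∩ Ds P Y := mem_inter.2 ⟨hw.2, hwD⟩
      rw [hBD, mem_singleton] at this
      exact hw.1 this

/-- A circuit in a basis plus one element is the fundamental circuit. -/
lemma fund_cir (hP : Exch P) (hne : ∃ B, P B) (hrn : r ≤ n) (hC : Cir P r C) (hB : P B)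
    (hy : y ∉ B) (hCB : C ⊆ insert y B) (hyC : y ∈ C) (hx : x ∈ C) (hxy : x ≠ y) :
    P (insert y (B.erase x)) := by
  have hxB : x ∈ B := by
    have := hCB hx
    rw [mem_insert] at this
    exact this.resolve_left hxy
  have h := fund_coC (P := Pd P) (r := n - r) (D := C) (B := Bᶜ) (y := y) (x := x)
    (exch_Pd hP hne) ((coC_Pd hrn).2 hC) (by unfold Pd; rwa [compl_compl]) (by
      ext w
      rw [mem_inter, mem_compl, mem_singleton]
      constructor
      · rintro ⟨h1, h2⟩
        have := hCB h2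
        rw [mem_insert] at this
        exact this.resolve_right h1
      · rintro rfl
        exact ⟨hy, hyC⟩) hx hxy
  rw [← compl_swap hxB hy] at h
  unfold Pd at h
  rwa [compl_compl] at h

/-- Orthogonality. -/
lemma orth (hP : Exch P) (hD : CoC P r D) (hX : ¬ P X) (hXD : X ∩ D = {x}) : x ∉ Cs P X := by
  intro hx
  obtain ⟨hxX, y, hy, hB⟩ := mem_Cs.1 hx
  have hxD : x ∈ X ∩ D := by rw [hXD]; exact mem_singleton_self _
  rw [mem_inter] at hxD
  have hxy : x ≠ y := fun h => hy (h ▸ hxX)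
  have hsub : ∀ w ∈ insert y (X.erase x), w ∈ D → w = y := by
    intro w hw hwD
    rw [mem_insert] at hw
    rcases hw with h | h
    · exact h
    · rw [mem_erase] at h
      have : w ∈ X ∩ D := mem_inter.2 ⟨h.2, hwD⟩
      rw [hXD, mem_singleton] at this
      exact absurd this h.1
  have hyD : y ∈ D := by
    by_contra h
    refine not_of_disjoint hP hD ?_ hB
    rw [disjoint_left]
    intro w hw hwD
    exact h (hsub w hw hwD ▸ hwD)
  have h := fund_coC hP hD hB (y := y) (x := x) (by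
    ext w
    rw [mem_inter, mem_singleton]
    constructor
    · rintro ⟨h1, h2⟩
      exact hsub w h1 h2
    · rintro rfl
      exact ⟨mem_insert_self _ _, hyD⟩) hxD.2 hxy
  rw [swap_back hxX hy] at h
  exact hX h

/-- The dual of orthogonality. -/
lemma orth' (hP : Exch P) (hne : ∃ B, P B) (hrn : r ≤ n) (hC : Cir P r C) (hX : ¬ P X)
    (hyX : y ∉ X) (hCX : C ⊆ insert y X) (hyC : y ∈ C) : y ∉ Ds P X := by
  rw [← Cs_Pd]
  apply orth (exch_Pd hP hne) ((coC_Pd hrn).2 hC) (by unfold Pd; rwa [compl_compl])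
  ext w
  rw [mem_inter, mem_compl, mem_singleton]
  constructor
  · rintro ⟨h1, h2⟩
    have := hCX h2
    rw [mem_insert] at this
    exact this.resolve_right h1
  · rintro rfl
    exact ⟨hyX, hyC⟩

open Classical in
/-- The fundamental cocircuit. -/
noncomputable def fcc (P : Finset (Fin n) → Prop) (X : Finset (Fin n)) (x : Fin n) :
    Finset (Fin n) := insert x (univ.filter (fun y => y ∉ X ∧ P (insert y (X.erase x))))

open Classical in
/-- The fundamental circuit. -/
noncomputable def fc (P : Finset (Fin n) → Prop) (X : Finset (Fin n)) (y : Fin n) :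
    Finset (Fin n) := insert y (univ.filter (fun x => x ∈ X ∧ P (insert y (X.erase x))))

lemma mem_fcc : y ∈ fcc P X x ↔ y = x ∨ (y ∉ X ∧ P (insert y (X.erase x))) := by
  classical
  simp only [fcc, mem_insert, mem_filter, mem_univ, true_and]

lemma mem_fc : x ∈ fc P X y ↔ x = y ∨ (x ∈ X ∧ P (insert y (X.erase x))) := by
  classical
  simp only [fc, mem_insert, mem_filter, mem_univ, true_and]

lemma fcc_inter (hx : x ∈ X) : X ∩ fcc P X x = {x} := by
  ext w
  rw [mem_inter, mem_fcc, mem_singleton]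
  constructor
  · rintro ⟨h1, h2 | h2⟩
    · exact h2
    · exact absurd h1 h2.1
  · rintro rfl
    exact ⟨hx, Or.inl rfl⟩

lemma fc_subset : fc P X y ⊆ insert y X := by
  intro w hw
  rw [mem_fc] at hw
  rw [mem_insert]
  rcases hw with h | h
  · exact Or.inl h
  · exact Or.inr h.1

/-- Fundamental cocircuits are cocircuits. -/
lemma coC_fcc (hP : Exch P) (hr : ∀ X, P X → X.card = r) (hX : P X) (hx : x ∈ X)
    (hz : z ∉ X) (hzD : z ∉ fcc P X x) : CoC P r (fcc P X x) := by
  have hzx : z ≠ x := fun h => hz (h ▸ hx)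
  rw [mem_fcc, not_or, not_and] at hzD
  have hnY : ¬ P (insert z (X.erase x)) := hzD.2 hz
  have hback : insert x ((insert z (X.erase x)).erase z) = X := swap_back hx hz
  have hxY : x ∉ insert z (X.erase x) := notMem_swap hx hz
  have hers : (insert z (X.erase x)).erase z = X.erase x :=
    erase_insert (fun h => hz (mem_of_mem_erase h))
  have hzC : z ∈ Cs P (insert z (X.erase x)) :=
    mem_Cs.2 ⟨mem_insert_self _ _, x, hxY, by rw [hback]; exact hX⟩
  refine ⟨insert z (X.erase x), by rw [card_swap hx hz, hr X hX], hnY, ⟨z, hzC⟩, ?_⟩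
  ext w
  rw [mem_fcc]
  constructor
  · intro hw
    have h1 := swap_basis hP hnY hzC hw
    rw [hers] at h1
    have h2 := (mem_Ds.1 hw).1
    rw [mem_insert, mem_erase, not_or, not_and] at h2
    by_cases hwx : w = x
    · exact Or.inl hwx
    · exact Or.inr ⟨h2.2 hwx, h1⟩
  · rintro (rfl | ⟨h1, h2⟩)
    · exact mem_Ds.2 ⟨hxY, z, mem_insert_self _ _, by rw [hback]; exact hX⟩
    · have hwz : w ≠ z := fun h => hzD.2 hz (h ▸ h2)
      refine mem_Ds.2 ⟨?_, z, mem_insert_self _ _, by rw [hers]; exact h2⟩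
      rw [mem_insert, mem_erase]
      rintro (h | h)
      · exact hwz h
      · exact h1 h.2

lemma fcc_Pd (hy : y ∉ X) : fcc (Pd P) Xᶜ y = fc P X y := by
  ext w
  rw [mem_fcc, mem_fc, mem_compl, not_not]
  constructor
  · rintro (h | ⟨h1, h2⟩)
    · exact Or.inl h
    · right
      rw [← compl_swap h1 hy] at h2
      unfold Pd at h2
      rw [compl_compl] at h2
      exact ⟨h1, h2⟩
  · rintro (h | ⟨h1, h2⟩)
    · exact Or.inl h
    · right
      rw [← compl_swap h1 hy]
      unfold Pd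
      rw [compl_compl]
      exact ⟨h1, h2⟩

/-- Fundamental circuits are circuits. -/
lemma cir_fc (hP : Exch P) (hr : ∀ X, P X → X.card = r) (hX : P X) (hy : y ∉ X)
    (hz : z ∈ X) (hzC : z ∉ fc P X y) : Cir P r (fc P X y) := by
  have hXr := hr X hX
  have hXn := card_le_n X
  rw [← coC_Pd (by omega), ← fcc_Pd hy]
  apply coC_fcc (exch_Pd hP ⟨X, hX⟩) (rank_Pd hr) (z := z)
  · unfold Pd
    rwa [compl_compl]
  · exact mem_compl.2 hy
  · rw [mem_compl, not_not]
    exact hz
  · rwa [fcc_Pd hy]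

/-- The shape of the neighbourhood of a non-basis. -/
lemma nb_swap_iff (hP : Exch P) (hX : ¬ P X) (hx : x ∈ X) (hy : y ∉ X) :
    ¬ P (insert y (X.erase x)) ↔ (x ∉ Cs P X ∨ y ∉ Ds P X) := by
  constructor
  · intro h
    by_contra hcon
    push Not at hcon
    exact h (swap_basis hP hX hcon.1 hcon.2)
  · rintro (h | h) h'
    · exact h (mem_Cs.2 ⟨hx, y, hy, h'⟩)
    · exact h (mem_Ds.2 ⟨hy, x, hx, h'⟩)

end Pool.Agent.Matroid6d
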