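import Pool.Agent.Matroid6d.Deg2
import Pool.Agent.Matroid6d.G.Orth

/-!
Non-bases avoiding all short circuits and cocircuits: a circuit that leaves out many elements that
are not explained by short cocircuits lies in many non-bases.
-/

set_option autoImplicit false

namespace Pool.Agent.Matroid6d

open Finset

variable {n : ℕ} {P : Finset (Fin n) → Prop} {X Y : Finset (Fin n)} {x y : Fin n} {r : ℕ}

/-- The second-order lower bound for a part of the removable elements. -/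
theorem deg2I (hP : Exch P) (hYr : Y.card = r) (hY : ¬ P Y) (q : ℕ) (A : Finset (Fin n))
    (hAY : ∀ x ∈ A, x ∈ Y ∧ x ∉ Cs P Y)
    (hq : ∀ x ∈ A, ∀ y ∈ Ds P Y, q ≤ (Ds P (insert y (Y.erase x))).card) :
    A.card * (A.card - 1) * (Ds P Y).card * (q - 1) ≤
      4 * (cell P r (Sum.inl (Cs P Y))).card := by
  classical
  set Q := (A.offDiag ×ˢ Ds P Y).sigma
    (fun p => (Ds P (insert p.2 (Y.erase p.1.1))).erase p.1.1) with hQ
  have mQ : ∀ p ∈ Q, ((p.1.1.1 ∈ Y ∧ p.1.1.1 ∉ Cs P Y) ∧ (p.1.1.2 ∈ Y ∧ p.1.1.2 ∉ Cs P Y) ∧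
      p.1.1.1 ≠ p.1.1.2) ∧ p.1.2 ∈ Ds P Y ∧ p.2 ≠ p.1.1.1 ∧
      p.2 ∈ Ds P (insert p.1.2 (Y.erase p.1.1.1)) := by
    intro p hp
    rw [hQ, mem_sigma, mem_product, mem_offDiag, mem_erase] at hp
    exact ⟨⟨hAY _ hp.1.1.1, hAY _ hp.1.1.2.1, hp.1.1.2.2⟩, hp.1.2, hp.2.1, hp.2.2⟩
  -- the number of quadruples
  have h1 : A.card * (A.card - 1) * (Ds P Y).card * (q - 1) ≤ Q.card := by
    rw [hQ, card_sigma]
    calc A.card * (A.card - 1) * (Ds P Y).card * (q - 1)
        = ∑ _p ∈ A.offDiag ×ˢ Ds P Y, (q - 1) := by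
          have h0 : A.card * (A.card - 1) = A.card * A.card - A.card := by
            rw [Nat.mul_sub, mul_one]
          rw [sum_const, card_product, offDiag_card, smul_eq_mul, h0]
      _ ≤ _ := by
          apply sum_le_sum
          rintro ⟨⟨x₁, x₂⟩, y⟩ hp
          rw [mem_product, mem_offDiag] at hp
          have := hq x₁ hp.1.1 y hp.2
          have h2 := pred_card_le_card_erase (s := Ds P (insert y (Y.erase x₁))) (a := x₁)
          simp only
          omega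
  set f : (Σ _ : (Fin n × Fin n) × Fin n, Fin n) → Finset (Fin n) :=
    fun p => insert p.2 ((insert p.1.2 (Y.erase p.1.1.1)).erase p.1.1.2) with hf
  have h2 : Q.card ≤ 4 * (Q.image f).card := by
    apply card_le_mul_card_image
    intro W hW
    have key : ∀ p ∈ Q, f p = W → p.1.1.1 ∈ Y \ W ∧ p.1.1.2 ∈ Y \ W ∧ p.1.1.1 ≠ p.1.1.2 ∧
        p.1.2 ∈ W \ Y ∧ p.2 ∈ W \ Y ∧ p.1.2 ≠ p.2 ∧ (∀ w ∈ Y \ W, w = p.1.1.1 ∨ w = p.1.1.2) ∧
        (∀ w ∈ W \ Y, w = p.1.2 ∨ w = p.2) := by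
      rintro ⟨⟨⟨x₁, x₂⟩, y⟩, z⟩ hp hfp
      replace hp := mQ _ hp
      simp only at hp
      obtain ⟨⟨⟨a1, a2⟩, ⟨a3, a4⟩, a5⟩, a6, a7, a8⟩ := hp
      have hyY := (mem_Ds.1 a6).1
      have hzZ := (mem_Ds.1 a8).1
      rw [mem_insert, mem_erase, not_or, not_and] at hzZ
      have hzY : z ∉ Y := fun h => hzZ.2 a7 h
      rw [← hfp, hf]
      simp only
      have mW : ∀ w, w ∈ insert z ((insert y (Y.erase x₁)).erase x₂) ↔
          w = z ∨ (w ≠ x₂ ∧ (w = y ∨ (w ≠ x₁ ∧ w ∈ Y))) := by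
        intro w
        rw [mem_insert, mem_erase, mem_insert, mem_erase]
      have e1 : y ≠ x₁ := fun h => hyY (h ▸ a1)
      have e2 : y ≠ x₂ := fun h => hyY (h ▸ a3)
      have e3 : z ≠ x₂ := fun h => hzY (h ▸ a3)
      refine ⟨mem_sdiff.2 ⟨a1, ?_⟩, mem_sdiff.2 ⟨a3, ?_⟩, a5, mem_sdiff.2 ⟨?_, hyY⟩,
        mem_sdiff.2 ⟨?_, hzY⟩, fun h => hzZ.1 h.symm, ?_, ?_⟩
      · rw [mW]
        rintro (h | ⟨_, h | h⟩)
        · exact a7 h.symm
        · exact e1 h.symm
        · exact h.1 rfl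
      · rw [mW]
        rintro (h | ⟨h, _⟩)
        · exact e3 h.symm
        · exact h rfl
      · rw [mW]
        exact Or.inr ⟨e2, Or.inl rfl⟩
      · rw [mW]
        exact Or.inl rfl
      · intro w hw
        rw [mem_sdiff, mW] at hw
        by_contra hcon
        push Not at hcon
        exact hw.2 (Or.inr ⟨hcon.2, Or.inr ⟨hcon.1, hw.1⟩⟩)
      · intro w hw
        rw [mem_sdiff, mW] at hw
        rcases hw.1 with h | ⟨_, h | h⟩
        · exact Or.inr h
        · exact Or.inl h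
        · exact absurd h.2 hw.2
    rw [mem_image] at hW
    obtain ⟨p₀, hp₀, hfp₀⟩ := hW
    obtain ⟨_, _, _, _, _, _, b7, b8⟩ := key p₀ hp₀ hfp₀
    have c1 : (Y \ W).card ≤ 2 := by
      refine (card_le_card (t := {p₀.1.1.1, p₀.1.1.2}) ?_).trans card_le_two
      intro w hw
      rw [mem_insert, mem_singleton]
      exact b7 w hw
    have c2 : (W \ Y).card ≤ 2 := by
      refine (card_le_card (t := {p₀.1.2, p₀.2}) ?_).trans card_le_two
      intro w hw
      rw [mem_insert, mem_singleton]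
      exact b8 w hw
    calc (Q.filter (fun p => f p = W)).card
        ≤ ((Y \ W).offDiag ×ˢ (W \ Y).offDiag).card := by
          apply card_le_card_of_injOn
            (fun p : (Σ _ : (Fin n × Fin n) × Fin n, Fin n) => (p.1.1, (p.1.2, p.2)))
          · intro p hp
            rw [mem_coe, mem_filter] at hp
            obtain ⟨b1, b2, b3, b4, b5, b6, _, _⟩ := key p hp.1 hp.2
            rw [mem_coe, mem_product, mem_offDiag, mem_offDiag]
            exact ⟨⟨b1, b2, b3⟩, b4, b5, b6⟩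
          · rintro ⟨⟨⟨x₁, x₂⟩, y⟩, z⟩ _ ⟨⟨⟨x₁', x₂'⟩, y'⟩, z'⟩ _ h
            simp only [Prod.mk.injEq] at h
            obtain ⟨⟨rfl, rfl⟩, rfl, rfl⟩ := h
            rfl
      _ ≤ 2 * 2 := by
          rw [card_product]
          exact Nat.mul_le_mul (card_offDiag_le_two c1) (card_offDiag_le_two c2)
      _ = 4 := rfl
  have h3 : (Q.image f).card ≤ (cell P r (Sum.inl (Cs P Y))).card := by
    apply card_le_card
    intro W hW
    rw [mem_image] at hW
    obtain ⟨⟨⟨⟨x₁, x₂⟩, y⟩, z⟩, hp, rfl⟩ := hW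
    replace hp := mQ _ hp
    simp only at hp
    obtain ⟨⟨⟨a1, a2⟩, ⟨a3, a4⟩, a5⟩, a6, a7, a8⟩ := hp
    have hyY := (mem_Ds.1 a6).1
    have s1 := Cs_swap hP hY a1 a2 a6
    have m2 : x₂ ∈ insert y (Y.erase x₁) := mem_insert_of_mem (mem_erase.2 ⟨fun h => a5 h.symm, a3⟩)
    have m3 : x₂ ∉ Cs P (insert y (Y.erase x₁)) := by rw [s1.2]; exact a4
    have s2 := Cs_swap hP s1.1 m2 m3 a8
    rw [hf]
    refine mem_cell_inl.2 ⟨⟨?_, s2.1⟩, by rw [s2.2, s1.2]⟩
    simp only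
    rw [card_swap m2 (mem_Ds.1 a8).1, card_swap a1 hyY, hYr]
  omega


open Classical in
/-- The elements of `X` that are singled out by a member of `Sd`. -/
noncomputable def Is (Sd : Finset (Finset (Fin n))) (X : Finset (Fin n)) : Finset (Fin n) :=
  X.filter (fun x => ∃ D ∈ Sd, X ∩ D = {x})

lemma mem_Is {Sd : Finset (Finset (Fin n))} : x ∈ Is Sd X ↔ x ∈ X ∧ ∃ D ∈ Sd, X ∩ D = {x} := by
  classical
  simp only [Is, mem_filter]

/-- A circuit with many unexplained elements outside lies in many non-bases. -/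
theorem many_cell (hP : Exch P) (hXr : X.card = r) (hX : ¬ P X) (hne : (Cs P X).Nonempty)
    (q : ℕ) (Sd : Finset (Finset (Fin n)))
    (hSd : ∀ D : Finset (Fin n), CoC P r D → D.card ≤ q → D ∈ Sd)
    (hav : ∀ D ∈ Sd, ¬ Disjoint X D) (A : Finset (Fin n))
    (hA : ∀ x ∈ A, (x ∈ X ∧ x ∉ Cs P X) ∧ x ∉ Is Sd X) :
    A.card * (A.card - 1) * (q * q) ≤ 4 * (cell P r (Sum.inl (Cs P X))).card := by
  have h0 : q ≤ (Ds P X).card := by
    by_contra hlt
    push Not at hlt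
    exact hav _ (hSd _ ⟨X, hXr, hX, hne, rfl⟩ hlt.le) disjoint_Ds
  have h1 : ∀ x ∈ A, ∀ y ∈ Ds P X, q + 1 ≤ (Ds P (insert y (X.erase x))).card := by
    intro x hx y hy
    obtain ⟨⟨hxX, hxC⟩, hxI⟩ := hA x hx
    have hyX := (mem_Ds.1 hy).1
    obtain ⟨s1, s2⟩ := Cs_swap hP hX hxX hxC hy
    by_contra hlt
    push Not at hlt
    set D := Ds P (insert y (X.erase x)) with hD
    have hDS : D ∈ Sd := hSd _ ⟨_, by rw [card_swap hxX hyX, hXr], s1, by rw [s2]; exact hne,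
      rfl⟩ (by omega)
    apply hxI
    rw [mem_Is]
    refine ⟨hxX, D, hDS, ?_⟩
    have hsub : ∀ w ∈ X, w ∈ D → w = x := by
      intro w hw hwD
      by_contra hwx
      exact (mem_Ds.1 hwD).1 (mem_insert_of_mem (mem_erase.2 ⟨hwx, hw⟩))
    have hxD : x ∈ D := by
      by_contra hxD
      refine hav D hDS ?_
      rw [disjoint_left]
      intro w hw hwD
      exact hxD (hsub w hw hwD ▸ hwD)
    ext w
    rw [mem_inter, mem_singleton]
    constructor
    · rintro ⟨g1, g2⟩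
      exact hsub w g1 g2
    · rintro rfl
      exact ⟨hxX, hxD⟩
  have h2 := deg2I hP hXr hX (q + 1) A (fun x hx => (hA x hx).1) h1
  rw [Nat.add_sub_cancel] at h2
  refine le_trans ?_ h2
  rw [← mul_assoc]
  exact Nat.mul_le_mul_right _ (Nat.mul_le_mul_left _ h0)

end Pool.Agent.Matroid6d
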