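import Pool.Agent.Matroid6d.WNum

/-!
Binomial coefficients and the choice of the parameters.
-/

set_option autoImplicit false

namespace Pool.Agent.Matroid6d

open Filter Topology

lemma choose_pred_le {n k : ℕ} (h2 : 8 * (k + 1) ≤ 7 * n) :
    n.choose k ≤ 7 * n.choose (k + 1) := by
  have h := Nat.choose_succ_right_eq n k
  have hpos : 0 < n - k := by omega
  apply Nat.le_of_mul_le_mul_right _ hpos
  rw [← h, mul_comm (n.choose (k + 1)) (k + 1), mul_comm (7 * n.choose (k + 1)) (n - k),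
    ← mul_assoc, mul_comm (n - k) 7]
  exact Nat.mul_le_mul_right _ (by omega)

lemma two_pow_le_central (k : ℕ) : 2 ^ k ≤ (2 * k).choose k := by
  induction k with
  | zero => simp
  | succ k ih =>
    have h := Nat.succ_mul_centralBinom_succ k
    have h1 : k.centralBinom = (2 * k).choose k := rfl
    have h2 : (k + 1).centralBinom = (2 * (k + 1)).choose (k + 1) := rfl
    rw [h1, h2] at h
    have h3 : (k + 1) * 2 ^ (k + 1) ≤ (k + 1) * (2 * (k + 1)).choose (k + 1) := by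
      rw [h, pow_succ]
      calc (k + 1) * (2 ^ k * 2) = (2 * (k + 1)) * 2 ^ k := by ring
        _ ≤ (2 * (2 * k + 1)) * (2 * k).choose k := Nat.mul_le_mul (by omega) ih
    exact Nat.le_of_mul_le_mul_left h3 (by omega)

lemma choose_two_pow {n r : ℕ} (h1 : n ≤ 8 * r) (h2 : 8 * r ≤ 7 * n) :
    2 ^ (n / 8) ≤ n.choose r := by
  have key : ∀ k, n / 8 ≤ k → 2 * k ≤ n → 2 ^ (n / 8) ≤ n.choose k := by
    intro k hk hk2
    calc 2 ^ (n / 8) ≤ 2 ^ k := Nat.pow_le_pow_right (by norm_num) hk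
      _ ≤ (2 * k).choose k := two_pow_le_central k
      _ ≤ n.choose k := Nat.choose_le_choose k hk2
  rcases le_total (2 * r) n with h | h
  · exact key r (by omega) h
  · rw [← Nat.choose_symm (by omega)]
    exact key (n - r) (by omega) (by omega)

lemma choose_sub {n r : ℕ} (hr : 8 * r ≤ 7 * n) :
    ∀ d : ℕ, 16 * d ≤ n → n.choose r ≤ 16 ^ d * (n - d).choose r := by
  intro d
  induction d with
  | zero => intro _; simp
  | succ d ih =>
    intro hd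
    have h1 := ih (by omega)
    obtain ⟨m, hm⟩ : ∃ m, n - d = m + 1 := ⟨n - d - 1, by omega⟩
    rw [hm] at h1
    have hm' : n - (d + 1) = m := by omega
    rw [hm']
    have h2 := Nat.choose_mul_succ_eq m r
    have h3 : (m + 1).choose r ≤ 16 * m.choose r := by
      have hpos : 0 < m + 1 - r := by omega
      apply Nat.le_of_mul_le_mul_right _ hpos
      rw [← h2, mul_comm 16 (m.choose r), mul_assoc]
      exact Nat.mul_le_mul_left _ (by omega)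
    calc n.choose r ≤ 16 ^ d * (m + 1).choose r := h1
      _ ≤ 16 ^ d * (16 * m.choose r) := Nat.mul_le_mul_left _ h3
      _ = 16 ^ (d + 1) * m.choose r := by rw [pow_succ]; ring

/-- The parameters. -/
lemma params (C : ℕ) : ∃ n₀ : ℕ, ∀ n : ℕ, n₀ ≤ n → ∃ s L : ℕ, 1 ≤ L ∧ 1 ≤ s ∧ s ^ 4 ≤ n ∧
    n ≤ 16 * s ^ 4 ∧ n + 1 ≤ 2 ^ L ∧ C * L ^ 2 ≤ s ∧ C * n ^ 2 ≤ 2 ^ (n / 16) := by
  obtain ⟨L₀, hL₀⟩ := ev_small 8 (1 / 2) (2 * (C : ℝ) ^ 4) 1 (by norm_num) (by norm_num)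
    (by positivity) one_pos
  obtain ⟨j₀, hj₀⟩ := ev_small 2 (1 / 2) (256 * (C : ℝ)) 1 (by norm_num) (by norm_num)
    (by positivity) one_pos
  refine ⟨2 ^ (L₀ + 1) + 16 * (j₀ + 1), fun n hn => ?_⟩
  have hpos0 : 0 < 2 ^ (L₀ + 1) := by positivity
  have hnj : 16 * (j₀ + 1) ≤ n := le_trans (Nat.le_add_left _ _) hn
  have hn0 : n ≠ 0 := by omega
  obtain ⟨L, hL⟩ : ∃ L, L = Nat.log 2 n + 1 := ⟨_, rfl⟩
  have h1 : n < 2 ^ L := by rw [hL]; exact Nat.lt_pow_succ_log_self (by norm_num) n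
  have h2 : 2 ^ (L - 1) ≤ n := by
    rw [hL, Nat.add_sub_cancel]
    exact Nat.pow_log_le_self 2 hn0
  have hLL : L₀ ≤ L := by
    have : 2 ^ (L₀ + 1) < 2 ^ L := lt_of_le_of_lt (by omega) h1
    have := (Nat.pow_lt_pow_iff_right (by norm_num : 1 < 2)).1 this
    omega
  obtain ⟨v, hv⟩ : ∃ v, v = Nat.sqrt n := ⟨_, rfl⟩
  obtain ⟨s, hs⟩ : ∃ s, s = Nat.sqrt v := ⟨_, rfl⟩
  have v1 : v * v ≤ n := by rw [hv]; exact Nat.sqrt_le n
  have v2 : n < (v + 1) * (v + 1) := by rw [hv]; exact Nat.lt_succ_sqrt n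
  have s1 : s * s ≤ v := by rw [hs]; exact Nat.sqrt_le v
  have s2 : v < (s + 1) * (s + 1) := by rw [hs]; exact Nat.lt_succ_sqrt v
  have hs1 : 1 ≤ s := by
    by_contra h
    have hs0 : s = 0 := by omega
    rw [hs0] at s2
    have hv0 : v = 0 := by omega
    rw [hv0] at v2
    omega
  have h4 : s ^ 4 ≤ n := by
    calc s ^ 4 = (s * s) * (s * s) := by ring
      _ ≤ v * v := Nat.mul_le_mul s1 s1
      _ ≤ n := v1
  have h5 : v + 1 ≤ 4 * (s * s) := by nlinarith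
  have h6 : n ≤ 16 * s ^ 4 := by
    calc n ≤ (v + 1) * (v + 1) := v2.le
      _ ≤ (4 * (s * s)) * (4 * (s * s)) := Nat.mul_le_mul h5 h5
      _ = 16 * s ^ 4 := by ring
  have h7 : n < (s + 1) ^ 4 := by
    calc n < (v + 1) * (v + 1) := v2
      _ ≤ ((s + 1) * (s + 1)) * ((s + 1) * (s + 1)) := Nat.mul_le_mul s2 s2
      _ = (s + 1) ^ 4 := by ring
  refine ⟨s, L, by omega, hs1, h4, h6, h1, ?_, ?_⟩
  · by_contra hlt
    push Not at hlt
    have e1 : (s + 1) ^ 4 ≤ (C * L ^ 2) ^ 4 := Nat.pow_le_pow_left hlt 4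
    have e2 : 2 ^ (L - 1) < (C * L ^ 2) ^ 4 := lt_of_le_of_lt h2 (lt_of_lt_of_le h7 e1)
    have e3 := hL₀ L hLL
    rw [one_div, inv_pow] at e3
    have e4 : 2 * (C : ℝ) ^ 4 * (((L : ℝ) + 1) ^ 8 * (2 ^ L)⁻¹) =
        2 * (C : ℝ) ^ 4 * ((L : ℝ) + 1) ^ 8 / 2 ^ L := by ring
    rw [e4, div_le_iff₀ (by positivity), one_mul] at e3
    have e5 : ((C : ℝ) * (L : ℝ) ^ 2) ^ 4 ≤ (C : ℝ) ^ 4 * ((L : ℝ) + 1) ^ 8 := by
      rw [mul_pow, ← pow_mul]
      apply mul_le_mul_of_nonneg_left _ (by positivity)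
      exact pow_le_pow_left₀ (by positivity) (by linarith) _
    have e6 : ((2 : ℝ)) ^ (L - 1) < ((C : ℝ) * (L : ℝ) ^ 2) ^ 4 := by exact_mod_cast e2
    have e7 : (2 : ℝ) ^ L = 2 * 2 ^ (L - 1) := by
      rw [← pow_succ', show L - 1 + 1 = L by omega]
    nlinarith
  · obtain ⟨j, hj⟩ : ∃ j, j = n / 16 := ⟨_, rfl⟩
    rw [← hj]
    have hjj : j₀ ≤ j := by
      clear h1 h2 h4 h6 h7 v1 v2 s1 s2 h5 hn hpos0
      omega
    have e1 := hj₀ j hjj
    rw [one_div, inv_pow] at e1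
    have e4 : 256 * (C : ℝ) * (((j : ℝ) + 1) ^ 2 * (2 ^ j)⁻¹) =
        256 * (C : ℝ) * ((j : ℝ) + 1) ^ 2 / 2 ^ j := by ring
    rw [e4, div_le_iff₀ (by positivity), one_mul] at e1
    have e5 : n ≤ 16 * (j + 1) := by omega
    have e6 : C * n ^ 2 ≤ 256 * C * (j + 1) ^ 2 := by
      calc C * n ^ 2 ≤ C * (16 * (j + 1)) ^ 2 :=
            Nat.mul_le_mul_left _ (Nat.pow_le_pow_left e5 2)
        _ = 256 * C * (j + 1) ^ 2 := by ring
    refine e6.trans ?_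
    exact_mod_cast e1

end Pool.Agent.Matroid6d
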