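import Pool.Agent.Matroid6d.G.NumA

/-!
Numerical inequalities.
-/

set_option autoImplicit false

namespace Pool.Agent.Matroid6d

/-- The bounds in one level. -/
lemma lev_num (n k s L K B N Q ln : ℝ) (hn : 0 < n) (hk : 0 < k) (hnk : n ≤ 16 * k)
    (hN0 : 0 ≤ N) (hN : N ≤ B * (n * Q)) (hs4 : s ^ 4 ≤ n) (hs : 1 ≤ s) (hL : 1 ≤ L)
    (hK : 1 ≤ K) (hB : 1 ≤ B) (hQ : 0 ≤ Q) (hC : 2 ^ 34 * K * B * L ^ 2 ≤ s) (hln : ln ≤ L)
    (hln0 : 0 ≤ ln) :
    2 * (1 / (2 ^ 27 * B)) * (64 * N / k) ≤ Q / 2 ^ 16 ∧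
    L * (2 * (K * s) + 3) * (2 * (64 * N) / k ^ 2) * ln ≤ Q / 2 ^ 16 ∧
    2 * (64 * N / k) / s ^ 3 + (2 * (64 * N) / k ^ 2) * ln ≤ Q / 2 ^ 13 := by
  have hs0 : 0 < s := by linarith
  have hB0 : 0 < B := by linarith
  have a1 : 64 * N / k ≤ 1024 * (B * Q) := by
    rw [div_le_iff₀ hk]
    have h1 : B * (n * Q) ≤ B * (16 * k * Q) := by
      apply mul_le_mul_of_nonneg_left _ hB0.le
      exact mul_le_mul_of_nonneg_right hnk hQ
    nlinarith
  have a2 : 2 * (64 * N) / k ^ 2 ≤ 2 ^ 15 * (B * Q) / n := by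
    rw [div_le_div_iff₀ (by positivity) hn]
    have h1 : n ^ 2 ≤ 256 * k ^ 2 := by nlinarith
    have h2 : 2 * (64 * N) * n ≤ 2 * (64 * (B * (n * Q))) * n := by
      apply mul_le_mul_of_nonneg_right _ hn.le
      linarith
    have h3 : 0 ≤ 128 * (B * Q) := by positivity
    have h4 := mul_le_mul_of_nonneg_left h1 h3
    calc 2 * (64 * N) * n ≤ 2 * (64 * (B * (n * Q))) * n := h2
      _ = 128 * (B * Q) * n ^ 2 := by ring
      _ ≤ 128 * (B * Q) * (256 * k ^ 2) := h4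
      _ = 2 ^ 15 * (B * Q) * k ^ 2 := by ring
  have a3 : 2 ^ 15 * (B * Q) / n ≤ 2 ^ 15 * (B * Q) / s ^ 4 :=
    div_le_div_of_nonneg_left (by positivity) (by positivity) hs4
  have a4 := a2.trans a3
  have s1 : s ≤ s ^ 3 := le_self_pow₀ hs (by norm_num)
  have hL2 : L ≤ L ^ 2 := le_self_pow₀ hL (by norm_num)
  have hKB : 0 < K * B := by positivity
  refine ⟨?_, ?_, ?_⟩
  · calc 2 * (1 / (2 ^ 27 * B)) * (64 * N / k)
        ≤ 2 * (1 / (2 ^ 27 * B)) * (1024 * (B * Q)) :=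
          mul_le_mul_of_nonneg_left a1 (by positivity)
      _ = Q / 2 ^ 16 := by
          field_simp
          norm_num
  · have b1 : L * (2 * (K * s) + 3) ≤ 5 * (K * s * L) := by
      have : 1 ≤ K * s := one_le_mul_of_one_le_of_one_le hK hs
      nlinarith
    calc L * (2 * (K * s) + 3) * (2 * (64 * N) / k ^ 2) * ln
        ≤ 5 * (K * s * L) * (2 ^ 15 * (B * Q) / s ^ 4) * L := by
          apply mul_le_mul _ hln hln0 (by positivity)
          exact mul_le_mul b1 a4 (by positivity) (by positivity)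
      _ = (5 * 2 ^ 15 * K * B * L ^ 2) * Q / s ^ 3 := by
          field_simp
      _ ≤ Q / 2 ^ 16 := by
          rw [div_le_div_iff₀ (by positivity) (by positivity)]
          have h1 : 5 * 2 ^ 15 * K * B * L ^ 2 * 2 ^ 16 ≤ s ^ 3 := by
            have : 5 * 2 ^ 15 * K * B * L ^ 2 * 2 ^ 16 ≤ 2 ^ 34 * K * B * L ^ 2 := by
              have : 0 ≤ K * B * L ^ 2 := by positivity
              nlinarith
            linarith
          nlinarith
  · have b1 : 2 * (64 * N / k) / s ^ 3 ≤ 2 * (1024 * (B * Q)) / s ^ 3 :=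
      div_le_div_of_nonneg_right (by linarith) (by positivity)
    have b2 : (2 * (64 * N) / k ^ 2) * ln ≤ 2 ^ 15 * (B * Q) / s ^ 4 * L :=
      mul_le_mul a4 hln hln0 (by positivity)
    have b3 : 2 * (1024 * (B * Q)) / s ^ 3 ≤ 2 ^ 15 * (B * Q) * L / s ^ 3 := by
      apply div_le_div_of_nonneg_right _ (by positivity)
      have : 0 ≤ B * Q := by positivity
      nlinarith
    have b4 : 2 ^ 15 * (B * Q) / s ^ 4 * L ≤ 2 ^ 15 * (B * Q) * L / s ^ 3 := by
      rw [div_mul_eq_mul_div]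
      apply div_le_div_of_nonneg_left (by positivity) (by positivity)
      exact pow_le_pow_right₀ hs (by norm_num)
    calc 2 * (64 * N / k) / s ^ 3 + (2 * (64 * N) / k ^ 2) * ln
        ≤ 2 ^ 15 * (B * Q) * L / s ^ 3 + 2 ^ 15 * (B * Q) * L / s ^ 3 := by linarith
      _ = (2 ^ 16 * B * L) * Q / s ^ 3 := by ring
      _ ≤ Q / 2 ^ 13 := by
          rw [div_le_div_iff₀ (by positivity) (by positivity)]
          have h1 : 2 ^ 16 * B * L * 2 ^ 13 ≤ s ^ 3 := by
            have e1 : 2 ^ 16 * B * L * 2 ^ 13 ≤ 2 ^ 34 * K * B * L ^ 2 := by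
              have e2 : B * L ≤ K * B * L ^ 2 := by
                have : B * L ≤ B * L ^ 2 := mul_le_mul_of_nonneg_left hL2 hB0.le
                have : B * L ^ 2 ≤ K * (B * L ^ 2) := by
                  have : 0 ≤ B * L ^ 2 := by positivity
                  nlinarith
                linarith
              have : 0 ≤ K * B * L ^ 2 := by positivity
              nlinarith
            linarith
          nlinarith

lemma two_pow_le_exp (k : ℕ) : (2 : ℝ) ^ k ≤ Real.exp (7 / 10 * k) := by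
  have h : (2 : ℝ) ≤ Real.exp (7 / 10) := by
    rw [← Real.log_le_iff_le_exp (by norm_num)]
    have := Real.log_two_lt_d9
    linarith
  calc (2 : ℝ) ^ k ≤ (Real.exp (7 / 10)) ^ k := pow_le_pow_left₀ (by norm_num) h k
    _ = Real.exp (7 / 10 * k) := by
        rw [← Real.exp_nat_mul]
        congr 1
        ring

lemma two_pow_le_exp' (k : ℕ) : (2 : ℝ) ^ k ≤ Real.exp k := by
  refine (two_pow_le_exp k).trans (Real.exp_le_exp.2 ?_)
  have : (0 : ℝ) ≤ k := by positivity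
  linarith

/-- The bound for the number of patterns. -/
lemma pat_num (n L a : ℕ) (h : n + 1 ≤ 2 ^ L) (hL : 1 ≤ L) :
    (1 + ((n : ℝ) + 1) ^ (2 * a)) ≤ Real.exp (L * (2 * a + 1)) := by
  have h1 : (n : ℝ) + 1 ≤ Real.exp L := by
    refine le_trans ?_ (two_pow_le_exp' L)
    exact_mod_cast h
  have h2 : ((n : ℝ) + 1) ^ (2 * a) ≤ Real.exp (L * (2 * a)) := by
    calc ((n : ℝ) + 1) ^ (2 * a) ≤ (Real.exp L) ^ (2 * a) :=
          pow_le_pow_left₀ (by positivity) h1 _
      _ = Real.exp (L * (2 * a)) := by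
          rw [← Real.exp_nat_mul]
          congr 1
          push_cast
          ring
  have hL' : (1 : ℝ) ≤ L := by exact_mod_cast hL
  have h3 : (1 : ℝ) ≤ Real.exp (L * (2 * a)) := Real.one_le_exp (by positivity)
  have h4 : (2 : ℝ) ≤ Real.exp L := by
    have := Real.add_one_le_exp (L : ℝ)
    linarith
  calc (1 + ((n : ℝ) + 1) ^ (2 * a)) ≤ 2 * Real.exp (L * (2 * a)) := by linarith
    _ ≤ Real.exp L * Real.exp (L * (2 * a)) := mul_le_mul_of_nonneg_right h4 (by positivity)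
    _ = Real.exp (L * (2 * a + 1)) := by
        rw [← Real.exp_add]
        congr 1
        ring

lemma beta_num (n L a : ℕ) (h : n + 1 ≤ 2 ^ L) (hL : 1 ≤ L) :
    (1 + ((n : ℝ) + 1) ^ (2 * a)) * (n : ℝ) ^ 2 ≤ Real.exp (L * (2 * a + 3)) := by
  have h1 : (n : ℝ) ≤ Real.exp L := by
    refine le_trans ?_ (two_pow_le_exp' L)
    have : (n : ℝ) + 1 ≤ 2 ^ L := by exact_mod_cast h
    linarith
  have h2 : (n : ℝ) ^ 2 ≤ Real.exp (L * 2) := by
    calc (n : ℝ) ^ 2 ≤ (Real.exp L) ^ 2 := pow_le_pow_left₀ (by positivity) h1 _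
      _ = Real.exp (L * 2) := by
          rw [← Real.exp_nat_mul]
          congr 1
          push_cast
          ring
  calc (1 + ((n : ℝ) + 1) ^ (2 * a)) * (n : ℝ) ^ 2
      ≤ Real.exp (L * (2 * a + 1)) * Real.exp (L * 2) :=
        mul_le_mul (pat_num n L a h hL) h2 (by positivity) (by positivity)
    _ = Real.exp (L * (2 * a + 3)) := by
        rw [← Real.exp_add]
        congr 1
        ring

/-- The condition on `u`. -/
lemma u_num (n L s K : ℕ) (B : ℝ) (h : n + 1 ≤ 2 ^ L) (hL : 1 ≤ L) (hs : 1 ≤ s) (hK : 1 ≤ K)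
    (hB : 1 ≤ B) (hC : 2 ^ 34 * K * B * L ^ 2 ≤ s) :
    Real.exp (-(1 / (2 ^ 27 * B))) + (1 + ((n : ℝ) + 1) ^ (2 * (K * s))) *
      Real.exp (-(1 / (2 ^ 27 * B) * ((s ^ 3 : ℕ) : ℝ))) ≤ 1 := by
  have hs' : (1 : ℝ) ≤ s := by exact_mod_cast hs
  have hK' : (1 : ℝ) ≤ K := by exact_mod_cast hK
  have hL' : (1 : ℝ) ≤ L := by exact_mod_cast hL
  have hB0 : 0 < B := by linarith
  set u : ℝ := 1 / (2 ^ 27 * B) with hu
  have hu0 : 0 < u := by positivity
  have hu1 : u ≤ 1 := by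
    rw [hu, div_le_one (by positivity)]
    nlinarith
  have e1 : Real.exp (-u) ≤ 1 - u / 2 := by
    have e3 : Real.exp (-u) ≤ 1 / (1 + u) := by
      rw [Real.exp_neg, ← one_div]
      apply one_div_le_one_div_of_le (by linarith)
      have := Real.add_one_le_exp u
      linarith
    have e4 : 1 / (1 + u) ≤ 1 - u / 2 := by
      rw [div_le_iff₀ (by linarith)]
      nlinarith
    linarith
  have e2 := pat_num n L (K * s) h hL
  -- the exponent
  set z : ℝ := u * (s : ℝ) ^ 3 - L * (2 * ((K * s : ℕ) : ℝ) + 1) with hz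
  have hL2 : (L : ℝ) ≤ (L : ℝ) ^ 2 := le_self_pow₀ hL' (by norm_num)
  have hz1 : 2 / u ≤ z := by
    have h1 : 2 / u = 2 ^ 28 * B := by
      rw [hu, div_div_eq_mul_div, div_one]
      ring
    have h2 : u * (s : ℝ) ^ 3 = (s : ℝ) ^ 3 / (2 ^ 27 * B) := by
      rw [hu]
      ring
    rw [h1, hz, h2, le_sub_iff_add_le, le_div_iff₀ (by positivity)]
    push_cast
    have h3 : (L : ℝ) * (2 * (K * s) + 1) ≤ 3 * (K * s * L) := by
      have : (1 : ℝ) ≤ K * s := one_le_mul_of_one_le_of_one_le hK' hs'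
      nlinarith
    have h4 : (2 ^ 28 * B + L * (2 * ((K : ℝ) * s) + 1)) * (2 ^ 27 * B) ≤
        (2 ^ 28 * B + 3 * (K * s * L)) * (2 ^ 27 * B) :=
      mul_le_mul_of_nonneg_right (by linarith) (by positivity)
    refine h4.trans ?_
    have h5 : 2 ^ 34 * (K * B * L) ≤ (s : ℝ) := by
      refine le_trans ?_ hC
      have : (K : ℝ) * B * L ≤ K * B * L ^ 2 := mul_le_mul_of_nonneg_left hL2 (by positivity)
      nlinarith
    have h6 : 2 ^ 34 * B ≤ (s : ℝ) := by
      refine le_trans ?_ h5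
      have : B ≤ K * B * L := by
        have e : (1 : ℝ) ≤ K * L := one_le_mul_of_one_le_of_one_le hK' hL'
        nlinarith
      nlinarith
    have h7 : 2 ^ 28 * B * (2 ^ 27 * B) ≤ (s : ℝ) ^ 2 / 2 := by nlinarith
    have h8 : 3 * ((K : ℝ) * s * L) * (2 ^ 27 * B) ≤ (s : ℝ) ^ 2 / 2 := by
      have : 3 * ((K : ℝ) * s * L) * (2 ^ 27 * B) = 3 * 2 ^ 27 * (K * B * L) * s := by ring
      rw [this]
      nlinarith
    have h9 : (s : ℝ) ^ 2 ≤ (s : ℝ) ^ 3 := pow_le_pow_right₀ hs' (by norm_num)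
    nlinarith
  have hz0 : 0 < z := lt_of_lt_of_le (by positivity) hz1
  have e5 : (1 + ((n : ℝ) + 1) ^ (2 * (K * s))) * Real.exp (-(u * ((s ^ 3 : ℕ) : ℝ))) ≤
      u / 2 := by
    have h1 : (1 + ((n : ℝ) + 1) ^ (2 * (K * s))) * Real.exp (-(u * ((s ^ 3 : ℕ) : ℝ))) ≤
        Real.exp (-z) := by
      calc (1 + ((n : ℝ) + 1) ^ (2 * (K * s))) * Real.exp (-(u * ((s ^ 3 : ℕ) : ℝ)))
          ≤ Real.exp (L * (2 * ((K * s : ℕ) : ℝ) + 1)) * Real.exp (-(u * ((s ^ 3 : ℕ) : ℝ))) :=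
            mul_le_mul_of_nonneg_right e2 (by positivity)
        _ = Real.exp (-z) := by
            rw [← Real.exp_add]
            congr 1
            rw [hz]
            push_cast
            ring
    have h2 : Real.exp (-z) ≤ 1 / z := by
      rw [Real.exp_neg, ← one_div]
      apply one_div_le_one_div_of_le hz0
      have := Real.add_one_le_exp z
      linarith
    have h3 : 1 / z ≤ u / 2 := by
      rw [div_le_iff₀ hz0]
      have h4 : 2 ≤ u * z := by
        have := mul_le_mul_of_nonneg_left hz1 hu0.le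
        rwa [mul_div_cancel₀ _ hu0.ne'] at this
      linarith
    linarith
  linarith

end Pool.Agent.Matroid6d
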