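import Pool.Agent.Matroid6d.G.Exist
import Pool.Agent.Matroid6d.Extreme

/-!
Counting matroids with a given description: the members of a class of matroids that have a short
cocircuit are few in comparison with the class.
-/

set_option autoImplicit false

namespace Pool.Agent.Matroid6d

open Finset

variable {n : ℕ}

/-- If every member of `𝓜` has many stable families of non-bases, and the member can be
reconstructed from each of them, then `𝓜` is small. -/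
theorem count_code (𝒞 : Set (Matroid (Fin n))) (hE : ∀ M ∈ 𝒞, M.E = Set.univ)
    (hup : ∀ M ∈ 𝒞, ∀ M' : Matroid (Fin n), M'.E = Set.univ →
      (∀ B, M.IsBase B → M'.IsBase B) → M' ∈ 𝒞)
    (r : ℕ) (h0 : 0 < r) (hrn : r < n) (𝓜 : Set (Matroid (Fin n))) (h𝓜 : ∀ M ∈ 𝓜, M ∈ 𝒞)
    (hr : ∀ M ∈ 𝓜, ∀ X, Bs M X → X.card = r)
    (𝒮 : Matroid (Fin n) → Finset (Finset (Finset (Fin n)))) (G : ℕ)
    (hG : ∀ M ∈ 𝓜, G ≤ (𝒮 M).card)
    (hS : ∀ M ∈ 𝓜, ∀ S ∈ 𝒮 M, Stable S ∧ ∀ X ∈ S, X.card = r ∧ ¬ Bs M X)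
    (hinj : ∀ M ∈ 𝓜, ∀ M' ∈ 𝓜, ∀ S, S ∈ 𝒮 M → S ∈ 𝒮 M' → M = M') :
    𝓜.ncard * G ≤ 𝒞.ncard := by
  classical
  have hfin := finite_mats 𝒞 hE
  have hfin' : 𝓜.Finite := hfin.subset h𝓜
  set 𝓕 := hfin'.toFinset with h𝓕
  have m𝓕 : ∀ M, M ∈ 𝓕 ↔ M ∈ 𝓜 := fun M => hfin'.mem_toFinset
  set T : Finset (Σ _ : Matroid (Fin n), Finset (Finset (Fin n))) := 𝓕.sigma 𝒮 with hT
  have key : ∀ p : (Σ _ : Matroid (Fin n), Finset (Finset (Fin n))), p ∈ (T : Set _) →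
      ∃ M' : Matroid (Fin n), M' ∈ 𝒞 ∧ ∀ X, Bs M' X ↔ (X.card = r ∧ X ∉ p.2) := by
    rintro ⟨M, S⟩ hp
    rw [mem_coe, hT, mem_sigma, m𝓕] at hp
    obtain ⟨hM, hSM⟩ := hp
    obtain ⟨hst, hnb⟩ := hS M hM S hSM
    obtain ⟨M', h1, _, _, h4⟩ := sparsePaving_of_stable r h0 hrn S hst
    refine ⟨M', hup M (h𝓜 M hM) M' h1 ?_, h4⟩
    intro B hB
    obtain ⟨B', rfl⟩ : ∃ B' : Finset (Fin n), (B' : Set (Fin n)) = B :=
      ⟨(Set.toFinite B).toFinset, Set.Finite.coe_toFinset _⟩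
    exact (h4 B').2 ⟨hr M hM B' hB, fun hBS => (hnb B' hBS).2 hB⟩
  have : Nonempty (Matroid (Fin n)) := ⟨Matroid.freeOn Set.univ⟩
  choose! Φ hΦ1 hΦ2 using key
  have hle : (T : Set (Σ _ : Matroid (Fin n), Finset (Finset (Fin n)))).ncard ≤ 𝒞.ncard := by
    apply Set.ncard_le_ncard_of_injOn Φ hΦ1 ?_ hfin
    rintro ⟨M, S⟩ hp ⟨M', S'⟩ hp' h
    have h1 := hΦ2 _ hp
    have h2 := hΦ2 _ hp'
    rw [h] at h1
    rw [mem_coe, hT, mem_sigma, m𝓕] at hp hp'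
    simp only at hp hp' h1 h2
    have hSS : S = S' := by
      ext X
      have h3 := (h1 X).symm.trans (h2 X)
      constructor
      · intro hX
        by_contra hX'
        exact (h3.2 ⟨((hS M hp.1 S hp.2).2 X hX).1, hX'⟩).2 hX
      · intro hX
        by_contra hX'
        exact (h3.1 ⟨((hS M' hp'.1 S' hp'.2).2 X hX).1, hX'⟩).2 hX
    subst hSS
    rw [hinj M hp.1 M' hp'.1 S hp.2 hp'.2]
  rw [Set.ncard_coe_finset, hT, card_sigma] at hle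
  calc 𝓜.ncard * G = ∑ _M ∈ 𝓕, G := by
        rw [sum_const, smul_eq_mul, h𝓕, Set.ncard_eq_toFinset_card _ hfin']
    _ ≤ ∑ M ∈ 𝓕, (𝒮 M).card := sum_le_sum (fun M hM => hG M ((m𝓕 M).1 hM))
    _ ≤ _ := hle

variable {r q : ℕ} {Sc Sd A Kn : Finset (Finset (Fin n))} {D₀ : Finset (Fin n)}

/-- The sets of size `r` disjoint from `D₀`. -/
def K0 (r : ℕ) (D₀ : Finset (Fin n)) : Finset (Finset (Fin n)) := powersetCard r D₀ᶜ

lemma mem_K0 {X : Finset (Fin n)} : X ∈ K0 r D₀ ↔ X.card = r ∧ Disjoint X D₀ := by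
  unfold K0
  rw [mem_powersetCard]
  constructor
  · rintro ⟨h1, h2⟩
    refine ⟨h2, ?_⟩
    rw [disjoint_left]
    intro w hw hwD
    exact (mem_compl.1 (h1 hw)) hwD
  · rintro ⟨h1, h2⟩
    refine ⟨?_, h1⟩
    intro w hw
    exact mem_compl.2 (fun hwD => disjoint_left.1 h2 hw hwD)

open Classical in
/-- The members of `K0` that contain a member of `W`. -/
noncomputable def domK (r : ℕ) (D₀ : Finset (Fin n)) (W : Finset (Finset (Fin n))) :
    Finset (Finset (Fin n)) := (K0 r D₀).filter (fun Z => ∃ C ∈ W, C ⊆ Z)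

lemma mem_domK {W : Finset (Finset (Fin n))} {Z : Finset (Fin n)} :
    Z ∈ domK r D₀ W ↔ Z ∈ K0 r D₀ ∧ ∃ C ∈ W, C ⊆ Z := by
  classical
  simp only [domK, mem_filter]

lemma stable_subset {S T : Finset (Finset (Fin n))} (hS : Stable S) (h : T ⊆ S) : Stable T :=
  fun X hX Y hY hne => hS X (h hX) Y (h hY) hne

/-- A union of stable families. -/
lemma stable_union {S T : Finset (Finset (Fin n))} (hS : Stable S) (hT : Stable T)
    (hSr : ∀ X ∈ S, X.card = r) (hTr : ∀ X ∈ T, X.card = r)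
    (h : ∀ X ∈ S, ∀ Z ∈ T, 2 ≤ (X \ Z).card) : Stable (S ∪ T) := by
  intro X hX Y hY hne
  rw [mem_union] at hX hY
  rcases hX with hX | hX <;> rcases hY with hY | hY
  · exact hS X hX Y hY hne
  · exact h X hX Y hY
  · rw [card_sdiff_comm' (by rw [hTr X hX, hSr Y hY])]
    exact h Y hY X hX
  · exact hT X hX Y hY hne

/-- Members of the container meet `D₀`. -/
lemma sdiff_K0 {P : Finset (Fin n) → Prop} (h : Dec n r q P Sc Sd A Kn) (hD₀ : D₀ ∈ Sd)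
    {X Z : Finset (Fin n)} (hX : X ∈ Vst P Sc Sd A Kn) (hZ : Z ∈ K0 r D₀)
    (hlt : (X \ Z).card < 2) : X ∈ V0 P Sc Sd A Kn D₀ ∧ X \ D₀ ⊆ Z := by
  have hXA := (mem_Vst.1 hX).1
  have hZd := (mem_K0.1 hZ).2
  have hne : (X ∩ D₀).card ≠ 0 := by
    intro h0
    rw [card_eq_zero] at h0
    exact h.hAd X hXA D₀ hD₀ (disjoint_iff_inter_eq_empty.2 h0)
  have hsub : X ∩ D₀ ⊆ X \ Z := by
    intro w hw
    rw [mem_inter] at hw
    exact mem_sdiff.2 ⟨hw.1, fun hwZ => disjoint_left.1 hZd hwZ hw.2⟩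
  have hc := card_le_card hsub
  have hc1 : (X ∩ D₀).card = 1 := by omega
  have heq : X ∩ D₀ = X \ Z := eq_of_subset_of_card_le hsub (by omega)
  refine ⟨mem_V0.2 ⟨hX, hc1⟩, ?_⟩
  intro w hw
  rw [mem_sdiff] at hw
  by_contra hwZ
  have : w ∈ X ∩ D₀ := by rw [heq]; exact mem_sdiff.2 ⟨hw.1, hwZ⟩
  exact hw.2 (mem_inter.1 this).2

lemma Vst_not_K0 {P : Finset (Fin n) → Prop} (h : Dec n r q P Sc Sd A Kn) (hD₀ : D₀ ∈ Sd)
    {X : Finset (Fin n)} (hX : X ∈ Vst P Sc Sd A Kn) : X ∉ K0 r D₀ :=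
  fun hK => h.hAd X (mem_Vst.1 hX).1 D₀ hD₀ (mem_K0.1 hK).2

lemma K0_nb {P : Finset (Fin n) → Prop} (h : Dec n r q P Sc Sd A Kn) (hD₀ : D₀ ∈ Sd)
    {X : Finset (Fin n)} (hX : X ∈ K0 r D₀) : ¬ P X :=
  not_of_disjoint h.hP ((h.hSd D₀).1 hD₀).1 (mem_K0.1 hX).2

lemma union_sdiff_K0 {S T : Finset (Finset (Fin n))} (hS : ∀ X ∈ S, X ∉ K0 r D₀)
    (hT : T ⊆ K0 r D₀) : (S ∪ T).filter (fun X => X ∉ K0 r D₀) = S := by
  ext X
  rw [mem_filter, mem_union]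
  constructor
  · rintro ⟨h | h, h'⟩
    · exact h
    · exact absurd (hT h) h'
  · intro h
    exact ⟨Or.inl h, hS X h⟩

section
variable (𝒞 : Set (Matroid (Fin n))) (hE : ∀ M ∈ 𝒞, M.E = Set.univ)
    (hup : ∀ M ∈ 𝒞, ∀ M' : Matroid (Fin n), M'.E = Set.univ →
      (∀ B, M.IsBase B → M'.IsBase B) → M' ∈ 𝒞)

include hE hup

/-- Many members of `K0` do not contain traces. -/
theorem caseA' (hn : 0 < n) (hD₀ : D₀ ∈ Sd) (hqr : q < r) (hqn : q + r < n) (G : ℕ) :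
    {M ∈ 𝒞 | Dec n r q (Bs M) Sc Sd A Kn ∧
      n * G ≤ (K0 r D₀ \ domK r D₀ (W0 (Bs M) Sc Sd A Kn D₀)).card}.ncard * 2 ^ G ≤
      𝒞.ncard := by
  classical
  set 𝓜 := {M ∈ 𝒞 | Dec n r q (Bs M) Sc Sd A Kn ∧
      n * G ≤ (K0 r D₀ \ domK r D₀ (W0 (Bs M) Sc Sd A Kn D₀)).card} with h𝓜
  have hK0r : ∀ X ∈ K0 r D₀, X.card = r := fun X hX => (mem_K0.1 hX).1
  have hex : ∀ M : Matroid (Fin n), ∃ T ⊆ K0 r D₀ \ domK r D₀ (W0 (Bs M) Sc Sd A Kn D₀),
      Stable T ∧ (K0 r D₀ \ domK r D₀ (W0 (Bs M) Sc Sd A Kn D₀)).card ≤ n * T.card :=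
    fun M => exists_stable_sub hn r _ (fun X hX => hK0r X (mem_sdiff.1 hX).1)
  choose T hT1 hT2 hT3 using hex
  have hTK : ∀ M, T M ⊆ K0 r D₀ := fun M => (hT1 M).trans sdiff_subset
  apply count_code 𝒞 hE hup r (by omega) (by omega) 𝓜 (fun M hM => hM.1)
    (fun M hM => hM.2.1.hr)
    (fun M => (T M).powerset.image (fun S => Vst (Bs M) Sc Sd A Kn ∪ S))
  · intro M hM
    rw [card_image_of_injOn, card_powerset]
    · apply Nat.pow_le_pow_right (by norm_num)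
      exact Nat.le_of_mul_le_mul_left (hM.2.2.trans (hT3 M)) hn
    · intro S hS S' hS' heq
      rw [mem_coe, mem_powerset] at hS hS'
      have hV : ∀ X ∈ Vst (Bs M) Sc Sd A Kn, X ∉ K0 r D₀ :=
        fun X hX => Vst_not_K0 hM.2.1 hD₀ hX
      have heq' : Vst (Bs M) Sc Sd A Kn ∪ S = Vst (Bs M) Sc Sd A Kn ∪ S' := heq
      ext X
      have e := Finset.ext_iff.1 heq' X
      rw [mem_union, mem_union] at e
      constructor
      · intro hX
        rcases e.1 (Or.inr hX) with g | g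
        · exact absurd (hTK M (hS hX)) (hV X g)
        · exact g
      · intro hX
        rcases e.2 (Or.inr hX) with g | g
        · exact absurd (hTK M (hS' hX)) (hV X g)
        · exact g
  · intro M hM S hS
    rw [mem_image] at hS
    obtain ⟨S₀, hS₀, rfl⟩ := hS
    rw [mem_powerset] at hS₀
    have hdec := hM.2.1
    constructor
    · refine stable_union (r := r) (stable_Vst hdec) (stable_subset (hT2 M) hS₀)
        (fun X hX => hdec.hAr X (mem_Vst.1 hX).1) (fun X hX => hK0r X (hTK M (hS₀ hX))) ?_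
      intro X hX Z hZ
      by_contra hlt
      push Not at hlt
      have hZK := hTK M (hS₀ hZ)
      obtain ⟨g1, g2⟩ := sdiff_K0 hdec hD₀ hX hZK hlt
      exact (mem_sdiff.1 (hT1 M (hS₀ hZ))).2
        (mem_domK.2 ⟨hZK, X \ D₀, mem_W0.2 ⟨X, g1, rfl⟩, g2⟩)
    · intro X hX
      rw [mem_union] at hX
      rcases hX with g | g
      · exact ⟨hdec.hAr X (mem_Vst.1 g).1, (mem_Vst.1 g).2.1⟩
      · exact ⟨hK0r X (hTK M (hS₀ g)), K0_nb hdec hD₀ (hTK M (hS₀ g))⟩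
  · intro M hM M' hM' S hS hS'
    rw [mem_image] at hS hS'
    obtain ⟨S₁, hS₁, rfl⟩ := hS
    obtain ⟨S₂, hS₂, heq⟩ := hS'
    rw [mem_powerset] at hS₁ hS₂
    have h1 := union_sdiff_K0 (S := Vst (Bs M) Sc Sd A Kn) (T := S₁) (r := r) (D₀ := D₀)
      (fun X hX => Vst_not_K0 hM.2.1 hD₀ hX) (hS₁.trans (hTK M))
    have h2 := union_sdiff_K0 (S := Vst (Bs M') Sc Sd A Kn) (T := S₂) (r := r) (D₀ := D₀)
      (fun X hX => Vst_not_K0 hM'.2.1 hD₀ hX) (hS₂.trans (hTK M'))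
    rw [heq] at h2
    exact ext_bs (hE M hM.1) (hE M' hM'.1)
      (decode_eq hM.2.1 hM'.2.1 (h1.symm.trans h2))

/-- The traces are known. -/
theorem caseB' (hn : 0 < n) (hD₀ : D₀ ∈ Sd) (hqr : q < r) (hqn : q + r < n) (G : ℕ)
    (W : Finset (Finset (Fin n))) (hG : n * G ≤ (K0 r D₀).card) :
    {M ∈ 𝒞 | Dec n r q (Bs M) Sc Sd A Kn ∧ W0 (Bs M) Sc Sd A Kn D₀ = W}.ncard * 2 ^ G ≤
      𝒞.ncard := by
  classical
  set 𝓜 := {M ∈ 𝒞 | Dec n r q (Bs M) Sc Sd A Kn ∧ W0 (Bs M) Sc Sd A Kn D₀ = W} with h𝓜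
  have hK0r : ∀ X ∈ K0 r D₀, X.card = r := fun X hX => (mem_K0.1 hX).1
  obtain ⟨T, hT1, hT2, hT3⟩ := exists_stable_sub hn r (K0 r D₀) hK0r
  apply count_code 𝒞 hE hup r (by omega) (by omega) 𝓜 (fun M hM => hM.1)
    (fun M hM => hM.2.1.hr)
    (fun M => T.powerset.image (fun S => V1 (Bs M) Sc Sd A Kn D₀ ∪ S))
  · intro M hM
    rw [card_image_of_injOn, card_powerset]
    · apply Nat.pow_le_pow_right (by norm_num)
      exact Nat.le_of_mul_le_mul_left (hG.trans hT3) hn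
    · intro S hS S' hS' heq
      rw [mem_coe, mem_powerset] at hS hS'
      have hV : ∀ X ∈ V1 (Bs M) Sc Sd A Kn D₀, X ∉ K0 r D₀ :=
        fun X hX => Vst_not_K0 hM.2.1 hD₀ (mem_V1.1 hX).1
      have heq' : V1 (Bs M) Sc Sd A Kn D₀ ∪ S = V1 (Bs M) Sc Sd A Kn D₀ ∪ S' := heq
      ext X
      have e := Finset.ext_iff.1 heq' X
      rw [mem_union, mem_union] at e
      constructor
      · intro hX
        rcases e.1 (Or.inr hX) with g | g
        · exact absurd (hT1 (hS hX)) (hV X g)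
        · exact g
      · intro hX
        rcases e.2 (Or.inr hX) with g | g
        · exact absurd (hT1 (hS' hX)) (hV X g)
        · exact g
  · intro M hM S hS
    rw [mem_image] at hS
    obtain ⟨S₀, hS₀, rfl⟩ := hS
    rw [mem_powerset] at hS₀
    have hdec := hM.2.1
    constructor
    · refine stable_union (r := r) (stable_subset (stable_Vst hdec)
        (fun X hX => (mem_V1.1 hX).1)) (stable_subset hT2 hS₀)
        (fun X hX => hdec.hAr X (mem_Vst.1 (mem_V1.1 hX).1).1)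
        (fun X hX => hK0r X (hT1 (hS₀ hX))) ?_
      intro X hX Z hZ
      by_contra hlt
      push Not at hlt
      obtain ⟨g1, _⟩ := sdiff_K0 hdec hD₀ (mem_V1.1 hX).1 (hT1 (hS₀ hZ)) hlt
      exact (mem_V1.1 hX).2 (mem_V0.1 g1).2
    · intro X hX
      rw [mem_union] at hX
      rcases hX with g | g
      · have g' := mem_Vst.1 (mem_V1.1 g).1
        exact ⟨hdec.hAr X g'.1, g'.2.1⟩
      · exact ⟨hK0r X (hT1 (hS₀ g)), K0_nb hdec hD₀ (hT1 (hS₀ g))⟩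
  · intro M hM M' hM' S hS hS'
    rw [mem_image] at hS hS'
    obtain ⟨S₁, hS₁, rfl⟩ := hS
    obtain ⟨S₂, hS₂, heq⟩ := hS'
    rw [mem_powerset] at hS₁ hS₂
    have h1 := union_sdiff_K0 (S := V1 (Bs M) Sc Sd A Kn D₀) (T := S₁) (r := r) (D₀ := D₀)
      (fun X hX => Vst_not_K0 hM.2.1 hD₀ (mem_V1.1 hX).1) (hS₁.trans hT1)
    have h2 := union_sdiff_K0 (S := V1 (Bs M') Sc Sd A Kn D₀) (T := S₂) (r := r) (D₀ := D₀)
      (fun X hX => Vst_not_K0 hM'.2.1 hD₀ (mem_V1.1 hX).1) (hS₂.trans hT1)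
    rw [heq] at h2
    exact ext_bs (hE M hM.1) (hE M' hM'.1)
      (decode_eq hM.2.1 hM'.2.1
        (Vst_eq hD₀ (hM.2.2.trans hM'.2.2.symm) (h1.symm.trans h2)))

end

end Pool.Agent.Matroid6d
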