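import Pool.Agent.Matroid6d.G.Fixed
import Pool.Agent.Matroid6d.G.NumB

/-!
In every class of matroids that is closed under adding bases, few members have a given short
cocircuit.
-/

set_option autoImplicit false

namespace Pool.Agent.Matroid6d

open Finset

lemma card_K0 {n : ℕ} (r : ℕ) (D₀ : Finset (Fin n)) :
    (K0 r D₀).card = (n - D₀.card).choose r := by
  unfold K0
  rw [card_powersetCard, card_compl']

/-- The containers for the traces. -/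
lemma cont_Wf {n : ℕ} (r q g : ℕ) (D₀ : Finset (Fin n)) (hn : 2 ≤ n) (hr2 : 2 ≤ r) (hrn : r ≤ n)
    (hq : 1 ≤ q) (ξ u β U : ℝ) (hξ : 1 ≤ ξ) (hu0 : 0 ≤ u)
    (hu : Real.exp (-u) + ξ * Real.exp (-(u * q)) ≤ 1)
    (hU : ((powersetCard (r - 2) D₀ᶜ).card : ℝ) ≤ U)
    (hU' : ((powersetCard (r - 1) D₀ᶜ).card : ℝ) ≤ U)
    (hU2 : ((r - 1 : ℕ) : ℝ) ^ 2 ≤ U) (hβ : 1 ≤ β) (hξβ : ξ * (n : ℝ) ^ 2 ≤ Real.exp β) :
    HasC (Wf r D₀ g : Set (Finset (Finset (Fin n)))) q (powersetCard (r - 1) D₀ᶜ)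
      (Real.exp (2 * u * (U / (r - 1 : ℕ)) + β * (2 * U / ((r - 1 : ℕ) : ℝ) ^ 2) * Real.log n))
      (2 * (U / (r - 1 : ℕ)) / q + (2 * U / ((r - 1 : ℕ) : ℝ) ^ 2) * Real.log n) := by
  classical
  apply cont_level (r - 1) (powersetCard (r - 1) D₀ᶜ) (powersetCard (r - 2) D₀ᶜ)
    (fun v hv => (mem_powersetCard.1 hv).2)
    (fun T hT => by
      have := (mem_powersetCard.1 hT).2
      omega)
    (fun v hv x hx => by
      have h := mem_powersetCard.1 hv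
      rw [mem_powersetCard, card_erase_of_mem hx, h.2]
      exact ⟨(erase_subset _ _).trans h.1, by omega⟩) (by omega) (by omega) hn
    (fun _ => {∅}) ?_ ξ u β U ?_ (by linarith) hq hu0 hu hU hU' hU2 hβ hξβ
  · intro W hW v _ hvW
    refine ⟨∅, mem_singleton_self _, fun u _ hu => ?_⟩
    rw [mem_coe, mem_Wf] at hW
    constructor
    · intro huW
      exfalso
      have hne : v ≠ u := fun h => not_adj_self u (h ▸ hu)
      have := hW.1 v hvW u huW hne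
      have := hu.2
      omega
    · intro h
      exact absurd h (notMem_empty _)
  · intro v _
    rw [card_singleton]
    exact_mod_cast hξ

lemma aux_one {L a : ℝ} (hL : 1 ≤ L) (ha : 0 ≤ a) : 1 ≤ L * (2 * a + 3) := by
  nlinarith

lemma aux_mid {n m Q : ℝ} (h : n ≤ 16 * m) (hQ : 0 ≤ Q) (hm : 0 ≤ m) :
    n * Q * m ≤ Q * (16 * m ^ 2) := by
  have h1 := mul_le_mul_of_nonneg_left h (mul_nonneg hQ hm)
  nlinarith

lemma aux_two {X T Q : ℝ} (h1 : X ≤ T * 2) (h2 : 0 < T) (h3 : 2 ^ 34 * T ≤ Q) :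
    X * 2 ^ 16 ≤ Q := by
  linarith

lemma aux_f {a f : ℝ} (ha : 1 ≤ a) (hf : 0 ≤ f) : (a + 1) * (f * 2) ≤ 4 * (f * a) := by
  nlinarith

/-- Few members have a given short cocircuit. -/
theorem fixed_final (g₀ : ℕ) : ∃ n₀ : ℕ, ∀ n : ℕ, n₀ ≤ n → ∀ 𝒞 : Set (Matroid (Fin n)),
    (∀ M ∈ 𝒞, M.E = Set.univ) →
    (∀ M ∈ 𝒞, ∀ M' : Matroid (Fin n), M'.E = Set.univ →
      (∀ B, M.IsBase B → M'.IsBase B) → M' ∈ 𝒞) →
    ∀ r, n ≤ 8 * r → 8 * r ≤ 7 * n → ∀ D₀ : Finset (Fin n), D₀.card ≤ g₀ →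
    ({M ∈ 𝒞 | rk M = r ∧ CoC (Bs M) r D₀}.ncard : ℝ) ≤
      Real.exp (-(4 * n)) * 𝒞.ncard := by
  classical
  obtain ⟨K, hK⟩ : ∃ K, K = 2 ^ 14 * 4 ^ g₀ := ⟨_, rfl⟩
  obtain ⟨B, hB⟩ : ∃ B, B = 16 ^ g₀ := ⟨_, rfl⟩
  have hKK : K ^ 2 = 2 ^ 28 * B := by
    rw [hK, hB, mul_pow, ← pow_mul, ← pow_mul, mul_comm g₀ 2, pow_mul 4 2 g₀]
    norm_num
  have hK1 : 1 ≤ K := by rw [hK]; exact Nat.one_le_iff_ne_zero.2 (by positivity)
  have hB1 : 1 ≤ B := by rw [hB]; exact Nat.one_le_pow _ _ (by norm_num)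
  obtain ⟨n₁, hn₁⟩ := params (2 ^ 34 * K * B)
  refine ⟨n₁ + 16 * g₀, fun n hn 𝒞 hE hup r hr1 hr2 D₀ hD₀ => ?_⟩
  obtain ⟨s, L, hL, hs, hs4, hn16, hnL, hCs, hbig⟩ := hn₁ n (by omega)
  -- the size of `s`
  have hsB : 2 ^ 34 * B ≤ s := by
    refine le_trans ?_ hCs
    calc 2 ^ 34 * B = 2 ^ 34 * 1 * B * 1 := by ring
      _ ≤ 2 ^ 34 * K * B * L ^ 2 := by
          apply Nat.mul_le_mul
          · exact Nat.mul_le_mul_right _ (Nat.mul_le_mul_left _ hK1)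
          · exact Nat.one_le_pow _ _ hL
  have hg₀B : g₀ ≤ B := by
    rw [hB]
    exact (Nat.lt_pow_self (by norm_num)).le
  have hs34 : 2 ^ 34 ≤ s := by omega
  have hs3 : s ^ 3 * s ≤ n := by
    calc s ^ 3 * s = s ^ 4 := by ring
      _ ≤ n := hs4
  have hs3' : 2 ^ 34 * s ^ 3 ≤ n := by
    calc 2 ^ 34 * s ^ 3 ≤ s * s ^ 3 := Nat.mul_le_mul_right _ hs34
      _ = s ^ 3 * s := by ring
      _ ≤ n := hs3
  have hs3pos : 1 ≤ s ^ 3 := Nat.one_le_pow _ _ hs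
  have hsle : s ≤ s ^ 3 := Nat.le_self_pow (by norm_num) s
  -- the parameters
  obtain ⟨q, hq⟩ : ∃ q, q = s ^ 3 := ⟨_, rfl⟩
  obtain ⟨a₀, ha₀⟩ : ∃ a, a = K * s := ⟨_, rfl⟩
  obtain ⟨thr, hthr⟩ : ∃ t, t = (a₀ + 1) * a₀ * (q * q) := ⟨_, rfl⟩
  obtain ⟨N, hN⟩ : ∃ N, N = n.choose r := ⟨_, rfl⟩
  obtain ⟨f, hf⟩ : ∃ f, f = 4 * N / thr := ⟨_, rfl⟩
  obtain ⟨d, hd⟩ : ∃ d, d = D₀.card := ⟨_, rfl⟩
  obtain ⟨G₀, hG₀⟩ : ∃ G, G = (K0 r D₀).card := ⟨_, rfl⟩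
  rw [← hq] at hs3' hs3pos hsle
  have hq1 : 1 ≤ q := hs3pos
  have hqr : q < r := by omega
  have hqn : q + r < n := by omega
  have hD₀q : D₀.card ≤ q := by omega
  have hdn : 16 * d ≤ n := by omega
  have ha₀1 : 1 ≤ a₀ := by rw [ha₀]; exact Nat.mul_pos hK1 hs
  have hthr0 : 0 < thr := by rw [hthr]; positivity
  have hfN : 4 * N < thr * (f + 1) := by rw [hf]; exact Nat.lt_mul_div_succ _ hthr0
  have hG₀' : G₀ = (n - d).choose r := by rw [hG₀, card_K0, hd]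
  -- comparison of the binomial coefficients
  have hNB : N ≤ B * G₀ := by
    rw [hN, hG₀', hB]
    refine (choose_sub hr2 d hdn).trans (Nat.mul_le_mul_right _ ?_)
    exact Nat.pow_le_pow_right (by norm_num) (by omega)
  have hNbig : 2 ^ (n / 16) * (2 ^ 34 * K * B * n ^ 2) ≤ N := by
    calc 2 ^ (n / 16) * (2 ^ 34 * K * B * n ^ 2) ≤ 2 ^ (n / 16) * 2 ^ (n / 16) :=
          Nat.mul_le_mul_left _ hbig
      _ = 2 ^ (n / 16 + n / 16) := by rw [pow_add]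
      _ ≤ 2 ^ (n / 8) := Nat.pow_le_pow_right (by norm_num) (by omega)
      _ ≤ N := by rw [hN]; exact choose_two_pow hr1 hr2
  have hN1 : n.choose (r - 1) ≤ 7 * N := by
    rw [hN]
    have := choose_pred_le (n := n) (k := r - 1) (by omega)
    rwa [show r - 1 + 1 = r by omega] at this
  have hN2 : n.choose (r - 2) ≤ 49 * N := by
    have := choose_pred_le (n := n) (k := r - 2) (by omega)
    rw [show r - 2 + 1 = r - 1 by omega] at this
    omega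
  have hNn2 : n ^ 2 ≤ N := by
    refine le_trans ?_ hNbig
    have h1 : 1 ≤ 2 ^ (n / 16) := Nat.one_le_pow _ _ (by norm_num)
    have h2 : 1 ≤ 2 ^ 34 * K * B := Nat.mul_pos (Nat.mul_pos (by norm_num) hK1) hB1
    calc n ^ 2 = 1 * (1 * n ^ 2) := by ring
      _ ≤ _ := Nat.mul_le_mul h1 (Nat.mul_le_mul_right _ h2)
  -- real numbers
  have hn0 : 0 < n := by omega
  have hnR : (0 : ℝ) < n := by exact_mod_cast hn0
  have hn1R : (1 : ℝ) ≤ n := by exact_mod_cast hn0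
  set Q : ℝ := (G₀ : ℝ) / n with hQ
  have hnQ : (n : ℝ) * Q = G₀ := by rw [hQ]; field_simp
  have hQ0 : 0 ≤ Q := by positivity
  have hsR : (1 : ℝ) ≤ s := by exact_mod_cast hs
  have hLR : (1 : ℝ) ≤ L := by exact_mod_cast hL
  have hKR : (1 : ℝ) ≤ K := by exact_mod_cast hK1
  have hBR : (1 : ℝ) ≤ B := by exact_mod_cast hB1
  have hB0 : (0 : ℝ) < B := by linarith
  have hNBR : (N : ℝ) ≤ B * (n * Q) := by rw [hnQ]; exact_mod_cast hNB
  have hCR : 2 ^ 34 * (K : ℝ) * B * (L : ℝ) ^ 2 ≤ s := by exact_mod_cast hCs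
  have hs4R : (s : ℝ) ^ 4 ≤ n := by exact_mod_cast hs4
  have hqR : (q : ℝ) = (s : ℝ) ^ 3 := by rw [hq]; push_cast; ring
  have ha₀R : (a₀ : ℝ) = K * s := by rw [ha₀]; push_cast; ring
  have hlog : Real.log n ≤ L := by
    rw [Real.log_le_iff_le_exp hnR]
    refine le_trans ?_ (two_pow_le_exp' L)
    have : (n : ℝ) + 1 ≤ 2 ^ L := by exact_mod_cast hnL
    linarith
  have hlog0 : 0 ≤ Real.log n := Real.log_nonneg hn1R
  -- `Q` is large
  have hQbig : 2 ^ 34 * (n : ℝ) * 2 ^ (n / 16) ≤ Q := by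
    have h1 : 2 ^ (n / 16) * (2 ^ 34 * K * B * n ^ 2) ≤ B * G₀ := hNbig.trans hNB
    have h2 : (2 : ℝ) ^ (n / 16) * (2 ^ 34 * K * B * (n : ℝ) ^ 2) ≤ B * G₀ := by exact_mod_cast h1
    have h3 : (2 : ℝ) ^ (n / 16) * (2 ^ 34 * 1 * B * (n : ℝ) ^ 2) ≤
        2 ^ (n / 16) * (2 ^ 34 * K * B * (n : ℝ) ^ 2) := by
      apply mul_le_mul_of_nonneg_left _ (by positivity)
      apply mul_le_mul_of_nonneg_right _ (by positivity)
      apply mul_le_mul_of_nonneg_right _ (by positivity)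
      exact mul_le_mul_of_nonneg_left hKR (by positivity)
    rw [hQ, le_div_iff₀ hnR]
    have h4 : (B : ℝ) * (2 ^ 34 * (n : ℝ) * 2 ^ (n / 16) * (n : ℝ)) ≤ (B : ℝ) * (G₀ : ℝ) := by
      calc (B : ℝ) * (2 ^ 34 * (n : ℝ) * 2 ^ (n / 16) * (n : ℝ))
          = (2 : ℝ) ^ (n / 16) * (2 ^ 34 * 1 * B * (n : ℝ) ^ 2) := by ring
        _ ≤ (B : ℝ) * (G₀ : ℝ) := h3.trans h2
    exact le_of_mul_le_mul_left h4 hB0
  have hQn : 2 ^ 34 * (n : ℝ) ≤ Q := by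
    refine le_trans ?_ hQbig
    exact le_mul_of_one_le_right (by positivity) (one_le_pow₀ (by norm_num))
  have hQ2 : 2 ^ 34 * (2 : ℝ) ^ (n / 16) ≤ Q := by
    refine le_trans ?_ hQbig
    calc 2 ^ 34 * (2 : ℝ) ^ (n / 16) ≤ 2 ^ 34 * (2 : ℝ) ^ (n / 16) * n :=
          le_mul_of_one_le_right (by positivity) hn1R
      _ = 2 ^ 34 * (n : ℝ) * 2 ^ (n / 16) := by ring
  -- the parameters of the container lemma
  obtain ⟨u, hu⟩ : ∃ u : ℝ, u = 1 / (2 ^ 27 * B) := ⟨_, rfl⟩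
  have hu0 : 0 ≤ u := by rw [hu]; positivity
  have hucond : Real.exp (-u) + (1 + ((n : ℝ) + 1) ^ (2 * a₀)) * Real.exp (-(u * q)) ≤ 1 := by
    have := u_num n L s K B hnL hL hs hK1 hBR hCR
    rw [hu, ha₀, hq]
    exact this
  obtain ⟨β, hβ⟩ : ∃ β : ℝ, β = L * (2 * (a₀ : ℝ) + 3) := ⟨_, rfl⟩
  have hβ1 : 1 ≤ β := by
    rw [hβ]
    have h0 : (0 : ℝ) ≤ a₀ := by positivity
    exact aux_one hLR h0
  have hβcond : (1 + ((n : ℝ) + 1) ^ (2 * a₀)) * (n : ℝ) ^ 2 ≤ Real.exp β := by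
    rw [hβ]
    exact beta_num n L a₀ hnL hL
  have hlev : ∀ k : ℕ, n ≤ 16 * k →
      2 * u * (64 * N / (k : ℝ)) + β * (2 * (64 * N) / (k : ℝ) ^ 2) * Real.log n ≤ Q / 2 ^ 15 ∧
      2 * (64 * N / (k : ℝ)) / q + (2 * (64 * N) / (k : ℝ) ^ 2) * Real.log n ≤ Q / 2 ^ 13 := by
    intro k hk
    have hkR : (n : ℝ) ≤ 16 * k := by exact_mod_cast hk
    obtain ⟨l1, l2, l3⟩ := lev_num n k s L K B N Q (Real.log n) hnR (by linarith) hkR
      (by positivity) hNBR hs4R hsR hLR hKR hBR hQ0 hCR hlog hlog0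
    rw [hu, hβ, hqR, ha₀R]
    refine ⟨?_, l3⟩
    have : Q / 2 ^ 15 = Q / 2 ^ 16 + Q / 2 ^ 16 := by ring
    linarith
  -- containers
  have hcont : ∀ Sc Sd Fc Fd : Finset (Finset (Fin n)),
      HasC (XX r q thr Sc Sd Fc Fd) q (base r Sc Sd Fc Fd) (Real.exp (Q / 2 ^ 15))
        (Q / 2 ^ 13) := by
    intro Sc Sd Fc Fd
    obtain ⟨l1, l2⟩ := hlev r (by omega)
    refine (cont_base r q thr a₀ Sc Sd Fc Fd (by omega) (by omega) (by omega) hq1 hthr.le u β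
      (64 * N) hu0 hucond ?_ ?_ ?_ hβ1 hβcond).mono (Real.exp_le_exp.2 l1) l2
    · have : n.choose (r - 1) ≤ 64 * N := by omega
      exact_mod_cast this
    · have : n.choose r ≤ 64 * N := by omega
      exact_mod_cast this
    · have h1 : r ^ 2 ≤ n ^ 2 := Nat.pow_le_pow_left (by omega) 2
      have : r ^ 2 ≤ 64 * N := by omega
      exact_mod_cast this
  -- the traces
  obtain ⟨G₁, hG₁⟩ : ∃ G, G = G₀ / (4096 * n) := ⟨_, rfl⟩
  obtain ⟨G₂, hG₂⟩ : ∃ G, G = G₀ / n := ⟨_, rfl⟩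
  have hG₂' : n * G₂ ≤ (K0 r D₀).card := by rw [hG₂, ← hG₀]; exact Nat.mul_div_le _ _
  have hG₁' : 4096 * (n * G₁) ≤ G₀ := by
    rw [hG₁, ← mul_assoc]
    exact Nat.mul_div_le _ _
  have hcontW : HasC (Wf r D₀ (n * G₁) : Set (Finset (Finset (Fin n)))) q
      (powersetCard (r - 1) D₀ᶜ) (Real.exp (Q / 2 ^ 15)) (Q / 2 ^ 13) := by
    obtain ⟨l1, l2⟩ := hlev (r - 1) (by omega)
    have hsubset : ∀ k, (powersetCard k D₀ᶜ).card ≤ n.choose k := by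
      intro k
      rw [card_powersetCard, card_compl']
      exact Nat.choose_le_choose k (by omega)
    refine (cont_Wf r q (n * G₁) D₀ (by omega) (by omega) (by omega) hq1
      (1 + ((n : ℝ) + 1) ^ (2 * a₀)) u β (64 * N) ?_ hu0 hucond ?_ ?_ ?_ hβ1 hβcond).mono
      (Real.exp_le_exp.2 l1) l2
    · have : (0 : ℝ) ≤ ((n : ℝ) + 1) ^ (2 * a₀) := by positivity
      linarith
    · have : (powersetCard (r - 2) D₀ᶜ).card ≤ 64 * N := (hsubset _).trans (by omega)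
      exact_mod_cast this
    · have : (powersetCard (r - 1) D₀ᶜ).card ≤ 64 * N := (hsubset _).trans (by omega)
      exact_mod_cast this
    · have h1 : (r - 1) ^ 2 ≤ n ^ 2 := Nat.pow_le_pow_left (by omega) 2
      have : (r - 1) ^ 2 ≤ 64 * N := by omega
      exact_mod_cast this
  obtain ⟨m, hm⟩ : ∃ m, m = D₀ᶜ.card - (r - 1) := ⟨_, rfl⟩
  have hmc : D₀ᶜ.card = n - d := by rw [card_compl', hd]
  have hm16 : n ≤ 16 * m := by rw [hm, hmc]; omega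
  have hmn : m ≤ n := by rw [hm, hmc]; omega
  have hmR : (n : ℝ) ≤ 16 * m := by exact_mod_cast hm16
  have hm0 : (0 : ℝ) < m := by linarith
  obtain ⟨a, ha⟩ : ∃ a, a = ⌈17 * Q⌉₊ := ⟨_, rfl⟩
  obtain ⟨τ, hτ⟩ : ∃ τ, τ = ⌈Q / 200⌉₊ := ⟨_, rfl⟩
  have ha1 : 17 * Q ≤ a := by rw [ha]; exact Nat.le_ceil _
  have ha2 : (a : ℝ) ≤ 17 * Q + 1 := by rw [ha]; exact (Nat.ceil_lt_add_one (by positivity)).le
  have hτ1 : Q / 200 ≤ τ := by rw [hτ]; exact Nat.le_ceil _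
  have hτ2 : (τ : ℝ) ≤ Q / 200 + 1 := by
    rw [hτ]
    exact (Nat.ceil_lt_add_one (by positivity)).le
  have hqn' : (2 : ℝ) ^ 34 * q ≤ n := by exact_mod_cast hs3'
  have hnm2 : (n : ℝ) * q ≤ (m : ℝ) ^ 2 / 2 ^ 26 := by
    have h1 : (n : ℝ) * q ≤ n * (n / 2 ^ 34) := by
      apply mul_le_mul_of_nonneg_left _ hnR.le
      rw [le_div_iff₀ (by positivity)]
      linarith
    have h2 : (n : ℝ) * n ≤ (16 * m) * (16 * m) := mul_le_mul hmR hmR hnR.le (by positivity)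
    calc (n : ℝ) * q ≤ n * (n / 2 ^ 34) := h1
      _ = n * n / 2 ^ 34 := by ring
      _ ≤ (16 * m) * (16 * m) / 2 ^ 34 := div_le_div_of_nonneg_right h2 (by positivity)
      _ = (m : ℝ) ^ 2 / 2 ^ 26 := by ring
  have hG0q : (G₀ : ℝ) * q ≤ Q * ((m : ℝ) ^ 2 / 2 ^ 26) := by
    rw [← hnQ]
    have := mul_le_mul_of_nonneg_left hnm2 hQ0
    linarith
  have hG0m : (G₀ : ℝ) * m ≤ Q * (16 * (m : ℝ) ^ 2) := by
    rw [← hnQ]
    exact aux_mid hmR hQ0 hm0.le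
  have hacond : (K0 r D₀).card * ((D₀ᶜ.card - (r - 1)) + q) ≤ a * (D₀ᶜ.card - (r - 1)) ^ 2 := by
    rw [← hm, ← hG₀]
    have h1 : (G₀ : ℝ) * (m + q) ≤ a * (m : ℝ) ^ 2 := by
      have h2 : (17 * Q) * (m : ℝ) ^ 2 ≤ a * (m : ℝ) ^ 2 :=
        mul_le_mul_of_nonneg_right ha1 (by positivity)
      have h3 : Q * ((m : ℝ) ^ 2 / 2 ^ 26) ≤ Q * (m : ℝ) ^ 2 := by
        apply mul_le_mul_of_nonneg_left _ hQ0
        exact div_le_self (by positivity) (by norm_num)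
      linarith
    exact_mod_cast h1
  have hτcond : ((K0 r D₀).card : ℝ) * q + ((n * G₁ : ℕ) : ℝ) * (D₀ᶜ.card - (r - 1) : ℕ) +
      Q / 2 ^ 13 * ((D₀ᶜ.card - (r - 1) : ℕ) : ℝ) ^ 2 ≤
      τ * ((D₀ᶜ.card - (r - 1) : ℕ) : ℝ) ^ 2 := by
    rw [← hm, ← hG₀]
    have h1 : ((n * G₁ : ℕ) : ℝ) ≤ G₀ / 4096 := by
      rw [le_div_iff₀ (by norm_num)]
      have : ((4096 * (n * G₁) : ℕ) : ℝ) ≤ G₀ := by exact_mod_cast hG₁'
      push_cast at this ⊢
      linarith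
    have h2 : ((n * G₁ : ℕ) : ℝ) * m ≤ Q * (m : ℝ) ^ 2 / 256 := by
      calc ((n * G₁ : ℕ) : ℝ) * m ≤ (G₀ / 4096) * m := mul_le_mul_of_nonneg_right h1 hm0.le
        _ = (G₀ * m) / 4096 := by ring
        _ ≤ (Q * (16 * (m : ℝ) ^ 2)) / 4096 := div_le_div_of_nonneg_right hG0m (by norm_num)
        _ = Q * (m : ℝ) ^ 2 / 256 := by ring
    have h3 : Q / 200 * (m : ℝ) ^ 2 ≤ τ * (m : ℝ) ^ 2 :=
      mul_le_mul_of_nonneg_right hτ1 (by positivity)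
    have h4 : 0 ≤ Q * (m : ℝ) ^ 2 := by positivity
    have h5 : Q * ((m : ℝ) ^ 2 / 2 ^ 26) = Q * (m : ℝ) ^ 2 / 2 ^ 26 := by ring
    have h6 : Q / 2 ^ 13 * (m : ℝ) ^ 2 = Q * (m : ℝ) ^ 2 / 2 ^ 13 := by ring
    have h7 : Q / 200 * (m : ℝ) ^ 2 = Q * (m : ℝ) ^ 2 / 200 := by ring
    rw [h5] at hG0q
    rw [h6]
    rw [h7] at h3
    linarith
  have hWf := card_Wf (r := r) (q := q) (D₀ := D₀) (by omega) (by omega) (n * G₁) a τ
    (Real.exp (Q / 2 ^ 15)) (Q / 2 ^ 13) (1 / 256) (by norm_num) (by norm_num) hcontW hacond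
    hτcond
  have hw : ((Wf r D₀ (n * G₁)).card : ℝ) ≤ Real.exp (Q / 10 + 6) := by
    refine hWf.trans ?_
    have h1 : (1 + 1 / 256 : ℝ) ^ a ≤ Real.exp (a / 256) := by
      have := one_add_pow_le_exp (a := 1 / 256) (by norm_num) a
      rw [show (a : ℝ) / 256 = a * (1 / 256) by ring]
      exact this
    have h2 : (1 : ℝ) / (1 / 256) ^ τ ≤ Real.exp (28 / 5 * τ) := by
      have e1 : (1 : ℝ) / (1 / 256) ^ τ = 2 ^ (8 * τ) := by
        rw [pow_mul, one_div_pow, one_div_one_div]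
        norm_num
      rw [e1]
      refine (two_pow_le_exp _).trans (Real.exp_le_exp.2 ?_)
      push_cast
      linarith
    calc Real.exp (Q / 2 ^ 15) * ((1 + 1 / 256) ^ a / (1 / 256) ^ τ)
        = Real.exp (Q / 2 ^ 15) * ((1 + 1 / 256) ^ a * (1 / (1 / 256) ^ τ)) := by ring
      _ ≤ Real.exp (Q / 2 ^ 15) * (Real.exp (a / 256) * Real.exp (28 / 5 * τ)) := by
          apply mul_le_mul_of_nonneg_left _ (by positivity)
          exact mul_le_mul h1 h2 (by positivity) (by positivity)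
      _ = Real.exp (Q / 2 ^ 15 + (a / 256 + 28 / 5 * τ)) := by
          rw [← Real.exp_add, ← Real.exp_add]
      _ ≤ Real.exp (Q / 10 + 6) := by
          apply Real.exp_le_exp.2
          linarith
  -- the main bound
  have hmain := fixed_bound 𝒞 hE hup r q thr G₁ G₂ f D₀ hD₀q hn0 hqr hqn hthr0
    (by rw [← hN]; exact hfN) (Real.exp (Q / 2 ^ 15)) (Q / 2 ^ 13) (Real.exp (Q / 10 + 6))
    (by positivity) hcont hw hG₂'
  refine hmain.trans (mul_le_mul_of_nonneg_right ?_ (by positivity))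
  -- the prefactor
  have p1 : (n + 1) ^ q ≤ 2 ^ (n / 16) := by
    calc (n + 1) ^ q ≤ (2 ^ L) ^ q := Nat.pow_le_pow_left hnL q
      _ = 2 ^ (L * q) := by rw [pow_mul]
      _ ≤ 2 ^ (n / 16) := by
          apply Nat.pow_le_pow_right (by norm_num)
          rw [Nat.le_div_iff_mul_le (by norm_num)]
          have h1 : L * 16 ≤ s := by
            refine le_trans ?_ hCs
            have h2 : L ≤ L ^ 2 := Nat.le_self_pow (by norm_num) L
            calc L * 16 ≤ L ^ 2 * 16 := Nat.mul_le_mul_right _ h2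
              _ = 16 * 1 * 1 * L ^ 2 := by ring
              _ ≤ 2 ^ 34 * K * B * L ^ 2 := by
                  apply Nat.mul_le_mul_right
                  apply Nat.mul_le_mul _ hB1
                  exact Nat.mul_le_mul (by norm_num) hK1
          calc L * q * 16 = q * (L * 16) := by ring
            _ ≤ q * s := Nat.mul_le_mul_left _ h1
            _ ≤ n := by rw [hq]; exact hs3
  have p2 : ((2 : ℝ) ^ ((n + 1) ^ q)) ^ 2 ≤ Real.exp (Q / 2 ^ 16) := by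
    rw [← pow_mul]
    refine (two_pow_le_exp' _).trans (Real.exp_le_exp.2 ?_)
    have h1 : (((n + 1) ^ q * 2 : ℕ) : ℝ) ≤ 2 ^ (n / 16) * 2 := by
      have : (n + 1) ^ q * 2 ≤ 2 ^ (n / 16) * 2 := Nat.mul_le_mul_right _ p1
      exact_mod_cast this
    rw [le_div_iff₀ (by positivity)]
    have h2 : (0 : ℝ) < 2 ^ (n / 16) := by positivity
    exact aux_two h1 h2 hQ2
  have p3 : ((2 ^ n + 1 : ℝ) ^ f) ^ 2 ≤ Real.exp (Q / 2 ^ 16) := by
    have h1 : (2 ^ n + 1 : ℝ) ≤ 2 ^ (n + 1) := by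
      rw [pow_succ]
      have : (1 : ℝ) ≤ 2 ^ n := one_le_pow₀ (by norm_num)
      linarith
    have h2 : ((2 ^ n + 1 : ℝ) ^ f) ^ 2 ≤ (2 : ℝ) ^ ((n + 1) * (f * 2)) := by
      rw [← pow_mul, pow_mul (2 : ℝ) (n + 1)]
      exact pow_le_pow_left₀ (by positivity) h1 _
    refine h2.trans ((two_pow_le_exp' _).trans (Real.exp_le_exp.2 ?_))
    -- the bound for `f`
    have h3 : (f : ℝ) * thr ≤ 4 * N := by
      have : f * thr ≤ 4 * N := by rw [hf]; exact Nat.div_mul_le_self _ _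
      exact_mod_cast this
    have h4 : ((K : ℝ) ^ 2 * (n : ℝ) ^ 2) / 256 ≤ thr := by
      have e1 : (thr : ℝ) = ((K * s : ℝ) + 1) * (K * s) * ((s : ℝ) ^ 3 * (s : ℝ) ^ 3) := by
        rw [hthr]
        push_cast
        rw [ha₀R, hqR]
      have e2 : (n : ℝ) ^ 2 ≤ 256 * (s : ℝ) ^ 8 := by
        have : (n : ℝ) ≤ 16 * (s : ℝ) ^ 4 := by exact_mod_cast hn16
        calc (n : ℝ) ^ 2 ≤ (16 * (s : ℝ) ^ 4) ^ 2 := pow_le_pow_left₀ hnR.le this 2
          _ = 256 * (s : ℝ) ^ 8 := by ring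
      rw [div_le_iff₀ (by norm_num), e1]
      calc (K : ℝ) ^ 2 * (n : ℝ) ^ 2 ≤ (K : ℝ) ^ 2 * (256 * (s : ℝ) ^ 8) :=
            mul_le_mul_of_nonneg_left e2 (by positivity)
        _ = ((K * s : ℝ)) * (K * s) * ((s : ℝ) ^ 3 * (s : ℝ) ^ 3) * 256 := by ring
        _ ≤ ((K * s : ℝ) + 1) * (K * s) * ((s : ℝ) ^ 3 * (s : ℝ) ^ 3) * 256 := by
            apply mul_le_mul_of_nonneg_right _ (by norm_num)
            apply mul_le_mul_of_nonneg_right _ (by positivity)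
            apply mul_le_mul_of_nonneg_right _ (by positivity)
            linarith
    have h5 : (K : ℝ) ^ 2 = 2 ^ 28 * B := by exact_mod_cast hKK
    rw [h5] at h4
    have h6 : (f : ℝ) * (2 ^ 20 * B * (n : ℝ) ^ 2) ≤ 4 * (B * (n * Q)) := by
      have e1 : 2 ^ 28 * (B : ℝ) * (n : ℝ) ^ 2 / 256 = 2 ^ 20 * B * (n : ℝ) ^ 2 := by ring
      rw [e1] at h4
      calc (f : ℝ) * (2 ^ 20 * B * (n : ℝ) ^ 2) ≤ f * thr :=
            mul_le_mul_of_nonneg_left h4 (by positivity)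
        _ ≤ 4 * N := h3
        _ ≤ 4 * (B * (n * Q)) := by linarith
    have h7 : (f : ℝ) * n * 2 ^ 18 ≤ Q := by
      have e1 : ((B : ℝ) * n) * (f * n * 2 ^ 18) ≤ (B * n) * Q := by
        have e2 : 4 * (((B : ℝ) * n) * (f * n * 2 ^ 18)) = f * (2 ^ 20 * B * (n : ℝ) ^ 2) := by
          ring
        have e3 : 4 * (((B : ℝ) * n) * Q) = 4 * (B * (n * Q)) := by ring
        linarith
      exact le_of_mul_le_mul_left e1 (by positivity)
    push_cast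
    rw [le_div_iff₀ (by positivity)]
    have h8 : ((n : ℝ) + 1) * (f * 2) ≤ 4 * (f * n) := aux_f hn1R (by positivity)
    have h9 : ((n : ℝ) + 1) * (f * 2) * 2 ^ 16 ≤ 4 * (f * n) * 2 ^ 16 :=
      mul_le_mul_of_nonneg_right h8 (by positivity)
    linarith
  have p4 : ((2 : ℝ) ^ ((n + 1) ^ q) * (2 ^ n + 1) ^ f) ^ 2 * Real.exp (Q / 2 ^ 15) ≤
      Real.exp (Q / 2 ^ 14) := by
    rw [mul_pow]
    calc ((2 : ℝ) ^ ((n + 1) ^ q)) ^ 2 * ((2 ^ n + 1 : ℝ) ^ f) ^ 2 * Real.exp (Q / 2 ^ 15)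
        ≤ Real.exp (Q / 2 ^ 16) * Real.exp (Q / 2 ^ 16) * Real.exp (Q / 2 ^ 15) := by
          apply mul_le_mul_of_nonneg_right _ (by positivity)
          exact mul_le_mul p2 p3 (by positivity) (by positivity)
      _ = Real.exp (Q / 2 ^ 14) := by
          rw [← Real.exp_add, ← Real.exp_add]
          congr 1
          ring
  -- the gains
  have hhalf : ∀ k : ℕ, (1 / 2 : ℝ) ^ k ≤ Real.exp (-(k / 2)) := by
    intro k
    have h1 : (1 / 2 : ℝ) ≤ Real.exp (-(1 / 2)) := by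
      have := Real.add_one_le_exp (-(1 / 2) : ℝ)
      linarith
    calc (1 / 2 : ℝ) ^ k ≤ (Real.exp (-(1 / 2))) ^ k := pow_le_pow_left₀ (by norm_num) h1 k
      _ = Real.exp (-(k / 2)) := by
          rw [← Real.exp_nat_mul]
          congr 1
          ring
  have g1 : Q / 4096 - 1 ≤ (G₁ : ℝ) := by
    have h1 : G₀ < 4096 * n * (G₁ + 1) := by
      rw [hG₁]
      exact Nat.lt_mul_div_succ _ (by positivity)
    have h2 : (G₀ : ℝ) < 4096 * n * (G₁ + 1) := by exact_mod_cast h1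
    rw [← hnQ] at h2
    have h3 : (n : ℝ) * Q < n * (4096 * (G₁ + 1)) := by linarith
    have h4 := lt_of_mul_lt_mul_left h3 hnR.le
    linarith
  have g2 : Q - 1 ≤ (G₂ : ℝ) := by
    have h1 : G₀ < n * (G₂ + 1) := by
      rw [hG₂]
      exact Nat.lt_mul_div_succ _ hn0
    have h2 : (G₀ : ℝ) < n * (G₂ + 1) := by exact_mod_cast h1
    rw [← hnQ] at h2
    have h4 := lt_of_mul_lt_mul_left h2 hnR.le
    linarith
  have g3 : (1 / 2 : ℝ) ^ G₁ + Real.exp (Q / 10 + 6) * (1 / 2) ^ G₂ ≤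
      Real.exp (-(Q / 8192) + 8) := by
    have h1 : (1 / 2 : ℝ) ^ G₁ ≤ Real.exp (-(Q / 8192) + 7) := by
      refine (hhalf G₁).trans (Real.exp_le_exp.2 ?_)
      linarith
    have h2 : Real.exp (Q / 10 + 6) * (1 / 2) ^ G₂ ≤ Real.exp (-(Q / 8192) + 7) := by
      calc Real.exp (Q / 10 + 6) * (1 / 2) ^ G₂
          ≤ Real.exp (Q / 10 + 6) * Real.exp (-(G₂ / 2)) :=
            mul_le_mul_of_nonneg_left (hhalf G₂) (by positivity)
        _ = Real.exp (Q / 10 + 6 + -(G₂ / 2)) := by rw [← Real.exp_add]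
        _ ≤ _ := by
            apply Real.exp_le_exp.2
            linarith
    have h3 : (2 : ℝ) ≤ Real.exp 1 := by
      have := Real.add_one_le_exp (1 : ℝ)
      linarith
    calc (1 / 2 : ℝ) ^ G₁ + Real.exp (Q / 10 + 6) * (1 / 2) ^ G₂
        ≤ 2 * Real.exp (-(Q / 8192) + 7) := by linarith
      _ ≤ Real.exp 1 * Real.exp (-(Q / 8192) + 7) :=
          mul_le_mul_of_nonneg_right h3 (by positivity)
      _ = Real.exp (-(Q / 8192) + 8) := by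
          rw [← Real.exp_add]
          congr 1
          ring
  calc ((2 : ℝ) ^ ((n + 1) ^ q) * (2 ^ n + 1) ^ f) ^ 2 * Real.exp (Q / 2 ^ 15) *
        ((1 / 2) ^ G₁ + Real.exp (Q / 10 + 6) * (1 / 2) ^ G₂)
      ≤ Real.exp (Q / 2 ^ 14) * Real.exp (-(Q / 8192) + 8) :=
        mul_le_mul p4 g3 (by positivity) (by positivity)
    _ = Real.exp (Q / 2 ^ 14 + (-(Q / 8192) + 8)) := by rw [← Real.exp_add]
    _ ≤ Real.exp (-(4 * n)) := by
        apply Real.exp_le_exp.2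
        have : (2 : ℝ) ≤ n := by
          have : 2 ≤ n := by omega
          exact_mod_cast this
        linarith

end Pool.Agent.Matroid6d
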