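import Pool.Agent.Matroid6d.G.Room

/-!
The number of stable families that are almost perfect.
-/

set_option autoImplicit false

namespace Pool.Agent.Matroid6d

open Finset

variable {n : ℕ}

/-- In a family of `k`-subsets of `H` without vertices of large degree there are few members. -/
lemma exists_deg_up (k : ℕ) (H : Finset (Fin n)) (A : Finset (Finset (Fin n)))
    (hA : ∀ v ∈ A, v.card = k ∧ v ⊆ H) (hkH : k < H.card) (hne : A.Nonempty) :
    ∃ v ∈ A, (H.card - k) ^ 2 * A.card ≤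
      (powersetCard (k + 1) H).card * ((H.card - k) + (Ngb A v).card) := by
  classical
  have hinj : Set.InjOn (fun v : Finset (Fin n) => H \ v) (A : Set (Finset (Fin n))) := by
    intro v hv w hw h
    have hv' := (hA v hv).2
    have hw' := (hA w hw).2
    have h' : H \ v = H \ w := h
    rw [← Finset.sdiff_sdiff_eq_self hv', ← Finset.sdiff_sdiff_eq_self hw', h']
  set A' := A.image (fun v => H \ v) with hA'
  set k' := H.card - k with hk'
  have hk'1 : 1 ≤ k' := by omega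
  set W' := powersetCard (k' - 1) H with hW'
  have hcard : ∀ v ∈ A, (H \ v).card = k' := by
    intro v hv
    rw [card_sdiff_of_subset (hA v hv).2, (hA v hv).1]
  obtain ⟨v', hv', hd⟩ := exists_deg k' W' A' (by
      intro u hu
      rw [hA', mem_image] at hu
      obtain ⟨v, hv, rfl⟩ := hu
      exact hcard v hv) (by
      intro T hT
      have := (mem_powersetCard.1 hT).2
      omega) (by
      intro u hu x hx
      rw [hA', mem_image] at hu
      obtain ⟨v, hv, rfl⟩ := hu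
      rw [hW', mem_powersetCard]
      refine ⟨(erase_subset _ _).trans sdiff_subset, ?_⟩
      rw [card_erase_of_mem hx, hcard v hv]) (hne.image _)
  rw [hA', mem_image] at hv'
  obtain ⟨v, hv, rfl⟩ := hv'
  refine ⟨v, hv, ?_⟩
  have e1 : A'.card = A.card := card_image_of_injOn hinj
  have e2 : W'.card = (powersetCard (k + 1) H).card := by
    rw [hW', card_powersetCard, card_powersetCard]
    rw [← Nat.choose_symm (show k + 1 ≤ H.card by omega)]
    congr 1
  have e3 : (Ngb A' (H \ v)).card ≤ (Ngb A v).card := by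
    have h1 : Ngb A' (H \ v) ⊆ (Ngb A v).image (fun w => H \ w) := by
      intro u hu
      rw [mem_Ngb, hA', mem_image] at hu
      obtain ⟨⟨w, hw, rfl⟩, _, had⟩ := hu
      rw [mem_image]
      refine ⟨w, mem_Ngb.2 ⟨hw, by rw [(hA v hv).1, (hA w hw).1], ?_⟩, rfl⟩
      have e : (H \ v) \ (H \ w) = w \ v := by
        ext z
        simp only [mem_sdiff, not_and, not_not]
        constructor
        · rintro ⟨⟨g1, g2⟩, g3⟩
          exact ⟨g3 g1, g2⟩
        · rintro ⟨g1, g2⟩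
          exact ⟨⟨(hA w hw).2 g1, g2⟩, fun _ => g1⟩
      rw [e] at had
      rw [card_sdiff_comm' (by rw [(hA v hv).1, (hA w hw).1])]
      exact had
    exact (card_le_card h1).trans card_image_le
  rw [e1, e2] at hd
  exact hd.trans (Nat.mul_le_mul_left _ (Nat.add_le_add_left e3 _))

/-- Small subsets. -/
lemma card_small_le {α : Type} [DecidableEq α] (s : Finset α) (τ a : ℕ) (x : ℝ) (hx : 0 < x)
    (hx1 : x ≤ 1) (ha : s.card ≤ a) :
    (((s.powerset.filter (fun t => t.card ≤ τ)).card : ℕ) : ℝ) ≤ (1 + x) ^ a / x ^ τ := by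
  rw [le_div_iff₀ (by positivity)]
  calc (((s.powerset.filter (fun t => t.card ≤ τ)).card : ℕ) : ℝ) * x ^ τ
      = ∑ _t ∈ s.powerset.filter (fun t => t.card ≤ τ), x ^ τ := by
        rw [sum_const, nsmul_eq_mul]
    _ ≤ ∑ t ∈ s.powerset.filter (fun t => t.card ≤ τ), x ^ t.card := by
        apply sum_le_sum
        intro t ht
        exact pow_le_pow_of_le_one hx.le hx1 (mem_filter.1 ht).2
    _ ≤ ∑ t ∈ s.powerset, x ^ t.card := by
        apply sum_le_sum_of_subset_of_nonneg (filter_subset _ _)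
        intro _ _ _
        positivity
    _ = (1 + x) ^ s.card := sum_powerset_pow s x
    _ ≤ (1 + x) ^ a := pow_le_pow_right₀ (by linarith) ha

variable {r q : ℕ} {D₀ : Finset (Fin n)}

lemma dom_le (W : Finset (Finset (Fin n))) (hr : 1 ≤ r)
    (hW : W ⊆ powersetCard (r - 1) D₀ᶜ) :
    (domK r D₀ W).card ≤ (D₀ᶜ.card - (r - 1)) * W.card := by
  classical
  have h1 : domK r D₀ W ⊆ W.biUnion (fun C => (D₀ᶜ \ C).image (fun e => insert e C)) := by
    intro Z hZ
    obtain ⟨hZK, C, hC, hCZ⟩ := mem_domK.1 hZ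
    have hC' := mem_powersetCard.1 (hW hC)
    rw [mem_biUnion]
    refine ⟨C, hC, ?_⟩
    have hZr := (mem_K0.1 hZK).1
    have h2 : (Z \ C).card = 1 := by
      rw [card_sdiff_of_subset hCZ, hZr, hC'.2]
      omega
    obtain ⟨e, he⟩ := card_eq_one.1 h2
    rw [mem_image]
    have heZ : e ∈ Z \ C := by rw [he]; exact mem_singleton_self _
    rw [mem_sdiff] at heZ
    refine ⟨e, ?_, ?_⟩
    · rw [mem_sdiff, mem_compl]
      exact ⟨fun h => disjoint_left.1 (mem_K0.1 hZK).2 heZ.1 h, heZ.2⟩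
    · rw [insert_eq, ← he, sdiff_union_of_subset hCZ]
  refine (card_le_card h1).trans ?_
  refine card_biUnion_le.trans ?_
  calc ∑ C ∈ W, ((D₀ᶜ \ C).image (fun e => insert e C)).card
      ≤ ∑ _C ∈ W, (D₀ᶜ.card - (r - 1)) := by
        apply sum_le_sum
        intro C hC
        have hC' := mem_powersetCard.1 (hW hC)
        refine card_image_le.trans ?_
        rw [card_sdiff_of_subset hC'.1, hC'.2]
    _ = (D₀ᶜ.card - (r - 1)) * W.card := by rw [sum_const, smul_eq_mul, mul_comm]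

open Classical in
/-- The stable families of traces that leave out fewer than `g` members of `K0`. -/
noncomputable def Wf (r : ℕ) (D₀ : Finset (Fin n)) (g : ℕ) : Finset (Finset (Finset (Fin n))) :=
  univ.filter (fun W => Stable W ∧ W ⊆ powersetCard (r - 1) D₀ᶜ ∧
    (K0 r D₀ \ domK r D₀ W).card < g)

lemma mem_Wf {g : ℕ} {W : Finset (Finset (Fin n))} :
    W ∈ Wf r D₀ g ↔ Stable W ∧ W ⊆ powersetCard (r - 1) D₀ᶜ ∧
      (K0 r D₀ \ domK r D₀ W).card < g := by
  classical
  simp only [Wf, mem_filter, mem_univ, true_and]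

/-- There are few of them. -/
theorem card_Wf (hr : 1 ≤ r) (hrD : r ≤ D₀ᶜ.card) (g a τ : ℕ) (c t x : ℝ) (hx : 0 < x)
    (hx1 : x ≤ 1)
    (hC : HasC (Wf r D₀ g : Set (Finset (Finset (Fin n)))) q (powersetCard (r - 1) D₀ᶜ) c t)
    (ha : (K0 r D₀).card * ((D₀ᶜ.card - (r - 1)) + q) ≤ a * (D₀ᶜ.card - (r - 1)) ^ 2)
    (hτ : ((K0 r D₀).card : ℝ) * q + g * (D₀ᶜ.card - (r - 1) : ℕ) +
      t * ((D₀ᶜ.card - (r - 1) : ℕ) : ℝ) ^ 2 ≤ τ * ((D₀ᶜ.card - (r - 1) : ℕ) : ℝ) ^ 2) :
    ((Wf r D₀ g).card : ℝ) ≤ c * ((1 + x) ^ a / x ^ τ) := by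
  classical
  obtain ⟨𝒟, hc, hD⟩ := hC
  set m := D₀ᶜ.card - (r - 1) with hm
  have hm1 : 1 ≤ m := by omega
  have hm0 : (0 : ℝ) < m := by exact_mod_cast hm1
  have hWW : ∀ W ∈ Wf r D₀ g, ∃ p ∈ 𝒟, p.1 ⊆ powersetCard (r - 1) D₀ᶜ ∧
      (∀ v ∈ p.1, (Ngb p.1 v).card < q) ∧
      (∀ v, v ∈ p.2 ↔ v ∈ W ∧ v ∈ powersetCard (r - 1) D₀ᶜ ∧ v ∉ p.1) ∧
      ((∀ v ∈ W, Ngb W v = ∅) → (p.2.card : ℝ) ≤ t) := fun W hW => hD W (by exact_mod_cast hW)
  choose! φ hφ1 hφ2 hφ3 hφ4 hφ5 using hWW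
  -- the bounds for the containers
  have hcard1 : ∀ W ∈ Wf r D₀ g, (φ W).1.card * m ^ 2 ≤ (K0 r D₀).card * (m + q) := by
    intro W hW
    rcases (φ W).1.eq_empty_or_nonempty with h0 | h0
    · rw [h0, card_empty, zero_mul]
      exact Nat.zero_le _
    · obtain ⟨v, hv, hd⟩ := exists_deg_up (r - 1) D₀ᶜ (φ W).1 (fun v hv => by
        have := mem_powersetCard.1 (hφ2 W hW hv)
        exact ⟨this.2, this.1⟩) (by omega) h0
      have h1 := hφ3 W hW v hv
      rw [show r - 1 + 1 = r by omega] at hd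
      calc (φ W).1.card * m ^ 2 = m ^ 2 * (φ W).1.card := mul_comm _ _
        _ ≤ (powersetCard r D₀ᶜ).card * (m + (Ngb (φ W).1 v).card) := hd
        _ ≤ (K0 r D₀).card * (m + q) := Nat.mul_le_mul_left _ (by omega)
  have hsub : ∀ W ∈ Wf r D₀ g, (φ W).1 \ W ∈ (φ W).1.powerset.filter (fun t => t.card ≤ τ) := by
    intro W hW
    rw [mem_filter, mem_powerset]
    refine ⟨sdiff_subset, ?_⟩
    obtain ⟨hst, hWV, hg⟩ := mem_Wf.1 hW
    have hN : ∀ v ∈ W, Ngb W v = ∅ := by
      intro v hv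
      rw [eq_empty_iff_forall_notMem]
      intro u hu
      rw [mem_Ngb] at hu
      have hne : v ≠ u := by
        intro h
        rw [h] at hu
        exact not_adj_self u hu.2
      have := hst v hv u hu.1 hne
      have := hu.2.2
      omega
    have ht := hφ5 W hW hN
    -- the sizes
    have s1 : W.card ≤ (φ W).2.card + (W ∩ (φ W).1).card := by
      have : W ⊆ (φ W).2 ∪ (W ∩ (φ W).1) := by
        intro v hv
        rw [mem_union, mem_inter]
        by_cases h : v ∈ (φ W).1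
        · exact Or.inr ⟨hv, h⟩
        · exact Or.inl ((hφ4 W hW v).2 ⟨hv, hWV hv, h⟩)
      exact (card_le_card this).trans (card_union_le _ _)
    have s2 : ((φ W).1 \ W).card + (W ∩ (φ W).1).card = (φ W).1.card := by
      rw [inter_comm]
      exact card_sdiff_add_card_inter _ _
    have s3 := dom_le W hr hWV
    have s4 : (K0 r D₀).card ≤ (domK r D₀ W).card + (K0 r D₀ \ domK r D₀ W).card := by
      have := card_sdiff_add_card_inter (K0 r D₀) (domK r D₀ W)
      have h2 : (K0 r D₀ ∩ domK r D₀ W).card ≤ (domK r D₀ W).card :=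
        card_le_card inter_subset_right
      omega
    have s5 := hcard1 W hW
    by_contra hlt
    push Not at hlt
    have r1 : (W.card : ℝ) ≤ (φ W).2.card + (W ∩ (φ W).1).card := by exact_mod_cast s1
    have r2 : (((φ W).1 \ W).card : ℝ) + (W ∩ (φ W).1).card = (φ W).1.card := by
      exact_mod_cast s2
    have r3 : ((domK r D₀ W).card : ℝ) ≤ m * W.card := by exact_mod_cast s3
    have r4 : ((K0 r D₀).card : ℝ) ≤ (domK r D₀ W).card + (K0 r D₀ \ domK r D₀ W).card := by
      exact_mod_cast s4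
    have r5 : ((φ W).1.card : ℝ) * (m : ℝ) ^ 2 ≤ (K0 r D₀).card * (m + q) := by
      exact_mod_cast s5
    have r6 : ((K0 r D₀ \ domK r D₀ W).card : ℝ) ≤ g := by exact_mod_cast hg.le
    have r7 : (τ : ℝ) < ((φ W).1 \ W).card := by exact_mod_cast hlt
    have r8 : ((K0 r D₀).card : ℝ) - g ≤ m * ((φ W).2.card + (W ∩ (φ W).1).card) := by
      have := mul_le_mul_of_nonneg_left r1 hm0.le
      linarith
    have r9 : (τ : ℝ) * (m : ℝ) ^ 2 < ((φ W).1 \ W).card * (m : ℝ) ^ 2 :=
      mul_lt_mul_of_pos_right r7 (by positivity)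
    have r10 : ((φ W).2.card : ℝ) * (m : ℝ) ^ 2 ≤ t * (m : ℝ) ^ 2 :=
      mul_le_mul_of_nonneg_right ht (by positivity)
    have r11 : (((K0 r D₀).card : ℝ) - g) * m ≤
        m * ((φ W).2.card + (W ∩ (φ W).1).card) * m :=
      mul_le_mul_of_nonneg_right r8 hm0.le
    have r12 : (((φ W).1 \ W).card : ℝ) * (m : ℝ) ^ 2 =
        (φ W).1.card * (m : ℝ) ^ 2 - (W ∩ (φ W).1).card * (m : ℝ) ^ 2 := by
      rw [← r2]
      ring
    nlinarith
  -- the encoding
  set f : Finset (Finset (Fin n)) →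
      (Σ _ : Finset (Finset (Fin n)) × Finset (Finset (Fin n)), Finset (Finset (Fin n))) :=
    fun W => ⟨φ W, (φ W).1 \ W⟩ with hf
  have h1 : (Wf r D₀ g).card ≤
      ((𝒟.filter (fun p => p.1.card ≤ a)).sigma
        (fun p => p.1.powerset.filter (fun t => t.card ≤ τ))).card := by
    apply card_le_card_of_injOn f
    · intro W hW
      rw [mem_coe] at hW
      rw [mem_coe, mem_sigma, mem_filter]
      refine ⟨⟨hφ1 W hW, ?_⟩, hsub W hW⟩
      have h3 := (hcard1 W hW).trans ha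
      exact Nat.le_of_mul_le_mul_right h3 (by positivity)
    · intro W hW W' hW' heq
      rw [mem_coe] at hW hW'
      rw [hf] at heq
      simp only [Sigma.mk.injEq] at heq
      obtain ⟨e1, e2⟩ := heq
      rw [← e1] at e2
      have e3 : (φ W).1 \ W = (φ W).1 \ W' := eq_of_heq e2
      ext v
      have hv1 := hφ4 W hW v
      have hv2 := hφ4 W' hW' v
      rw [← e1] at hv2
      have hWV := (mem_Wf.1 hW).2.1
      have hWV' := (mem_Wf.1 hW').2.1
      by_cases hv : v ∈ (φ W).1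
      · have e4 : v ∈ (φ W).1 \ W ↔ v ∈ (φ W).1 \ W' := by rw [e3]
        rw [mem_sdiff, mem_sdiff] at e4
        tauto
      · constructor
        · intro h
          exact (hv2.1 (hv1.2 ⟨h, hWV h, hv⟩)).1
        · intro h
          exact (hv1.1 (hv2.2 ⟨h, hWV' h, hv⟩)).1
  have h2 : ((Wf r D₀ g).card : ℝ) ≤
      ∑ p ∈ 𝒟.filter (fun p => p.1.card ≤ a),
        (((p.1.powerset.filter (fun t => t.card ≤ τ)).card : ℕ) : ℝ) := by
    have h3 := h1
    rw [card_sigma] at h3
    exact_mod_cast h3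
  have hpos : 0 ≤ (1 + x) ^ a / x ^ τ := by positivity
  calc ((Wf r D₀ g).card : ℝ)
      ≤ ∑ p ∈ 𝒟.filter (fun p => p.1.card ≤ a),
        (((p.1.powerset.filter (fun t => t.card ≤ τ)).card : ℕ) : ℝ) := h2
    _ ≤ ∑ _p ∈ 𝒟.filter (fun p => p.1.card ≤ a), (1 + x) ^ a / x ^ τ := by
        apply sum_le_sum
        intro p hp
        exact card_small_le p.1 τ a x hx hx1 (mem_filter.1 hp).2
    _ = (𝒟.filter (fun p => p.1.card ≤ a)).card * ((1 + x) ^ a / x ^ τ) := by
        rw [sum_const, nsmul_eq_mul]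
    _ ≤ 𝒟.card * ((1 + x) ^ a / x ^ τ) := by
        apply mul_le_mul_of_nonneg_right _ hpos
        exact_mod_cast card_filter_le _ _
    _ ≤ c * ((1 + x) ^ a / x ^ τ) := mul_le_mul_of_nonneg_right hc hpos

end Pool.Agent.Matroid6d
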